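import Pool.Agent.T9h40.Prod.Main

/-!
One-parameter families of subvarieties of the products of elliptic schemes (helper file).
-/

set_option autoImplicit false

namespace Pool.Agent.T9h40.Prod

open MvPolynomial Pool.Agent.R424.TG Pool.Agent.W282.ZP
open Pool.Agent.R424.PT (RatVal exists_val_prescribed val_near count)
open Pool.Agent.Results.MP_28d749_ag.RandomMultisections (curve xCoord)

variable {κ I : Type} {g r q N : ℕ} {ty : Fin q → Fin g}

/-- The member of the family at `t`: the coefficients, which are polynomials in `t` over the field of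
the algebraic numbers, are evaluated at `t`. -/
def Member (F : κ → MvPolynomial (Coord g r q ⊕ Fin N) (Polynomial (algebraicClosure ℚ ℂ))) (t : ℂ)
    (s : Base g r) (P : Fibre ty s) : Prop :=
  OnX (fun j => (F j).support) (fun j β => Polynomial.aeval t ((F j).coeff β)) s P

/-- The orders of the coefficients at the rational numbers `α ∈ D`. -/
noncomputable def orders
    (F : κ → MvPolynomial (Coord g r q ⊕ Fin N) (Polynomial (algebraicClosure ℚ ℂ)))
    (D : Finset ℚ) (α : {α // α ∈ D}) (j : κ) (β : (Coord g r q ⊕ Fin N) →₀ ℕ) : ℕ :=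
  ((F j).coeff β).rootMultiplicity (algebraMap ℚ (algebraicClosure ℚ ℂ) α)

/-- The orders of the coefficients near the elements of `D`, at the places above large primes. -/
theorem near_large [Finite κ]
    (F : κ → MvPolynomial (Coord g r q ⊕ Fin N) (Polynomial (algebraicClosure ℚ ℂ)))
    (D : Finset ℚ) : ∃ P₀ : ℕ, (∀ α ∈ D, α.den ≤ P₀) ∧ ∀ p : ℕ, p.Prime → P₀ < p →
      ∀ V : ValuationSubring ℂ, (p : ℂ) ∈ V.nonunits → ∀ (α : {α // α ∈ D}) (t : ℂ),
        V.valuation (t - ((α : ℚ) : ℂ)) = V.valuation (p : ℂ) → ∀ j, ∀ β ∈ (F j).support,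
          V.valuation (Polynomial.aeval t ((F j).coeff β)) =
            V.valuation (p : ℂ) ^ orders F D α j β := by
  classical
  let ι := Σ j : κ, {β // β ∈ (F j).support}
  obtain ⟨W, hW, -, -, hnear⟩ := near' (ι := ι) (fun x => (F x.1).coeff (x.2 : _ →₀ ℕ))
    (fun x => mem_support_iff.1 x.2.2)
    (D.image fun α : ℚ => algebraMap ℚ (algebraicClosure ℚ ℂ) α) ∅ Set.finite_empty
  have := hW.to_subtype
  obtain ⟨D₀, hD₀, halg⟩ := Pool.Agent.W466.ZP.alg_mem
    (fun z : W => algebraMap (algebraicClosure ℚ ℂ) ℂ z)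
    (fun z => mem_algebraicClosure_iff.1 (z : algebraicClosure ℚ ℂ).2)
  refine ⟨D₀ + ∑ α ∈ D, α.den, fun α hα => ?_, fun p hp hpP V hV α t ht j β hβ => ?_⟩
  · have := Finset.single_le_sum (f := fun α : ℚ => α.den) (fun _ _ => Nat.zero_le _) hα
    omega
  · have hpD : ¬ p ∣ D₀ := fun h => by
      have := Nat.le_of_dvd hD₀ h
      omega
    have hWV : ∀ z ∈ W, algebraMap (algebraicClosure ℚ ℂ) ℂ z ∈ V := fun z hz =>
      halg p hp hpD V hV ⟨z, hz⟩
    have hp1 : V.valuation (p : ℂ) < 1 := by rwa [ValuationSubring.mem_nonunits_iff] at hV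
    have hα : algebraMap (algebraicClosure ℚ ℂ) ℂ (algebraMap ℚ (algebraicClosure ℚ ℂ) α) =
        ((α : ℚ) : ℂ) := by
      rw [← IsScalarTower.algebraMap_apply ℚ (algebraicClosure ℚ ℂ) ℂ]
      rfl
    have h1 := hnear V hWV (algebraMap ℚ (algebraicClosure ℚ ℂ) α)
      (Finset.mem_image_of_mem _ α.2) t (by rw [hα, ht]; exact hp1) ⟨j, β, hβ⟩
    rw [hα, ht] at h1
    exact h1

/-- The members with a transcendental parameter. -/
theorem trans [Finite κ]
    (F : κ → MvPolynomial (Coord g r q ⊕ Fin N) (Polynomial (algebraicClosure ℚ ℂ)))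
    (D : Finset ℚ) (𝒞 : Set (Fin g → Fin g)) (m : ℕ)
    (hgen : Generic ty 𝒞 m (fun j => (F j).support) (orders F D)) (t : ℂ)
    (ht : Transcendental ℚ t) (K₁ : Subfield ℂ) [Countable K₁] (htK : t ∈ K₁) :
    NoAtypical K₁ 𝒞 Set.univ m (Member (ty := ty) F t) := by
  classical
  obtain ⟨P₀, -, hP₀⟩ := near_large F D
  refine noAtypical_of 𝒞 _ m _ fun ρ hρm s P hX hρ T hT => ?_
  obtain ⟨B, hρ⟩ := hρ.bounded
  obtain ⟨p, hpP, hp⟩ := Nat.exists_infinite_primes (P₀ + B + 5)
  have hplace : ∀ (α : {α // α ∈ D}) (T : Finset (Coord g r q)) (x : T → ℂ),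
      AlgebraicIndependent K₁ x → ∀ n : T → ℕ, (∀ t, 0 < n t) → ∀ k : T → ℤ,
      ∃ V : ValuationSubring ℂ, (p : ℂ) ∈ V.nonunits ∧
        (∀ t, V.valuation (x t) ^ n t = V.valuation (p : ℂ) ^ k t) ∧ RatVal V p ∧
        ∀ j, ∀ β ∈ (F j).support, V.valuation (Polynomial.aeval t ((F j).coeff β)) =
          V.valuation (p : ℂ) ^ orders F D α j β := by
    intro α T x hx n hn k
    have hu : Transcendental ℚ (t - ((α : ℚ) : ℂ)) := by
      intro h
      apply ht
      have h2 : IsAlgebraic ℚ ((α : ℚ) : ℂ) := isAlgebraic_algebraMap (A := ℂ) (α : ℚ)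
      have h3 := h.add h2
      rwa [sub_add_cancel] at h3
    have h1 : AlgebraicIndependent ℚ (fun _ : Unit => t - ((α : ℚ) : ℂ)) :=
      algebraicIndependent_unique_type_iff.2 hu
    have h2 : AlgebraicIndependent ℚ (Sum.elim x (fun _ : Unit => t - ((α : ℚ) : ℂ))) := by
      refine h1.sumElim_of_tower (S := K₁) ?_ hx
      rintro _ ⟨_, rfl⟩
      have h3 : ((α : ℚ) : ℂ) ∈ K₁ := SubfieldClass.ratCast_mem K₁ (α : ℚ)
      exact ⟨⟨_, sub_mem htK h3⟩, rfl⟩
    obtain ⟨V, hV, hVx, hrat⟩ := exists_val_prescribed _ h2 hp (Sum.elim n fun _ => 1)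
      (by
        rintro (i | i)
        · exact hn i
        · exact one_pos) (Sum.elim k fun _ => 1)
    have h4 := hVx (Sum.inr ())
    simp only [Sum.elim_inr, pow_one, zpow_one] at h4
    exact ⟨V, hV, fun i => hVx (Sum.inl i), hrat, fun j β hβ =>
      hP₀ p hp (by omega) V hV α t h4 j β hβ⟩
  exact point_bound (K₁ := K₁) 𝒞 _ m (fun j => (F j).support)
    (fun j β => Polynomial.aeval t ((F j).coeff β)) (orders F D) hgen (fun _ => p) (fun _ => hp)
    (fun _ => by omega) (fun n hn _ h => absurd (Nat.le_of_dvd hn.1 h) (by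
      have := hn.2
      omega)) hplace hX hρm hρ T hT

/-- The members with a rational parameter. -/
theorem rat [Finite κ]
    (F : κ → MvPolynomial (Coord g r q ⊕ Fin N) (Polynomial (algebraicClosure ℚ ℂ)))
    (D : Finset ℚ) (𝒞 : Set (Fin g → Fin g)) (m : ℕ)
    (hgen : Generic ty 𝒞 m (fun j => (F j).support) (orders F D)) (L : ℕ) :
    ∃ C : ℝ, ∀ B : ℕ, 1 ≤ B → ∀ v : ℕ, 1 ≤ v → v ≤ B →
      ({u : ℤ | |u| ≤ B ∧ IsCoprime u (v : ℤ) ∧
        ¬ NoAtypical ℚ 𝒞 {n | ∀ p : ℕ, p.Prime → p ∣ n → p ≤ L} m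
          (Member (ty := ty) F ((u : ℂ) / v))}.ncard : ℝ) ≤ C * Real.sqrt B := by
  classical
  obtain ⟨P₁, hden, hP₁⟩ := near_large F D
  obtain ⟨P₀, hPP⟩ : ∃ P₀ : ℕ, P₁ + L + 5 ≤ P₀ := ⟨_, le_rfl⟩
  have hP₀ : ∀ p : ℕ, p.Prime → P₀ < p → ∀ V : ValuationSubring ℂ, (p : ℂ) ∈ V.nonunits →
      ∀ (α : {α // α ∈ D}) (t : ℂ), V.valuation (t - ((α : ℚ) : ℂ)) = V.valuation (p : ℂ) →
        ∀ j, ∀ β ∈ (F j).support, V.valuation (Polynomial.aeval t ((F j).coeff β)) =
            V.valuation (p : ℂ) ^ orders F D α j β := fun p hp h => hP₁ p hp (by omega)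
  replace hden : ∀ α ∈ D, α.den ≤ P₀ := fun α hα => (hden α hα).trans (by omega)
  obtain ⟨C, hC, hcount⟩ := count P₀
  let Y : ℚ → ℕ := fun α => α.den + α.num.natAbs
  refine ⟨∑ α ∈ D, (1 + 2 * (C * Real.sqrt (Y α))), fun B hB v hv hvB => ?_⟩
  -- the exceptional set
  let w : ℚ → ℤ → ℤ := fun α u => u * α.den - α.num * v
  have hwinj : ∀ α, Function.Injective (w α) := by
    intro α u u' h
    have h1 : u * (α.den : ℤ) = u' * α.den := by
      have : u * (α.den : ℤ) - α.num * v = u' * α.den - α.num * v := h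
      linarith
    exact mul_right_cancel₀ (by exact_mod_cast α.den_pos.ne') h1
  let A : ℚ → Finset ℕ := fun α => (Finset.Icc 1 (B * Y α)).filter fun u =>
    ∀ p ∈ Finset.range (B * Y α + 1), p.Prime → P₀ < p → p ∣ u → p ^ 2 ∣ u
  let Bad : ℚ → Finset ℤ := fun α => insert 0 ((A α).image (fun n : ℕ => (n : ℤ)) ∪
    (A α).image (fun n : ℕ => -(n : ℤ)))
  have hsub : {u : ℤ | |u| ≤ B ∧ IsCoprime u (v : ℤ) ∧
      ¬ NoAtypical ℚ 𝒞 {n | ∀ p : ℕ, p.Prime → p ∣ n → p ≤ L} m
        (Member (ty := ty) F ((u : ℂ) / v))} ⊆ ⋃ α ∈ D, w α ⁻¹' (Bad α : Set ℤ) := by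
    rintro u ⟨huB, huv, hbad⟩
    by_contra hcon
    simp only [Set.mem_iUnion, not_exists] at hcon
    apply hbad
    have hprime : ∀ α : {α // α ∈ D}, ∃ p : ℕ, p.Prime ∧ P₀ < p ∧ (p : ℤ) ∣ w α u ∧
        ¬ (p : ℤ) ^ 2 ∣ w α u := by
      intro α
      by_contra hno
      push Not at hno
      apply hcon α α.2
      by_cases h0 : w α u = 0
      · change w α u ∈ (Bad α : Set ℤ)
        rw [h0]
        exact Finset.mem_coe.2 (Finset.mem_insert_self _ _)
      have hle : (w α u).natAbs ≤ B * Y α := by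
        have h1 : |w α u| ≤ (B * Y α : ℕ) := by
          calc |w α u| ≤ |u * ((α : ℚ).den : ℤ)| + |(α : ℚ).num * v| := abs_sub _ _
            _ = |u| * (α : ℚ).den + |(α : ℚ).num| * v := by
                rw [abs_mul, abs_mul, Nat.abs_cast, Nat.abs_cast]
            _ ≤ B * (α : ℚ).den + |(α : ℚ).num| * B := by
                have h2 : (v : ℤ) ≤ B := by exact_mod_cast hvB
                gcongr
            _ = (B * Y α : ℕ) := by
                simp only [Y]
                push_cast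
                ring
        have h2 : ((w α u).natAbs : ℤ) ≤ (B * Y α : ℕ) := by rwa [Int.natCast_natAbs]
        exact_mod_cast h2
      have hmem : (w α u).natAbs ∈ A α := by
        refine Finset.mem_filter.2 ⟨Finset.mem_Icc.2 ⟨Int.natAbs_pos.2 h0, hle⟩,
          fun p _ hp hP hpd => ?_⟩
        have h3 := hno p hp hP (Int.natCast_dvd.2 hpd)
        have h4 : ((p ^ 2 : ℕ) : ℤ) ∣ w α u := by
          push_cast
          exact h3
        exact Int.natCast_dvd.1 h4
      change w α u ∈ (Bad α : Set ℤ)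
      refine Finset.mem_coe.2 (Finset.mem_insert_of_mem (Finset.mem_union.2 ?_))
      rcases le_total 0 (w α u) with h5 | h5
      · exact Or.inl (Finset.mem_image.2 ⟨_, hmem, Int.natAbs_of_nonneg h5⟩)
      · refine Or.inr (Finset.mem_image.2 ⟨_, hmem, ?_⟩)
        rw [Int.ofNat_natAbs_of_nonpos h5, neg_neg]
    choose p hp hpP hp1 hp2 using hprime
    refine NoAtypical.mono (𝒟 := {n | ∀ α, ¬ p α ∣ n}) ?_ (core 𝒞 m (fun j => (F j).support)
      (fun j β => Polynomial.aeval ((u : ℂ) / v) ((F j).coeff β)) (orders F D) hgen p hp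
      (fun α => by have := hpP α; omega) fun α j β hβ V hV => ?_)
    · intro n hn α hα
      have h1 := hn (p α) (hp α) hα
      have h2 := hpP α
      omega
    exact hP₀ (p α) (hp α) (hpP α) V hV α _ (val_near (hp α) hV hv huv α
      (lt_of_le_of_lt (hden α α.2) (hpP α)) (hp1 α) (hp2 α)) j β hβ
  have hfin : (⋃ α ∈ D, w α ⁻¹' (Bad α : Set ℤ)).Finite :=
    D.finite_toSet.biUnion fun α _ => (Bad α).finite_toSet.preimage (hwinj α).injOn
  have hBad : ∀ α, ((w α ⁻¹' (Bad α : Set ℤ)).ncard : ℝ) ≤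
      (1 + 2 * (C * Real.sqrt (Y α))) * Real.sqrt B := by
    intro α
    have h1 : (w α ⁻¹' (Bad α : Set ℤ)).ncard ≤ (Bad α).card := by
      have h3 : (w α ⁻¹' (Bad α : Set ℤ)).ncard = ((w α) '' (w α ⁻¹' (Bad α : Set ℤ))).ncard :=
        (Set.ncard_image_of_injective _ (hwinj α)).symm
      rw [h3, ← Set.ncard_coe_finset]
      exact Set.ncard_le_ncard (Set.image_preimage_subset _ _) (Bad α).finite_toSet
    have h2 : (Bad α).card ≤ 1 + 2 * (A α).card := by
      calc (Bad α).card ≤ _ + 1 := Finset.card_insert_le _ _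
        _ ≤ ((A α).image (fun n : ℕ => (n : ℤ))).card +
            ((A α).image (fun n : ℕ => -(n : ℤ))).card + 1 := by
              gcongr
              exact Finset.card_union_le _ _
        _ ≤ (A α).card + (A α).card + 1 := by
              gcongr <;> exact Finset.card_image_le
        _ = 1 + 2 * (A α).card := by ring
    have h3 := hcount (B * Y α)
    have h4 : (1 : ℝ) ≤ Real.sqrt B := by
      rw [Real.one_le_sqrt]
      exact_mod_cast hB
    calc ((w α ⁻¹' (Bad α : Set ℤ)).ncard : ℝ) ≤ ((1 + 2 * (A α).card : ℕ) : ℝ) := by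
          exact_mod_cast h1.trans h2
      _ = 1 + 2 * ((A α).card : ℝ) := by push_cast; rfl
      _ ≤ 1 + 2 * (C * Real.sqrt ((B * Y α : ℕ) : ℝ)) := by gcongr
      _ = 1 + 2 * (C * (Real.sqrt B * Real.sqrt (Y α))) := by
          rw [Nat.cast_mul, Real.sqrt_mul (Nat.cast_nonneg _)]
      _ ≤ Real.sqrt B + 2 * (C * (Real.sqrt B * Real.sqrt (Y α))) := by gcongr
      _ = (1 + 2 * (C * Real.sqrt (Y α))) * Real.sqrt B := by ring
  calc _ ≤ ((⋃ α ∈ D, w α ⁻¹' (Bad α : Set ℤ)).ncard : ℝ) := by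
        exact_mod_cast Set.ncard_le_ncard hsub hfin
    _ ≤ ∑ α ∈ D, ((w α ⁻¹' (Bad α : Set ℤ)).ncard : ℝ) := by
        exact_mod_cast Finset.set_ncard_biUnion_le D _
    _ ≤ ∑ α ∈ D, (1 + 2 * (C * Real.sqrt (Y α))) * Real.sqrt B :=
        Finset.sum_le_sum fun α _ => hBad α
    _ = (∑ α ∈ D, (1 + 2 * (C * Real.sqrt (Y α)))) * Real.sqrt B := by rw [Finset.sum_mul]

end Pool.Agent.T9h40.Prod
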