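import Pool.Agent.T9h40.Prod.Law

/-!
Valuation subrings of the complex numbers: numbers which avoid finitely many residue classes, and the
values of polynomials at general integers (helper file).
-/

set_option autoImplicit false

namespace Pool.Agent.T9h40.Prod

open Polynomial

theorem infinite_res (V : ValuationSubring ℂ) : Infinite (IsLocalRing.ResidueField V) := by
  classical
  by_contra hcon
  rw [not_infinite_iff_finite] at hcon
  have := Fintype.ofFinite (IsLocalRing.ResidueField V)
  set N := Fintype.card (IsLocalRing.ResidueField V) with hN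
  have hN1 : 1 < N := Fintype.one_lt_card
  obtain ⟨z, hz⟩ := IsAlgClosed.exists_root (X ^ N - X - 1 : ℂ[X]) (by
    have h1 : (X ^ N - X - 1 : ℂ[X]).degree = N := by
      have h2 : (X ^ N - X - 1 : ℂ[X]) = X ^ N - (X + C 1) := by
        rw [C_1]
        ring
      rw [h2, degree_sub_eq_left_of_degree_lt]
      · rw [degree_X_pow]
      · rw [degree_X_pow]
        refine (degree_add_C (by rw [degree_X]; exact zero_lt_one)).trans_lt ?_
        rw [degree_X]
        exact_mod_cast hN1
    rw [h1]
    exact_mod_cast (by omega : N ≠ 0))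
  have hz' : z ^ N - z - 1 = 0 := by simpa [IsRoot] using hz
  have hzV : z ∈ V := by
    rw [← ValuationSubring.valuation_le_one_iff]
    by_contra hlt
    push Not at hlt
    have h1 : V.valuation z < V.valuation (z ^ N) := by
      rw [map_pow]
      calc V.valuation z = V.valuation z ^ 1 := (pow_one _).symm
        _ < V.valuation z ^ N := pow_lt_pow_right₀ hlt hN1
    have h2 : V.valuation (z + 1) ≤ V.valuation z := by
      refine (V.valuation.map_add _ _).trans (max_le le_rfl ?_)
      rw [map_one]
      exact hlt.le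
    have h3 : z ^ N = z + 1 := by linear_combination hz'
    rw [h3] at h1
    exact absurd h1 (not_lt.2 h2)
  have h4 : ((⟨z, hzV⟩ : V) ^ N - ⟨z, hzV⟩ - 1 : V) = 0 := by
    apply Subtype.ext
    simpa using hz'
  have h5 := congrArg (IsLocalRing.residue V) h4
  rw [map_sub, map_sub, map_pow, map_one, map_zero, FiniteField.pow_card, sub_self, zero_sub] at h5
  exact one_ne_zero (neg_eq_zero.1 h5)

/-- A polynomial over the valuation ring with a coefficient which is a unit. -/
def UnitCoef (V : ValuationSubring ℂ) (F : ℂ[X]) : Prop :=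
  (∀ i, F.coeff i ∈ V) ∧ ∃ i, V.valuation (F.coeff i) = 1

theorem res_ne_zero_iff {V : ValuationSubring ℂ} (x : V) :
    IsLocalRing.residue V x ≠ 0 ↔ V.valuation (x : ℂ) = 1 := by
  rw [IsLocalRing.residue_ne_zero_iff_isUnit, ← ValuationSubring.valuation_eq_one_iff]

theorem avoid (V : ValuationSubring ℂ) {ι : Type} (S : Finset ι) (F : ι → ℂ[X])
    (hF : ∀ i ∈ S, UnitCoef V (F i)) :
    ∃ t : ℂ, t ∈ V ∧ ∀ i ∈ S, V.valuation ((F i).eval t) = 1 := by
  classical
  have := infinite_res V
  have hlift : ∀ i, ∃ f : V[X], i ∈ S → f.map (algebraMap V ℂ) = F i := by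
    intro i
    by_cases hi : i ∈ S
    · have h1 : F i ∈ Polynomial.lifts (algebraMap V ℂ) := by
        rw [Polynomial.lifts_iff_coeff_lifts]
        intro n
        exact ⟨⟨_, (hF i hi).1 n⟩, rfl⟩
      obtain ⟨f, hf⟩ := (Polynomial.mem_lifts _).1 h1
      exact ⟨f, fun _ => hf⟩
    · exact ⟨0, fun h => absurd h hi⟩
  choose f hf using hlift
  have hne : ∀ i ∈ S, (f i).map (IsLocalRing.residue V) ≠ 0 := by
    intro i hi h0
    obtain ⟨n, hn⟩ := (hF i hi).2
    have h1 : IsLocalRing.residue V ((f i).coeff n) = 0 := by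
      rw [← Polynomial.coeff_map, h0, Polynomial.coeff_zero]
    have h2 : ((f i).coeff n : ℂ) = (F i).coeff n := by
      rw [← hf i hi, Polynomial.coeff_map]
      rfl
    exact (res_ne_zero_iff _).2 (h2 ▸ hn) h1
  have hprod : ∏ i ∈ S, (f i).map (IsLocalRing.residue V) ≠ 0 := Finset.prod_ne_zero_iff.2 hne
  obtain ⟨s, hs⟩ : ∃ s, (∏ i ∈ S, (f i).map (IsLocalRing.residue V)).eval s ≠ 0 := by
    by_contra hcon
    push Not at hcon
    exact hprod (Polynomial.funext fun s => by rw [hcon s, Polynomial.eval_zero])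
  obtain ⟨t, rfl⟩ := IsLocalRing.residue_surjective s
  refine ⟨t, t.2, fun i hi => ?_⟩
  rw [Polynomial.eval_prod] at hs
  have h1 := Finset.prod_ne_zero_iff.1 hs i hi
  rw [Polynomial.eval_map, Polynomial.eval₂_at_apply] at h1
  have h2 := (res_ne_zero_iff _).1 h1
  have h3 : (((f i).eval t : V) : ℂ) = (F i).eval (t : ℂ) := by
    rw [← hf i hi]
    rw [Polynomial.eval_map]
    exact (Polynomial.eval₂_at_apply (algebraMap V ℂ) t).symm
  rwa [h3] at h2

/-- The value of a polynomial at a general integer. -/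
theorem gauss (V : ValuationSubring ℂ) (f : ℂ[X]) (hf : f ≠ 0) :
    ∃ c : ℂ, c ≠ 0 ∧ ∃ B : Finset ℂ, (∀ β ∈ B, β ∈ V) ∧ ∀ x ∈ V,
      (∀ β ∈ B, V.valuation (x - β) = 1) → V.valuation (f.eval x) = V.valuation c := by
  classical
  have hsplit : f = C f.leadingCoeff * (f.roots.map fun a => X - C a).prod :=
    (IsAlgClosed.splits f).eq_prod_roots
  have key : ∀ s : Multiset ℂ, ∃ c : ℂ, c ≠ 0 ∧ ∃ B : Finset ℂ, (∀ β ∈ B, β ∈ V) ∧ ∀ x ∈ V,
      (∀ β ∈ B, V.valuation (x - β) = 1) →
        V.valuation ((s.map fun a => X - C a).prod.eval x) = V.valuation c := by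
    intro s
    induction s using Multiset.induction_on with
    | empty => exact ⟨1, one_ne_zero, ∅, fun _ h => absurd h (Finset.notMem_empty _), fun x _ _ => by simp⟩
    | cons a s ih =>
      obtain ⟨c, hc, B, hB, h⟩ := ih
      by_cases ha : a ∈ V
      · refine ⟨c, hc, insert a B, fun β hβ => ?_, fun x hx hxB => ?_⟩
        · rcases Finset.mem_insert.1 hβ with rfl | h1
          · exact ha
          · exact hB β h1
        · rw [Multiset.map_cons, Multiset.prod_cons, eval_mul, map_mul,
            h x hx fun β hβ => hxB β (Finset.mem_insert_of_mem hβ), eval_sub, eval_X, eval_C,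
            hxB a (Finset.mem_insert_self _ _), one_mul]
      · have ha1 : 1 < V.valuation a := by
          rw [← not_le, ValuationSubring.valuation_le_one_iff]
          exact ha
        have ha0 : a ≠ 0 := fun h0 => ha (h0 ▸ V.zero_mem)
        refine ⟨a * c, mul_ne_zero ha0 hc, B, hB, fun x hx hxB => ?_⟩
        rw [Multiset.map_cons, Multiset.prod_cons, eval_mul, map_mul, h x hx hxB, map_mul,
          eval_sub, eval_X, eval_C]
        congr 1
        have hx1 : V.valuation x < V.valuation a :=
          lt_of_le_of_lt ((ValuationSubring.valuation_le_one_iff _ _).2 hx) ha1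
        rw [Valuation.map_sub_swap]
        exact V.valuation.map_sub_eq_of_lt_left hx1
  obtain ⟨c, hc, B, hB, h⟩ := key f.roots
  refine ⟨f.leadingCoeff * c, mul_ne_zero (leadingCoeff_ne_zero.2 hf) hc, B, hB,
    fun x hx hxB => ?_⟩
  have h1 : f.eval x = f.leadingCoeff * ((f.roots.map fun a => X - C a).prod.eval x) := by
    conv_lhs => rw [hsplit]
    rw [eval_mul, eval_C]
  rw [h1, map_mul, h x hx hxB, map_mul]

end Pool.Agent.T9h40.Prod
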