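import Pool.Agent.T9h40.Prod.Mul4

/-!
The multiplier of an isogeny between curves with semistable reduction is integral, second part (helper
file for Pink's conjecture for products of different elliptic schemes).
-/

set_option autoImplicit false

namespace Pool.Agent.T9h40.Prod

open Polynomial

variable {V : ValuationSubring ℂ}

variable {G G' : Type} [AddCommGroup G] [AddCommGroup G'] {ξ : G → ℂ} {η : G' → ℂ}
  {a b a' b' : ℂ} {ψ : G →+ G'} {f g : ℂ[X]}

/-- A point near the origin and a point with integral abscissa. -/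
theorem near_add (h2 : V.valuation (2 : ℂ) = 1) (ha : a ∈ V) (hb : b ∈ V) (hG : Law2 ξ a b)
    {P Q : G} (hP : P ≠ 0) (hQ : Q ≠ 0) (hPx : 1 < V.valuation (ξ P)) (hQx : ξ Q ∈ V) :
    P + Q ≠ 0 ∧ V.valuation (ξ (P + Q) - ξ Q) < 1 := by
  have h3V : (3 : ℂ) ∈ V := by exact_mod_cast nat_mem 3
  have h4V : (4 : ℂ) ∈ V := by exact_mod_cast nat_mem 4
  have hne : ξ P ≠ ξ Q := by
    intro h
    rw [h] at hPx
    exact absurd (val_le hQx) (not_le.2 hPx)
  set e := ξ Q with he
  have hL := hG.law.shift e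
  have hs := hL.sum P Q hP hQ (fun h => hne (sub_left_inj.1 h))
  have hp := hL.prod P Q hP hQ (fun h => hne (sub_left_inj.1 h))
  beta_reduce at hs hp
  rw [← he, sub_self, add_zero, mul_zero, zero_add, mul_zero, add_zero, sub_zero] at hs
  rw [← he, sub_self, add_zero, mul_zero, zero_sub, sub_zero, neg_sq] at hp
  refine ⟨(hG.law.add_ne P Q hP hQ hne).1, ?_⟩
  set y := ξ P - e with hy
  have hρ : V.valuation y = V.valuation (ξ P) :=
    V.valuation.map_sub_eq_of_lt_left ((val_le hQx).trans_lt hPx)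
  set ρ := V.valuation y with hρ'
  have hρ1 : 1 < ρ := by rw [hρ]; exact hPx
  have hρ0 : 0 < ρ := zero_lt_one.trans hρ1
  have mA : 3 * e ∈ V := mul_mem h3V hQx
  have mB : 3 * e ^ 2 + a ∈ V := add_mem (mul_mem h3V (pow_mem hQx 2)) ha
  have mC : e ^ 3 + a * e + b ∈ V := add_mem (add_mem (pow_mem hQx 3) (mul_mem ha hQx)) hb
  have hρρ : ρ < ρ ^ 2 := by
    calc ρ = ρ ^ 1 := (pow_one _).symm
      _ < ρ ^ 2 := pow_lt_pow_right₀ hρ1 (by norm_num)
  have hcan : ∀ z : ℂ, V.valuation (z * y ^ 2) ≤ ρ → V.valuation z < 1 := by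
    intro z hz
    by_contra hcon
    push Not at hcon
    rw [map_mul, map_pow, ← hρ'] at hz
    have h5 : ρ ^ 2 ≤ V.valuation z * ρ ^ 2 := le_mul_of_one_le_left' hcon
    exact absurd (h5.trans hz) (not_le.2 hρρ)
  refine root_lt (t := ξ (P - Q) - e) (hcan _ ?_) (hcan _ ?_)
  · rw [hs, map_mul, h2, one_mul]
    refine add_le' ?_ ?_
    · rw [map_mul]
      exact mul_le_of_le_one_right' (val_le mB)
    · rw [map_mul, h2, one_mul]
      exact (val_le mC).trans hρ1.le
  · rw [hp]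
    refine sub_le' ((val_le (pow_mem mB 2)).trans hρ1.le) ?_
    rw [map_mul]
    have h5 : V.valuation (4 * (e ^ 3 + a * e + b)) ≤ 1 := val_le (mul_mem h4V mC)
    have h6 : V.valuation (y + 3 * e) ≤ ρ := add_le' le_rfl ((val_le mA).trans hρ1.le)
    calc _ ≤ 1 * ρ := mul_le_mul' h5 h6
      _ = ρ := one_mul _

theorem Gen.near {D : Finset ℂ} (hD : ∀ β ∈ D, β ∈ V) {x y : ℂ} (hx : Gen V D x)
    (h : V.valuation (y - x) < 1) : Gen V D y := by
  have hy : y ∈ V := by
    have e : y = x + (y - x) := by ring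
    rw [e]
    exact add_mem hx.1 (val_mem h.le)
  refine ⟨hy, fun β hβ => ?_⟩
  have e : y - β = (x - β) + (y - x) := by ring
  rw [e, V.valuation.map_add_eq_of_lt_left (by rw [hx.2 β hβ]; exact h), hx.2 β hβ]

/-- The double of a general point is general. -/
theorem exists_double (h2 : V.valuation (2 : ℂ) = 1) (ha : a ∈ V) (hb : b ∈ V) (hG : Law2 ξ a b)
    {D : Finset ℂ} (hD : ∀ β ∈ D, β ∈ V) : ∃ Q, Q ≠ 0 ∧ Gen V D (ξ Q) ∧ Q + Q ≠ 0 ∧
      Gen V D (ξ (Q + Q)) := by
  classical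
  have h2V : (2 : ℂ) ∈ V := val_mem h2.le
  have h4V : (4 : ℂ) ∈ V := by exact_mod_cast nat_mem 4
  have h8V : (8 : ℂ) ∈ V := by exact_mod_cast nat_mem 8
  let H : ℂ → ℂ[X] := fun t => X ^ 4 + C (-4 * t) * X ^ 3 + C (-2 * a) * X ^ 2 +
    C (-(8 * b + 4 * t * a)) * X + C (a ^ 2 - 4 * t * b)
  have hH : ∀ t ∈ V, UnitCoef V (H t) := fun t hTV => unitCoef_of_monic
    (quartic_coeff (mul_mem (neg_mem h4V) hTV)
    (mul_mem (neg_mem h2V) ha) (neg_mem (add_mem (mul_mem h8V hb) (mul_mem (mul_mem h4V hTV) ha)))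
    (sub_mem (pow_mem ha 2) (mul_mem (mul_mem h4V hTV) hb))) (quartic _ _ _ _).1
  obtain ⟨x, hx, hF⟩ := choose_gen (V := V) hD
    (insert (X ^ 3 + C a * X + C b) (D.image H))
    (by
      intro F hF
      rcases Finset.mem_insert.1 hF with rfl | hF
      · exact unitCoef_of_monic (cubic_coeff ha hb) (cubic_monic a b).1
      · obtain ⟨β, hβ, rfl⟩ := Finset.mem_image.1 hF
        exact hH β (hD β hβ))
  obtain ⟨Q, hQ, rfl⟩ := hG.surj x
  have h5 : V.valuation (ξ Q ^ 3 + a * ξ Q + b) = 1 := by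
    have h1 := hF _ (Finset.mem_insert_self _ _)
    simpa using h1
  have hQQ : Q + Q ≠ 0 := by
    intro h0
    rw [(hG.two Q hQ).1 h0, map_zero] at h5
    exact zero_ne_one h5
  have h6 := hG.dbl Q hQ hQQ
  have h7 : V.valuation (4 * (ξ Q ^ 3 + a * ξ Q + b)) = 1 := by
    rw [map_mul, unit_of_two h2, h5, one_mul]
  have hV : ξ (Q + Q) ∈ V := by
    have h8 := congrArg V.valuation h6
    rw [map_mul, h7, mul_one] at h8
    refine val_mem ?_
    rw [h8]
    exact val_le (sub_mem (pow_mem (sub_mem (pow_mem hx.1 2) ha) 2)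
      (mul_mem (mul_mem h8V hb) hx.1))
  refine ⟨Q, hQ, hx, hQQ, hV, fun β hβ => ?_⟩
  have h8 : (ξ (Q + Q) - β) * (4 * (ξ Q ^ 3 + a * ξ Q + b)) = (H β).eval (ξ Q) := by
    simp only [H, eval_add, eval_mul, eval_C, eval_pow, eval_X]
    linear_combination h6
  have h9 := congrArg V.valuation h8
  rwa [map_mul, h7, mul_one, hF _ (Finset.mem_insert_of_mem (Finset.mem_image_of_mem _ hβ))] at h9

theorem prod_unit (s : Multiset ℂ) (x : ℂ) (h : ∀ e ∈ s, V.valuation (x - e) = 1) :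
    V.valuation ((s.map fun a => X - C a).prod.eval x) = 1 := by
  induction s using Multiset.induction_on with
  | empty => simp
  | cons r s ih =>
    rw [Multiset.map_cons, Multiset.prod_cons, eval_mul, map_mul,
      ih fun e he => h e (Multiset.mem_cons_of_mem he), eval_sub, eval_X, eval_C,
      h r (Multiset.mem_cons_self _ _), one_mul]

/-- General points and a number in `V` which is not near a singular point, or is a root. -/
theorem alpha (h2 : V.valuation (2 : ℂ) = 1) (h3 : V.valuation (3 : ℂ) = 1) (ha : a ∈ V)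
    (hb : b ∈ V) (hG : Law2 ξ a b) (ha' : a' ∈ V) (hab' : V.valuation a' = 1 ∨ V.valuation b' = 1)
    (hG' : Law2 η a' b') {e : ℂ} (he : e ∈ V)
    (hns : ¬ Sing V a' b' e ∨ e ^ 3 + a' * e + b' = 0)
    {D : Finset ℂ} (hD : ∀ β ∈ D, β ∈ V) {r : V.ValueGroup} (hr0 : 0 < r)
    (hr : ∀ P, P ≠ 0 → Gen V D (ξ P) → ψ P ≠ 0 ∧ V.valuation (η (ψ P) - e) = r) : 1 ≤ r := by
  by_cases hs : Sing V a' b' e
  · have he0 := hns.resolve_left (not_not.2 hs)
    refine alpha_node h2 ha hb hG hG' he0 ?_ hD hr0 hr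
    have h3V : (3 : ℂ) ∈ V := val_mem h3.le
    by_contra hcon
    have h5 : V.valuation (3 * e) < 1 := lt_of_le_of_ne (val_le (mul_mem h3V he)) hcon
    have ha1 : V.valuation a' < 1 := by
      have e1 : a' = (3 * e ^ 2 + a') - 3 * e * e := by ring
      rw [e1]
      exact sub_lt' hs.2 (mul_lt_left h5 he)
    have he1 : V.valuation e < 1 := by rwa [map_mul, h3, one_mul] at h5
    have hb1 : V.valuation b' < 1 := by
      have e1 : b' = (e ^ 3 + a' * e + b') - e * (e ^ 2) - a' * e := by ring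
      rw [e1]
      exact sub_lt' (sub_lt' hs.1 (mul_lt_left he1 (pow_mem he 2))) (mul_lt_left ha1 he)
    rcases hab' with h8 | h8
    · rw [h8] at ha1
      exact lt_irrefl _ ha1
    · rw [h8] at hb1
      exact lt_irrefl _ hb1
  · exact alpha_ns h2 ha hb hG ha' hG' he hs hD hr

/-- The points near the origin are mapped to points near the origin. -/
theorem beta (h2 : V.valuation (2 : ℂ) = 1) (h3 : V.valuation (3 : ℂ) = 1) (ha : a ∈ V)
    (hb : b ∈ V) (hab : V.valuation a = 1 ∨ V.valuation b = 1) (hG : Law2 ξ a b) (ha' : a' ∈ V)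
    (hb' : b' ∈ V) (hab' : V.valuation a' = 1 ∨ V.valuation b' = 1) (hG' : Law2 η a' b')
    (h : IsHom ξ η ψ f g) {P : G} (hP : P ≠ 0) (hPx : 1 < V.valuation (ξ P)) (hψP : ψ P ≠ 0) :
    1 < V.valuation (η (ψ P)) := by
  classical
  by_contra hcon
  push Not at hcon
  have h2V : (2 : ℂ) ∈ V := val_mem h2.le
  obtain ⟨cg, Bg, hg⟩ := exists_gauss V g h.ne
  have hvg : 0 < V.valuation cg := zero_lt_iff.2 ((Valuation.ne_zero_iff _).2 hg.ne)
  have hex : ∀ e : ℂ, ∃ (c : ℂ) (B : Finset ℂ), Gauss V (f - C e * g) c B := fun e =>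
    exists_gauss V _ (h.sub_ne e)
  choose c B hc using hex
  have hpos : ∀ e, 0 < V.valuation (c e / cg) := fun e => zero_lt_iff.2
    ((Valuation.ne_zero_iff _).2 (div_ne_zero (hc e).ne hg.ne))
  set Z : Finset ℂ := insert 0 (X ^ 3 + C a' * X + C b' : ℂ[X]).roots.toFinset with hZ
  set D : Finset ℂ := Bg ∪ Z.biUnion B with hD
  have hDV : ∀ β ∈ D, β ∈ V := by
    intro β hβ
    rcases Finset.mem_union.1 hβ with h1 | h1
    · exact hg.mem β h1
    · obtain ⟨e, -, h3⟩ := Finset.mem_biUnion.1 h1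
      exact (hc e).mem β h3
  have hDg : Bg ⊆ D := Finset.subset_union_left
  have hDe : ∀ e ∈ Z, B e ⊆ D := fun e he =>
    (Finset.subset_biUnion_of_mem B he).trans Finset.subset_union_right
  have hval : ∀ e ∈ Z, ∀ P, P ≠ 0 → Gen V D (ξ P) →
      ψ P ≠ 0 ∧ V.valuation (η (ψ P) - e) = V.valuation (c e / cg) := fun e he P hP hx =>
    h.gen hg (hc e) hP (hx.mono hDg) (hx.mono (hDe e he))
  have h0Z : (0 : ℂ) ∈ Z := Finset.mem_insert_self _ _
  have hle : V.valuation (c 0 / cg) ≤ 1 := by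
    refine not_hat h2 h3 ha hb hab hG ha' hb' hG' h hDV fun P hP hx => ?_
    have h5 := hval 0 h0Z P hP hx
    rwa [sub_zero] at h5
  have hint : ∀ P, P ≠ 0 → Gen V D (ξ P) → ψ P ≠ 0 ∧ η (ψ P) ∈ V := by
    intro P hP hx
    have h5 := hval 0 h0Z P hP hx
    rw [sub_zero] at h5
    exact ⟨h5.1, val_mem (by rw [h5.2]; exact hle)⟩
  have hroot : ∀ e ∈ (X ^ 3 + C a' * X + C b' : ℂ[X]).roots, e ∈ V ∧ e ^ 3 + a' * e + b' = 0 := by
    intro e he
    have h5 := isRoot_of_mem_roots he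
    refine ⟨root_mem (cubic_coeff ha' hb') (cubic_monic a' b').1 h5, ?_⟩
    simpa using h5
  obtain ⟨Q, hQ, hQg, hQQ, hQQg⟩ := exists_double h2 ha hb hG hDV
  obtain ⟨hn1, hn2⟩ := near_add h2 ha hb hG hP hQ hPx hQg.1
  obtain ⟨hn3, hn4⟩ := near_add h2 ha hb hG hP hQQ hPx hQQg.1
  have hg1 : Gen V D (ξ (P + Q)) := hQg.near hDV hn2
  have hg2 : Gen V D (ξ (P + (Q + Q))) := hQQg.near hDV hn4
  obtain ⟨hR, hRV⟩ := hint Q hQ hQg
  obtain ⟨hRS, hRSV⟩ := hint _ hn1 hg1
  obtain ⟨hW, hWV⟩ := hint _ hn3 hg2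
  -- `η(ψ(P + Q))` is near `η(ψ(Q))`
  have hclose : V.valuation (η (ψ (P + Q)) - η (ψ Q)) < 1 := by
    have k1 := hg.val _ (hQg.mono hDg)
    have k2 := hg.val _ (hg1.mono hDg)
    have k3 := hg.near _ _ (hg1.mono hDg) (hQg.mono hDg) hn2
    have k5 := (hc 0).val _ (hQg.mono (hDe 0 h0Z))
    have k6 := (hc 0).near _ _ (hg1.mono (hDe 0 h0Z)) (hQg.mono (hDe 0 h0Z)) hn2
    have hf0 : f - C 0 * g = f := by rw [C_0, zero_mul, sub_zero]
    rw [hf0] at k5 k6
    have hne1 : g.eval (ξ Q) ≠ 0 := by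
      intro h0
      rw [h0, map_zero] at k1
      exact hvg.ne k1
    have hne2 : g.eval (ξ (P + Q)) ≠ 0 := by
      intro h0
      rw [h0, map_zero] at k2
      exact hvg.ne k2
    have k7 := (h.act _ hQ hne1).2
    have k8 := (h.act _ hn1 hne2).2
    have hcle : V.valuation (c 0) ≤ V.valuation cg := by
      rwa [map_div₀, div_le_one₀ hvg] at hle
    have k9 : (η (ψ (P + Q)) - η (ψ Q)) * (g.eval (ξ (P + Q)) * g.eval (ξ Q)) =
        (f.eval (ξ (P + Q)) - f.eval (ξ Q)) * g.eval (ξ Q) -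
          f.eval (ξ Q) * (g.eval (ξ (P + Q)) - g.eval (ξ Q)) := by
      rw [← k7, ← k8]
      ring
    have k10 : V.valuation ((η (ψ (P + Q)) - η (ψ Q)) * (g.eval (ξ (P + Q)) * g.eval (ξ Q))) <
        V.valuation cg * V.valuation cg := by
      rw [k9]
      refine sub_lt' ?_ ?_
      · rw [map_mul, k1]
        exact mul_lt_mul_of_pos_right (k6.trans_le hcle) hvg
      · rw [map_mul, k5]
        calc V.valuation (c 0) * V.valuation (g.eval (ξ (P + Q)) - g.eval (ξ Q))
            ≤ V.valuation cg * V.valuation (g.eval (ξ (P + Q)) - g.eval (ξ Q)) :=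
              mul_le_mul_left hcle _
          _ < V.valuation cg * V.valuation cg := mul_lt_mul_of_pos_left k3 hvg
    rw [map_mul, map_mul, k1, k2] at k10
    by_contra hlt
    push Not at hlt
    exact absurd (le_mul_of_one_le_left' hlt) (not_le.2 k10)
  -- the sum formula for `R + S` and `R`
  have hSV : η (ψ P) ∈ V := val_mem hcon
  have hne : η (ψ (P + Q)) ≠ η (ψ Q) := by
    intro heq
    rcases hG'.law.inj _ _ hRS hR heq with h5 | h5
    · apply hψP
      rw [map_add] at h5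
      simpa using h5
    · apply hW
      rw [map_add, map_add]
      rw [map_add] at h5
      rw [← add_assoc, h5, neg_add_cancel]
  have hs := hG'.law.sum _ _ hRS hR hne
  have e1 : ψ (P + Q) + ψ Q = ψ (P + (Q + Q)) := by
    rw [map_add, map_add, map_add]
    abel
  have e2 : ψ (P + Q) - ψ Q = ψ P := by
    rw [map_add, add_sub_cancel_right]
  rw [e1, e2] at hs
  set y1 := η (ψ (P + Q))
  set y2 := η (ψ Q)
  have h5 : V.valuation (4 * (y2 ^ 3 + a' * y2 + b')) < 1 := by
    have e3 : 4 * (y2 ^ 3 + a' * y2 + b') = (y1 - y2) * ((y1 - y2) *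
        (η (ψ (P + (Q + Q))) + η (ψ P)) - 2 * (y1 * y2 + 2 * y2 ^ 2 + a')) := by
      linear_combination -hs
    rw [e3]
    refine mul_lt_left hclose (sub_mem (mul_mem (sub_mem hRSV hRV) (add_mem hWV hSV))
      (mul_mem h2V (add_mem (add_mem (mul_mem hRSV hRV) (mul_mem h2V (pow_mem hRV 2))) ha')))
  have h6 : V.valuation (y2 ^ 3 + a' * y2 + b') = 1 := by
    have h7 := (IsAlgClosed.splits (X ^ 3 + C a' * X + C b' : ℂ[X])).eq_prod_roots_of_monic
      (cubic_monic a' b').1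
    have h8 : y2 ^ 3 + a' * y2 + b' = (X ^ 3 + C a' * X + C b' : ℂ[X]).eval y2 := by simp
    rw [h8, h7]
    refine prod_unit _ _ fun e he => ?_
    have heZ : e ∈ Z := Finset.mem_insert_of_mem (Multiset.mem_toFinset.2 he)
    obtain ⟨heV, he0⟩ := hroot e he
    have h9 := alpha h2 h3 ha hb hG ha' hab' hG' heV (Or.inr he0) hDV (hpos e) (hval e heZ)
    refine le_antisymm (val_le (sub_mem hRV heV)) ?_
    rw [(hval e heZ Q hQ hQg).2]
    exact h9
  rw [map_mul, unit_of_two h2, h6, one_mul] at h5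
  exact lt_irrefl _ h5

/-- The multiplier is integral. -/
theorem mult_le (h2 : V.valuation (2 : ℂ) = 1) (h3 : V.valuation (3 : ℂ) = 1) (ha : a ∈ V)
    (hb : b ∈ V) (hab : V.valuation a = 1 ∨ V.valuation b = 1) (hG : Law2 ξ a b) (ha' : a' ∈ V)
    (hb' : b' ∈ V) (hab' : V.valuation a' = 1 ∨ V.valuation b' = 1) (hG' : Law2 η a' b')
    (h : IsHom ξ η ψ f g) : V.valuation g.leadingCoeff ≤ V.valuation f.leadingCoeff := by
  classical
  obtain ⟨cg, Bg, hg⟩ := exists_gauss V g h.ne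
  have hvg : 0 < V.valuation cg := zero_lt_iff.2 ((Valuation.ne_zero_iff _).2 hg.ne)
  obtain ⟨e, he, hF⟩ := choose_gen (V := V) (D := ∅) (fun _ h => absurd h (Finset.notMem_empty _))
    {X ^ 3 + C a' * X + C b'}
    (by
      intro F hF
      rw [Finset.mem_singleton.1 hF]
      exact unitCoef_of_monic (cubic_coeff ha' hb') (cubic_monic a' b').1)
  have he1 : V.valuation (e ^ 3 + a' * e + b') = 1 := by
    have h1 := hF _ (Finset.mem_singleton_self _)
    simpa using h1
  obtain ⟨c, B, hc⟩ := exists_gauss V _ (h.sub_ne e)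
  have hpos : 0 < V.valuation (c / cg) := zero_lt_iff.2
    ((Valuation.ne_zero_iff _).2 (div_ne_zero hc.ne hg.ne))
  have hDV : ∀ β ∈ Bg ∪ B, β ∈ V := by
    intro β hβ
    rcases Finset.mem_union.1 hβ with h1 | h1
    · exact hg.mem β h1
    · exact hc.mem β h1
  have h5 := alpha h2 h3 ha hb hG ha' hab' hG' he.1
    (Or.inl fun hs => absurd hs.1 (by rw [he1]; exact lt_irrefl _)) hDV hpos
    fun P hP hx => h.gen hg hc hP (hx.mono Finset.subset_union_left)
      (hx.mono Finset.subset_union_right)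
  rw [map_div₀, one_le_div₀ hvg] at h5
  have h6 : V.valuation c = V.valuation f.leadingCoeff := by
    rw [← (h.sub_natDegree e).2]
    refine hc.lead' fun x hx => ?_
    have hx' : f.eval x = e * g.eval x := by
      rw [eval_sub, eval_mul, eval_C, sub_eq_zero] at hx
      exact hx
    have hgx : g.eval x ≠ 0 := by
      intro h0
      obtain ⟨u, w, huw⟩ := h.cop
      have h1 := congrArg (Polynomial.eval x) huw
      rw [eval_add, eval_mul, eval_mul, hx', h0, mul_zero, mul_zero, mul_zero, add_zero,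
        eval_one] at h1
      exact zero_ne_one h1
    obtain ⟨P, hP, rfl⟩ := hG.surj x
    obtain ⟨h7, h8⟩ := h.act P hP hgx
    rw [hx'] at h8
    have h9 : η (ψ P) = e := mul_right_cancel₀ hgx h8
    by_contra hcon
    have h10 : 1 < V.valuation (ξ P) := by
      rw [← not_le, ValuationSubring.valuation_le_one_iff]
      exact hcon
    have h11 := beta h2 h3 ha hb hab hG ha' hb' hab' hG' h hP h10 h7
    rw [h9] at h11
    exact absurd (val_le he.1) (not_le.2 h11)
  exact hg.lead.trans (h5.trans h6.le)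

end Pool.Agent.T9h40.Prod
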