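import Pool.Agent.T9h40.Prod.Rel
import Pool.Agent.T9h40.Prod.Mul5

/-!
Isogenies of degree prime to the residue characteristic near the origin (helper file for Pink's
conjecture for products of different elliptic schemes).
-/

set_option autoImplicit false

namespace Pool.Agent.T9h40.Prod

open Polynomial
open Pool.Agent.R424.PT
open Pool.Agent.Results.MP_28d749_ag.RandomMultisections (curve xCoord)

variable {V : ValuationSubring ℂ} {p : ℕ}

/-- The rational number `μ` is the scale of the curve `y² = x³ + a x + b` at the place: for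
`ord z² = -μ` the curve `y² = x³ + z⁴ a x + z⁶ b` is integral and its reduction is not a cusp. -/
def Scale (V : ValuationSubring ℂ) (p : ℕ) (a b : ℂ) (μ : ℚ) : Prop :=
  ∃ z : ℂ, z ≠ 0 ∧ Ord V p (z ^ 2) (-μ) ∧ z ^ 4 * a ∈ V ∧ z ^ 6 * b ∈ V ∧
    (V.valuation (z ^ 4 * a) = 1 ∨ V.valuation (z ^ 6 * b) = 1)

theorem val_sq {z : ℂ} {r : ℚ} (hp0 : V.valuation (p : ℂ) ≠ 0) (hp1 : V.valuation (p : ℂ) < 1)
    (h : Ord V p z r) : V.valuation z ≤ 1 ↔ 0 ≤ r := by
  rw [← map_one V.valuation]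
  exact h.le_iff hp0 hp1 ord_one

theorem Ord.pow (hp0 : V.valuation (p : ℂ) ≠ 0) {z : ℂ} {r : ℚ} (h : Ord V p z r) (n : ℕ) :
    Ord V p (z ^ n) (n * r) := by
  induction n with
  | zero => simpa using ord_one
  | succ n ih =>
    rw [pow_succ]
    have e : ((n + 1 : ℕ) : ℚ) * r = n * r + r := by
      push_cast
      ring
    rw [e]
    exact ih.mul hp0 h

theorem val_eq_one (hp0 : V.valuation (p : ℂ) ≠ 0) (hp1 : V.valuation (p : ℂ) < 1) {z : ℂ}
    (h : Ord V p z 0) : V.valuation z = 1 := by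
  refine le_antisymm ((val_sq hp0 hp1 h).2 le_rfl) ?_
  rw [← map_one V.valuation]
  exact (ord_one.le_iff hp0 hp1 h).2 le_rfl

theorem scale_of (hp0 : V.valuation (p : ℂ) ≠ 0) (hp1 : V.valuation (p : ℂ) < 1)
    (hrat : RatVal V p) {a b : ℂ} {μ : ℚ} (ha : ∀ r, Ord V p a r → 2 * μ ≤ r)
    (hb : ∀ r, Ord V p b r → 3 * μ ≤ r) (hab : Ord V p a (2 * μ) ∨ Ord V p b (3 * μ)) :
    Scale V p a b μ := by
  -- a number `z` with `ord z = -μ / 2`
  have hz : ∃ z : ℂ, Ord V p (z ^ 2) (-μ) := by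
    rcases hab with h | h
    · obtain ⟨z, hz⟩ := IsAlgClosed.exists_pow_nat_eq a⁻¹ (n := 4) (by norm_num)
      have ha0 : a ≠ 0 := h.ne_zero hp0
      have hz0 : z ≠ 0 := by
        rintro rfl
        rw [zero_pow (by norm_num)] at hz
        exact inv_ne_zero ha0 hz.symm
      obtain ⟨r, hr⟩ := Ord.exists_of_ne hrat (pow_ne_zero 2 hz0)
      have h1 := hr.pow hp0 2
      rw [← pow_mul, hz] at h1
      have h2 := h1.unique hp0 hp1 h.inv
      push_cast at h2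
      have h3 : r = -μ := by linarith
      rw [h3] at hr
      exact ⟨z, hr⟩
    · obtain ⟨z, hz⟩ := IsAlgClosed.exists_pow_nat_eq b⁻¹ (n := 6) (by norm_num)
      have hb0 : b ≠ 0 := h.ne_zero hp0
      have hz0 : z ≠ 0 := by
        rintro rfl
        rw [zero_pow (by norm_num)] at hz
        exact inv_ne_zero hb0 hz.symm
      obtain ⟨r, hr⟩ := Ord.exists_of_ne hrat (pow_ne_zero 2 hz0)
      have h1 := hr.pow hp0 3
      rw [← pow_mul, hz] at h1
      have h2 := h1.unique hp0 hp1 h.inv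
      push_cast at h2
      have h3 : r = -μ := by linarith
      rw [h3] at hr
      exact ⟨z, hr⟩
  obtain ⟨z, hz⟩ := hz
  have h4 : Ord V p (z ^ 4) (-(2 * μ)) := by
    have h1 := hz.pow hp0 2
    rw [← pow_mul] at h1
    convert h1 using 1
    push_cast
    ring
  have h6 : Ord V p (z ^ 6) (-(3 * μ)) := by
    have h1 := hz.pow hp0 3
    rw [← pow_mul] at h1
    convert h1 using 1
    push_cast
    ring
  refine ⟨z, ?_, hz, ?_, ?_, ?_⟩
  · rintro rfl
    exact hz.ne_zero hp0 (zero_pow two_ne_zero)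
  · by_cases ha0 : a = 0
    · rw [ha0, mul_zero]
      exact V.zero_mem
    · obtain ⟨r, hr⟩ := Ord.exists_of_ne hrat ha0
      refine val_mem ((val_sq hp0 hp1 (h4.mul hp0 hr)).2 ?_)
      have := ha r hr
      linarith
  · by_cases hb0 : b = 0
    · rw [hb0, mul_zero]
      exact V.zero_mem
    · obtain ⟨r, hr⟩ := Ord.exists_of_ne hrat hb0
      refine val_mem ((val_sq hp0 hp1 (h6.mul hp0 hr)).2 ?_)
      have := hb r hr
      linarith
  · rcases hab with h | h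
    · left
      refine val_eq_one hp0 hp1 ?_
      have h1 := h4.mul hp0 h
      rwa [neg_add_cancel] at h1
    · right
      refine val_eq_one hp0 hp1 ?_
      have h1 := h6.mul hp0 h
      rwa [neg_add_cancel] at h1

theorem exists_scale' (hp0 : V.valuation (p : ℂ) ≠ 0) (hp1 : V.valuation (p : ℂ) < 1)
    (hrat : RatVal V p) {a b : ℂ} (h : 4 * a ^ 3 + 27 * b ^ 2 ≠ 0) :
    ∃ μ : ℚ, Scale V p a b μ ∧ (∀ r, Ord V p a r → 2 * μ ≤ r) ∧ ∀ r, Ord V p b r → 3 * μ ≤ r := by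
  suffices hex : ∃ μ : ℚ, (∀ r, Ord V p a r → 2 * μ ≤ r) ∧ (∀ r, Ord V p b r → 3 * μ ≤ r) ∧
      (Ord V p a (2 * μ) ∨ Ord V p b (3 * μ)) by
    obtain ⟨μ, h1, h2, h3⟩ := hex
    exact ⟨μ, scale_of hp0 hp1 hrat h1 h2 h3, h1, h2⟩
  by_cases ha0 : a = 0
  · have hb0 : b ≠ 0 := by
      rintro rfl
      apply h
      rw [ha0]
      ring
    obtain ⟨s, hs⟩ := Ord.exists_of_ne hrat hb0
    refine ⟨s / 3, fun r hr => absurd ha0 (hr.ne_zero hp0), fun r hr => ?_, Or.inr ?_⟩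
    · have := hr.unique hp0 hp1 hs
      linarith
    · have e : 3 * (s / 3) = s := by ring
      rwa [e]
  obtain ⟨r₀, hr₀⟩ := Ord.exists_of_ne hrat ha0
  by_cases hb0 : b = 0
  · refine ⟨r₀ / 2, fun r hr => ?_, fun r hr => absurd hb0 (hr.ne_zero hp0), Or.inl ?_⟩
    · have := hr.unique hp0 hp1 hr₀
      linarith
    · have e : 2 * (r₀ / 2) = r₀ := by ring
      rwa [e]
  obtain ⟨s₀, hs₀⟩ := Ord.exists_of_ne hrat hb0
  rcases le_total (r₀ / 2) (s₀ / 3) with hle | hle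
  · refine ⟨r₀ / 2, fun r hr => ?_, fun r hr => ?_, Or.inl ?_⟩
    · have := hr.unique hp0 hp1 hr₀
      linarith
    · have := hr.unique hp0 hp1 hs₀
      linarith
    · have e : 2 * (r₀ / 2) = r₀ := by ring
      rwa [e]
  · refine ⟨s₀ / 3, fun r hr => ?_, fun r hr => ?_, Or.inr ?_⟩
    · have := hr.unique hp0 hp1 hr₀
      linarith
    · have := hr.unique hp0 hp1 hs₀
      linarith
    · have e : 3 * (s₀ / 3) = s₀ := by ring
      rwa [e]

theorem exists_isHom {a b a' b' c : ℂ} {ψ : (curve a b).Point →+ (curve a' b').Point}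
    (h : HasMultiplier c ψ) {z z' : ℂ} (hz : z ≠ 0) (hz' : z' ≠ 0) : ∃ f g : ℂ[X],
      IsHom (fun P : (curve a b).Point => z ^ 2 * xCoord P)
        (fun P : (curve a' b').Point => z' ^ 2 * xCoord P) ψ f g ∧
      g.leadingCoeff * z' ^ 2 = c ^ 2 * z ^ 2 * f.leadingCoeff := by
  obtain ⟨-, u, w, hw0, hcop, hdeg, hlc, hact⟩ := h
  have hz2 : z ^ 2 ≠ 0 := pow_ne_zero 2 hz
  let L : ℂ[X] := C (z ^ 2)⁻¹ * X
  have hLdeg : L.natDegree = 1 := natDegree_C_mul_X _ (inv_ne_zero hz2)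
  have hLlc : L.leadingCoeff = (z ^ 2)⁻¹ := by
    simp [L]
  have hwL : (w.comp L).natDegree = w.natDegree := by rw [natDegree_comp, hLdeg, mul_one]
  have huL : (u.comp L).natDegree = u.natDegree := by rw [natDegree_comp, hLdeg, mul_one]
  have hwl : (w.comp L).leadingCoeff = w.leadingCoeff * (z ^ 2)⁻¹ ^ w.natDegree := by
    rw [leadingCoeff_comp (by rw [hLdeg]; exact one_ne_zero), hLlc]
  have hul : (u.comp L).leadingCoeff = u.leadingCoeff * (z ^ 2)⁻¹ ^ u.natDegree := by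
    rw [leadingCoeff_comp (by rw [hLdeg]; exact one_ne_zero), hLlc]
  have hcopL : IsCoprime (u.comp L) (w.comp L) := by
    have := hcop.map (compRingHom L)
    simpa using this
  have hy2 : z' ^ 2 ≠ 0 := pow_ne_zero 2 hz'
  have hcop' : IsCoprime (C (z' ^ 2) * u.comp L) (w.comp L) := by
    have h6 : IsUnit (C (z' ^ 2) : ℂ[X]) := isUnit_C.2 (isUnit_iff_ne_zero.2 hy2)
    exact (isCoprime_mul_unit_left_left h6 _ _).2 hcopL
  refine ⟨C (z' ^ 2) * u.comp L, w.comp L, ⟨?_, hcop', ?_, ?_⟩, ?_⟩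
  · intro h0
    rw [← leadingCoeff_eq_zero, hwl] at h0
    exact mul_ne_zero (leadingCoeff_ne_zero.2 hw0) (pow_ne_zero _ (inv_ne_zero hz2)) h0
  · rw [natDegree_C_mul hy2, huL, hwL, hdeg]
    exact Nat.lt_succ_self _
  · intro P hP hne
    have hLx : L.eval (z ^ 2 * xCoord P) = xCoord P := by
      simp only [L, eval_mul, eval_C, eval_X]
      rw [inv_mul_cancel_left₀ hz2]
    rw [eval_comp, hLx] at hne
    obtain ⟨h5, h6⟩ := hact P hP hne
    refine ⟨h5, ?_⟩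
    rw [eval_mul, eval_C, eval_comp, eval_comp, hLx]
    linear_combination z' ^ 2 * h6
  · rw [leadingCoeff_mul, leadingCoeff_C, hwl, hul, hlc, hdeg, pow_succ ((z ^ 2)⁻¹)]
    have h7 : z ^ 2 * (z ^ 2)⁻¹ = 1 := mul_inv_cancel₀ hz2
    linear_combination -(c ^ 2 * u.leadingCoeff * (z ^ 2)⁻¹ ^ w.natDegree * z' ^ 2) * h7

/-- The multiplier of an isogeny of degree prime to the residue characteristic. -/
theorem isog_val (h2 : V.valuation (2 : ℂ) = 1) (h3 : V.valuation (3 : ℂ) = 1)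
    {a b a' b' : ℂ} (hΔ : 4 * a ^ 3 + 27 * b ^ 2 ≠ 0) (hΔ' : 4 * a' ^ 3 + 27 * b' ^ 2 ≠ 0) {n : ℕ}
    (hn : V.valuation (n : ℂ) = 1) {c c' : ℂ} {ψ : (curve a b).Point →+ (curve a' b').Point}
    {φ : (curve a' b').Point →+ (curve a b).Point} (h : HasMultiplier c ψ)
    (h' : HasMultiplier c' φ) (hcc : c * c' = n) {z z' : ℂ} (hz : z ≠ 0) (hz' : z' ≠ 0)
    (ha : z ^ 4 * a ∈ V) (hb : z ^ 6 * b ∈ V)
    (hab : V.valuation (z ^ 4 * a) = 1 ∨ V.valuation (z ^ 6 * b) = 1)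
    (ha' : z' ^ 4 * a' ∈ V) (hb' : z' ^ 6 * b' ∈ V)
    (hab' : V.valuation (z' ^ 4 * a') = 1 ∨ V.valuation (z' ^ 6 * b') = 1) :
    V.valuation (c ^ 2 * z ^ 2) = V.valuation (z' ^ 2) := by
  have hG := law2_curve hΔ hz
  have hG' := law2_curve hΔ' hz'
  obtain ⟨f, g, hfg, hl⟩ := exists_isHom h hz hz'
  obtain ⟨f', g', hfg', hl'⟩ := exists_isHom h' hz' hz
  have k1 := mult_le h2 h3 ha hb hab hG ha' hb' hab' hG' hfg
  have k2 := mult_le h2 h3 ha' hb' hab' hG' ha hb hab hG hfg'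
  have hf : 0 < V.valuation f.leadingCoeff := by
    refine zero_lt_iff.2 ((Valuation.ne_zero_iff _).2 (leadingCoeff_ne_zero.2 ?_))
    rintro rfl
    have := hfg.deg
    rw [natDegree_zero] at this
    omega
  have hf' : 0 < V.valuation f'.leadingCoeff := by
    refine zero_lt_iff.2 ((Valuation.ne_zero_iff _).2 (leadingCoeff_ne_zero.2 ?_))
    rintro rfl
    have := hfg'.deg
    rw [natDegree_zero] at this
    omega
  have l1 : V.valuation (c ^ 2 * z ^ 2) ≤ V.valuation (z' ^ 2) := by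
    have h5 := congrArg V.valuation hl
    rw [map_mul, map_mul (V.valuation) (c ^ 2 * z ^ 2)] at h5
    have h6 : V.valuation (c ^ 2 * z ^ 2) * V.valuation f.leadingCoeff ≤
        V.valuation (z' ^ 2) * V.valuation f.leadingCoeff := by
      rw [← h5, mul_comm]
      exact mul_le_mul_right k1 _
    exact le_of_mul_le_mul_right h6 hf
  have l2 : V.valuation (c' ^ 2 * z' ^ 2) ≤ V.valuation (z ^ 2) := by
    have h5 := congrArg V.valuation hl'
    rw [map_mul, map_mul (V.valuation) (c' ^ 2 * z' ^ 2)] at h5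
    have h6 : V.valuation (c' ^ 2 * z' ^ 2) * V.valuation f'.leadingCoeff ≤
        V.valuation (z ^ 2) * V.valuation f'.leadingCoeff := by
      rw [← h5, mul_comm]
      exact mul_le_mul_right k2 _
    exact le_of_mul_le_mul_right h6 hf'
  refine le_antisymm l1 ?_
  have hc : 0 < V.valuation (c ^ 2) :=
    zero_lt_iff.2 ((Valuation.ne_zero_iff _).2 (pow_ne_zero 2 h.1))
  have h7 : V.valuation (c ^ 2) * V.valuation (c' ^ 2 * z' ^ 2) = V.valuation (z' ^ 2) := by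
    rw [← map_mul]
    have e : c ^ 2 * (c' ^ 2 * z' ^ 2) = (n : ℂ) ^ 2 * z' ^ 2 := by
      rw [← hcc]
      ring
    rw [e, map_mul, map_pow, hn, one_pow, one_mul]
  rw [← h7, map_mul (V.valuation) (c ^ 2) (z ^ 2)]
  exact mul_le_mul_right l2 _

/-- An isogeny of degree prime to the residue characteristic, near the origin. -/
theorem isog_shift (hp0 : V.valuation (p : ℂ) ≠ 0) (hp1 : V.valuation (p : ℂ) < 1)
    (hrat : RatVal V p) (h2 : V.valuation (2 : ℂ) = 1) (h3 : V.valuation (3 : ℂ) = 1)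
    {a b a' b' : ℂ} (hΔ : 4 * a ^ 3 + 27 * b ^ 2 ≠ 0) (hΔ' : 4 * a' ^ 3 + 27 * b' ^ 2 ≠ 0) {n : ℕ}
    (hn : V.valuation (n : ℂ) = 1) {ψ : (curve a b).Point →+ (curve a' b').Point}
    (h : IsIsogeny n ψ) {μ μ' : ℚ} (hμ : Scale V p a b μ) (hμ' : Scale V p a' b' μ') :
    ∃ M : ℚ, ∀ (Q : (curve a b).Point) (r : ℚ),
      Q ≠ 0 → Ord V p (xCoord Q) r → r < M → Ord V p (xCoord (ψ Q)) (r + (μ' - μ)) := by
  obtain ⟨-, c, c', φ, hψ, hφ, hcc⟩ := h
  obtain ⟨z, hz, hzo, ha, hb, hab⟩ := hμ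
  obtain ⟨z', hz', hzo', ha', hb', hab'⟩ := hμ'
  have hv := isog_val h2 h3 hΔ hΔ' hn hψ hφ hcc hz hz' ha hb hab ha' hb' hab'
  refine isog_ord hp0 hp1 hrat hψ ?_
  have h5 := hzo.mul hp0 hzo'.inv
  have e : -μ + -(-μ') = μ' - μ := by ring
  rw [e] at h5
  refine h5.of_val ?_
  have hc0 : V.valuation (c ^ 2) ≠ 0 := (Valuation.ne_zero_iff _).2 (pow_ne_zero 2 hψ.1)
  have hz0 : V.valuation (z' ^ 2) ≠ 0 := (Valuation.ne_zero_iff _).2 (pow_ne_zero 2 hz')
  rw [map_mul, map_inv₀, map_inv₀, ← hv, map_mul, mul_inv, mul_comm (V.valuation (c ^ 2))⁻¹,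
    mul_inv_cancel_left₀]
  exact (Valuation.ne_zero_iff _).2 (pow_ne_zero 2 hz)

end Pool.Agent.T9h40.Prod
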