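import Pool.Agent.T9h40.Prod.NoRel
import Pool.Agent.T9h40.Prod.Iso

/-!
Algebraic subgroups of products of elliptic curves which may be different, and the bound for the
codimension of the algebraic subgroups which contain a point with many coordinates near the origin
(helper file for Pink's conjecture for products of different elliptic schemes).
-/

set_option autoImplicit false

namespace Pool.Agent.T9h40.Prod

open Pool.Agent.R424.PT
open Pool.Agent.Results.MP_28d749_ag.RandomMultisections (curve xCoord EndRing relMod toE xCoord_eq)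

/-- The curves `E_1, …, E_g` have the equations `y² = x³ + a_k x + b_k`, and `P_j` is a point of the
curve number `ty j`, for `j < q`. Let `cls` be a map from the curves to classes. The point
`(P_1, …, P_q)` is in an algebraic subgroup of codimension at least `ρ` of the product of the curves
`E_{ty j}`, of isogeny type `cls`: there are elliptic curves `E'_i : y² = x³ + a'_i x + b'_i` with rings of
endomorphisms, isogenies from the curves `E_k` of the class `i` to `E'_i`, with degrees in `𝒟`, and for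
each `i` there are `R i` linearly independent relations up to torsion, with endomorphisms of `E'_i` as
coefficients, between the images of the points `P_j` on the curves of the class `i`, altogether at
least `ρ`. -/
def InSub {g q : ℕ} (ty : Fin q → Fin g) {a b : Fin g → ℂ}
    (P : ∀ j, (curve (a (ty j)) (b (ty j))).Point) (cls : Fin g → Fin g) (𝒟 : Set ℕ) (ρ : ℕ) :
    Prop :=
  ∃ (a' b' : Fin g → ℂ) (E : ∀ i, EndRing (a' i) (b' i))
    (ψ : ∀ i k, (curve (a k) (b k)).Point →+ (curve (a' i) (b' i)).Point)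
    (R : Fin g → ℕ) (c : ∀ i, Fin (R i) → Fin q → (E i).O),
    (∀ i, 4 * a' i ^ 3 + 27 * b' i ^ 2 ≠ 0) ∧ (∀ k, ∃ n ∈ 𝒟, IsIsogeny n (ψ (cls k) k)) ∧
    ρ ≤ ∑ i, R i ∧
    ∀ i, LinearIndependent ℂ (fun s l => (c i s l : ℂ)) ∧
      ∀ s, (∀ j, cls (ty j) ≠ i → c i s j = 0) ∧
        ∃ t : ℕ, 0 < t ∧ t • ∑ j, (E i).act (c i s j) (ψ i (ty j) (P j)) = 0

theorem le_finrank_of {O : Subring ℂ} {q ρ : ℕ} (N : Submodule O (Fin q → O))
    (c : Fin ρ → Fin q → O) (hc : LinearIndependent ℂ (fun i l => (c i l : ℂ)))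
    (h : ∀ i, c i ∈ N) : ρ ≤ Module.finrank O N := by
  have h1 : LinearIndependent O (fun i => (⟨c i, h i⟩ : N)) := by
    rw [Fintype.linearIndependent_iff] at hc ⊢
    intro g hg i
    have h2 : ∑ i, (g i : ℂ) • (fun l => (c i l : ℂ)) = 0 := by
      funext l
      have h3 := congrArg (fun v : N => (((v : Fin q → O) l : O) : ℂ)) hg
      simpa [Finset.sum_apply] using h3
    exact_mod_cast hc _ h2 i
  have h2 := h1.cardinal_le_rank
  have h3 : Module.rank O N < Cardinal.aleph0 := by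
    refine (Submodule.rank_le _).trans_lt ?_
    rw [rank_fun']
    exact Cardinal.natCast_lt_aleph0
  have h4 := Cardinal.toNat_le_toNat h2 h3
  simpa [Module.finrank] using h4

/-- the vectors with the coordinates zero outside of a set -/
def suppMod (O : Type) [CommRing O] {q : ℕ} (S : Finset (Fin q)) : Submodule O (Fin q → O) where
  carrier := {c | ∀ j, j ∉ S → c j = 0}
  zero_mem' := fun _ _ => rfl
  add_mem' := by
    intro c c' h h' j hj
    rw [Pi.add_apply, h j hj, h' j hj, add_zero]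
  smul_mem' := by
    intro r c h j hj
    rw [Pi.smul_apply, h j hj, smul_zero]

variable {V : ValuationSubring ℂ} {p : ℕ}

theorem prod_bound (hp : p.Prime) (hV : (p : ℂ) ∈ V.nonunits) (hrat : RatVal V p)
    (h2 : V.valuation (2 : ℂ) = 1) (h3 : V.valuation (3 : ℂ) = 1) {g q ρ : ℕ}
    (ty : Fin q → Fin g) {a b : Fin g → ℂ} (hΔ : ∀ k, 4 * a k ^ 3 + 27 * b k ^ 2 ≠ 0)
    (P : ∀ j, (curve (a (ty j)) (b (ty j))).Point)
    (cls : Fin g → Fin g) (𝒟 : Set ℕ) (h𝒟 : ∀ n ∈ 𝒟, V.valuation (n : ℂ) = 1)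
    (hS : InSub ty P cls 𝒟 ρ) (μ : Fin g → ℚ) (J : Finset (Fin q))
    (hμ : ∀ j ∈ J, Scale V p (a (ty j)) (b (ty j)) (μ (ty j)))
    (hμa : ∀ j ∈ J, ∀ r, Ord V p (a (ty j)) r → 2 * μ (ty j) ≤ r)
    (hμb : ∀ j ∈ J, ∀ r, Ord V p (b (ty j)) r → 3 * μ (ty j) ≤ r)
    (x : Fin q → ℚ) (hx : ∀ j ∈ J, Ord V p (xCoord (P j)) (x j))
    (hdeep : ∀ j ∈ J, x j + 1 / 2 < μ (ty j)) (hcard : q < J.card + ρ)
    (hdis : ∀ i ∈ J, ∀ j ∈ J, i ≠ j → cls (ty i) = cls (ty j) →
      ∀ N : ℤ, (x i - μ (ty i)) - (x j - μ (ty j)) ≠ N) : False := by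
  classical
  have hp1 : V.valuation (p : ℂ) < 1 := by rwa [ValuationSubring.mem_nonunits_iff] at hV
  have hpC : (p : ℂ) ≠ 0 := by exact_mod_cast hp.ne_zero
  have hp0 : V.valuation (p : ℂ) ≠ 0 := (Valuation.ne_zero_iff _).2 hpC
  obtain ⟨a', b', E, ψ, R, c, hΔ', hψ, hρ, hc⟩ := hS
  have hex : ∀ i, ∃ μ' : ℚ, Scale V p (a' i) (b' i) μ' ∧ (∀ r, Ord V p (a' i) r → 2 * μ' ≤ r) ∧
      ∀ r, Ord V p (b' i) r → 3 * μ' ≤ r := fun i => exists_scale' hp0 hp1 hrat (hΔ' i)
  choose μ' hμ' hμa' hμb' using hex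
  let γ : Fin g → ℚ := fun k => μ' (cls k) - μ k
  let A : Fin g → Fin g → ℚ → ℚ → Prop := fun i k γ M => ∀ (Q : (curve (a k) (b k)).Point) (r : ℚ),
    Q ≠ 0 → Ord V p (xCoord Q) r → r < M → Ord V p (xCoord (ψ i k Q)) (r + γ)
  have hA : ∀ k, ∃ M : ℚ, Scale V p (a k) (b k) (μ k) → A (cls k) k (γ k) M := by
    intro k
    by_cases hk : Scale V p (a k) (b k) (μ k)
    · obtain ⟨n, hn, hi⟩ := hψ k
      obtain ⟨M, hM⟩ := isog_shift hp0 hp1 hrat h2 h3 (hΔ k) (hΔ' _) (h𝒟 n hn) hi hk (hμ' _)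
      exact ⟨M, fun _ => hM⟩
    · exact ⟨0, fun h => absurd h hk⟩
  choose B hA using hA
  -- a class with a relation between the points of `J`
  let C : Fin g → Finset (Fin q) := fun i => Finset.univ.filter fun j => cls (ty j) = i
  let K : Fin g → Finset (Fin q) := fun i => J.filter fun j => cls (ty j) = i
  have hsumC : ∑ i, (C i).card = q := by
    have h1 := Finset.card_eq_sum_card_fiberwise (s := (Finset.univ : Finset (Fin q)))
      (t := (Finset.univ : Finset (Fin g))) (f := fun j => cls (ty j))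
      (fun _ _ => Finset.mem_coe.2 (Finset.mem_univ _))
    rw [Finset.card_univ, Fintype.card_fin] at h1
    exact h1.symm
  have hsumK : ∑ i, (K i).card = J.card :=
    (Finset.card_eq_sum_card_fiberwise (s := J)
      (t := (Finset.univ : Finset (Fin g))) (f := fun j => cls (ty j))
      (fun _ _ => Finset.mem_coe.2 (Finset.mem_univ _))).symm
  obtain ⟨i, hi⟩ : ∃ i, (C i).card < (K i).card + R i := by
    by_contra hcon
    push Not at hcon
    have h1 : ∑ i, ((K i).card + R i) ≤ ∑ i, (C i).card := Finset.sum_le_sum fun i _ => hcon i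
    rw [Finset.sum_add_distrib, hsumK, hsumC] at h1
    omega
  let Q : Fin q → (curve (a' i) (b' i)).Point := fun j => ψ i (ty j) (P j)
  let N : Submodule (E i).O (Fin q → (E i).O) := relMod (E i) Q ⊓ suppMod (E i).O (C i)
  obtain ⟨hlin, hrel⟩ := hc i
  have hrk : R i ≤ Module.finrank (E i).O N := by
    refine le_finrank_of N (c i) hlin fun s => ⟨?_, ?_⟩
    · exact (hrel s).2
    · intro j hj
      exact (hrel s).1 j fun h => hj (Finset.mem_filter.2 ⟨Finset.mem_univ j, h⟩)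
  have hKC : K i ⊆ C i := by
    intro j hj
    exact Finset.mem_filter.2 ⟨Finset.mem_univ j, (Finset.mem_filter.1 hj).2⟩
  obtain ⟨d, hdN, hd0, hdz⟩ := Pool.Agent.TH971.RF.exists_relO N (C i \ K i) (by
    have h1 := Finset.card_sdiff_add_card_eq_card hKC
    omega)
  obtain ⟨⟨t, ht, hdt⟩, hdC⟩ := hdN
  have hdK : ∀ j, j ∉ K i → d j = 0 := by
    intro j hj
    by_cases h1 : j ∈ C i
    · exact hdz j (Finset.mem_sdiff.2 ⟨h1, hj⟩)
    · exact hdC j h1
  -- a large multiple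
  obtain ⟨M, hM⟩ : ∃ M : ℕ, ∀ j ∈ K i, x j - 2 * M < B (ty j) ∧
      x j + γ (ty j) - 2 * M + 1 / 2 < μ' i := by
    have h1 : ∀ j : Fin q, ∃ M : ℕ, ∀ M' : ℕ, M ≤ M' → x j - 2 * M' < B (ty j) ∧
        x j + γ (ty j) - 2 * M' + 1 / 2 < μ' i := by
      intro j
      obtain ⟨M1, hM1⟩ := exists_nat_gt (x j - B (ty j))
      obtain ⟨M2, hM2⟩ := exists_nat_gt (x j + γ (ty j) + 1 / 2 - μ' i)
      refine ⟨M1 + M2, fun M' hM' => ?_⟩
      have h2 : ((M1 : ℚ) + M2) ≤ M' := by exact_mod_cast hM'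
      have h3 : (0 : ℚ) ≤ M1 := Nat.cast_nonneg _
      have h4 : (0 : ℚ) ≤ M2 := Nat.cast_nonneg _
      constructor <;> linarith
    choose Mj hMj using h1
    exact ⟨∑ j, Mj j, fun j _ => hMj j _ (Finset.single_le_sum (f := Mj)
      (fun _ _ => Nat.zero_le _) (Finset.mem_univ j))⟩
  refine no_rel hp hV hrat (fun j => ((p : ℤ) ^ M) • Q j) (E i) (μ' i) (hμa' i) (hμb' i) (K i)
    (fun j => x j - 2 * M + γ (ty j)) ?_ ?_ ?_ d hd0 hdK ht ?_
  · intro j hj
    obtain ⟨hjJ, hj2⟩ := Finset.mem_filter.1 hj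
    obtain ⟨h1, h2⟩ := smul_ord hp hV hrat (P j) (μ (ty j)) (hμa j hjJ) (hμb j hjJ) (hx j hjJ)
      (hdeep j hjJ) M
    have h3 : A i (ty j) (γ (ty j)) (B (ty j)) := hj2 ▸ hA (ty j) (hμ j hjJ)
    have h4 := h3 _ _ h1 h2 (hM j hj).1
    have h5 : ψ i (ty j) (((p : ℤ) ^ M) • P j) = ((p : ℤ) ^ M) • Q j := map_zsmul _ _ _
    rwa [h5] at h4
  · intro j hj
    have := (hM j hj).2
    linarith
  · intro j hj k hk hjk n
    obtain ⟨hj1, hj2⟩ := Finset.mem_filter.1 hj
    obtain ⟨hk1, hk2⟩ := Finset.mem_filter.1 hk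
    have h1 := hdis j hj1 k hk1 hjk (hj2.trans hk2.symm) n
    intro h4
    apply h1
    rw [← h4]
    simp only [γ]
    rw [hj2, hk2]
    ring
  · have h1 : (E i).comb d (fun j => ((p : ℤ) ^ M) • Q j) = ((p : ℤ) ^ M) • (E i).comb d Q := by
      unfold EndRing.comb
      rw [Finset.smul_sum]
      exact Finset.sum_congr rfl fun j _ => map_zsmul _ _ _
    rw [h1, smul_comm, hdt]
    exact zsmul_zero _

end Pool.Agent.T9h40.Prod
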