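import Pool.Agent.R424.PT.Fam

/-!
The abscissas of `P + Q` and `P - Q` on an elliptic curve (helper file for Pink's conjecture for
products of different elliptic schemes).
-/

set_option autoImplicit false

namespace Pool.Agent.T9h40.Prod

open WeierstrassCurve WeierstrassCurve.Affine
open Pool.Agent.Results.MP_28d749_ag.RandomMultisections (curve xCoord)

/-- The function `ξ` on an abelian group has the sum and product formulas of a coordinate `x + const` of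
the curve `y² = ξ³ + A ξ² + B ξ + C`, and separates the elements up to sign. -/
structure Law {G : Type} [AddCommGroup G] (ξ : G → ℂ) (A B C : ℂ) : Prop where
  inj : ∀ P Q, P ≠ 0 → Q ≠ 0 → ξ P = ξ Q → P = Q ∨ P = -Q
  add_ne : ∀ P Q, P ≠ 0 → Q ≠ 0 → ξ P ≠ ξ Q → P + Q ≠ 0 ∧ P - Q ≠ 0
  sum : ∀ P Q, P ≠ 0 → Q ≠ 0 → ξ P ≠ ξ Q → (ξ (P + Q) + ξ (P - Q)) * (ξ P - ξ Q) ^ 2 =
    2 * ((ξ P + ξ Q) * (ξ P * ξ Q + B) + 2 * A * (ξ P * ξ Q) + 2 * C)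
  prod : ∀ P Q, P ≠ 0 → Q ≠ 0 → ξ P ≠ ξ Q → ξ (P + Q) * ξ (P - Q) * (ξ P - ξ Q) ^ 2 =
    (ξ P * ξ Q - B) ^ 2 - 4 * C * (ξ P + ξ Q + A)

/-- The formulas for the coordinate `z² x - e` of the curve `y² = x³ + a x + b`. -/
theorem law_curve {a b : ℂ} {z : ℂ} (hz : z ≠ 0) (e : ℂ) :
    Law (fun P : (curve a b).Point => z ^ 2 * xCoord P - e) (3 * e) (3 * e ^ 2 + z ^ 4 * a)
      (e ^ 3 + z ^ 4 * a * e + z ^ 6 * b) := by
  have hz2 : z ^ 2 ≠ 0 := pow_ne_zero 2 hz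
  have hxne : ∀ x1 x2 : ℂ, z ^ 2 * x1 - e ≠ z ^ 2 * x2 - e → x1 ≠ x2 := by
    rintro x1 x2 h rfl
    exact h rfl
  have heq : ∀ {x y : ℂ}, (curve a b).Nonsingular x y → y ^ 2 = x ^ 3 + a * x + b := by
    intro x y h
    have h1 := (equation_iff (W := curve a b) x y).1 h.1
    linear_combination h1
  have key : ∀ (x1 y1 x2 y2 : ℂ) (h1 : (curve a b).Nonsingular x1 y1)
      (h2 : (curve a b).Nonsingular x2 y2), x1 ≠ x2 →
      ((Point.some x1 y1 h1 : (curve a b).Point) + Point.some x2 y2 h2 ≠ 0 ∧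
        xCoord ((Point.some x1 y1 h1 : (curve a b).Point) + Point.some x2 y2 h2) =
          ((y1 - y2) / (x1 - x2)) ^ 2 - x1 - x2) := by
    intro x1 y1 x2 y2 h1 h2 hx
    rw [Point.add_of_X_ne hx]
    refine ⟨Point.some_ne_zero _, ?_⟩
    change (curve a b).addX x1 x2 ((curve a b).slope x1 x2 y1 y2) = _
    rw [slope_of_X_ne hx, addX]
    simp
  have hneg : ∀ (x y : ℂ) (h : (curve a b).Nonsingular x y), ∃ h' : (curve a b).Nonsingular x (-y),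
      -(Point.some x y h : (curve a b).Point) = Point.some x (-y) h' := by
    intro x y h
    have h0 : (curve a b).negY x y = -y := by simp [negY]
    have h' : (curve a b).Nonsingular x (-y) := by
      rw [← h0]
      exact (nonsingular_neg x y).2 h
    refine ⟨h', ?_⟩
    rw [Point.neg_some]
    congr 1
  refine ⟨?_, ?_, ?_, ?_⟩
  · intro P Q hP hQ h
    rcases P with _ | ⟨x1, y1, h1⟩
    · exact absurd rfl hP
    rcases Q with _ | ⟨x2, y2, h2⟩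
    · exact absurd rfl hQ
    have hx : x1 = x2 := by
      have h3 : z ^ 2 * x1 - e = z ^ 2 * x2 - e := h
      have h4 : z ^ 2 * x1 = z ^ 2 * x2 := by linear_combination h3
      exact mul_left_cancel₀ hz2 h4
    subst hx
    have h3 : (y1 - y2) * (y1 + y2) = 0 := by
      have e1 := heq h1
      have e2 := heq h2
      linear_combination e1 - e2
    rcases mul_eq_zero.1 h3 with h4 | h4
    · left
      have h5 : y1 = y2 := by linear_combination h4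
      subst h5
      rfl
    · right
      obtain ⟨h', h5⟩ := hneg x1 y2 h2
      rw [h5]
      have h6 : y1 = -y2 := by linear_combination h4
      subst h6
      rfl
  · intro P Q hP hQ h
    rcases P with _ | ⟨x1, y1, h1⟩
    · exact absurd rfl hP
    rcases Q with _ | ⟨x2, y2, h2⟩
    · exact absurd rfl hQ
    have hx : x1 ≠ x2 := hxne x1 x2 h
    obtain ⟨h', h5⟩ := hneg x2 y2 h2
    refine ⟨(key x1 y1 x2 y2 h1 h2 hx).1, ?_⟩
    rw [sub_eq_add_neg, h5]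
    exact (key x1 y1 x2 (-y2) h1 h' hx).1
  · intro P Q hP hQ h
    rcases P with _ | ⟨x1, y1, h1⟩
    · exact absurd rfl hP
    rcases Q with _ | ⟨x2, y2, h2⟩
    · exact absurd rfl hQ
    have hx : x1 ≠ x2 := hxne x1 x2 h
    obtain ⟨h', h5⟩ := hneg x2 y2 h2
    have e1 := heq h1
    have e2 := heq h2
    have hd : x1 - x2 ≠ 0 := sub_ne_zero.2 hx
    have k1 := (key x1 y1 x2 y2 h1 h2 hx).2
    have k2 := (key x1 y1 x2 (-y2) h1 h' hx).2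
    rw [← h5, ← sub_eq_add_neg] at k2
    simp only [k1, k2]
    change (z ^ 2 * (((y1 - y2) / (x1 - x2)) ^ 2 - x1 - x2) - e +
      (z ^ 2 * (((y1 - -y2) / (x1 - x2)) ^ 2 - x1 - x2) - e)) *
      (z ^ 2 * x1 - e - (z ^ 2 * x2 - e)) ^ 2 = 2 * ((z ^ 2 * x1 - e + (z ^ 2 * x2 - e)) *
      ((z ^ 2 * x1 - e) * (z ^ 2 * x2 - e) + (3 * e ^ 2 + z ^ 4 * a)) + 2 * (3 * e) *
      ((z ^ 2 * x1 - e) * (z ^ 2 * x2 - e)) + 2 * (e ^ 3 + z ^ 4 * a * e + z ^ 6 * b))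
    have k3 : ((y1 - y2) / (x1 - x2)) ^ 2 = (y1 - y2) ^ 2 / (x1 - x2) ^ 2 := div_pow _ _ _
    have k4 : ((y1 - -y2) / (x1 - x2)) ^ 2 = (y1 + y2) ^ 2 / (x1 - x2) ^ 2 := by
      rw [div_pow, sub_neg_eq_add]
    rw [k3, k4]
    field_simp
    linear_combination (2 * z ^ 6 * (x1 - x2) ^ 2) * e1 + (2 * z ^ 6 * (x1 - x2) ^ 2) * e2
  · intro P Q hP hQ h
    rcases P with _ | ⟨x1, y1, h1⟩
    · exact absurd rfl hP
    rcases Q with _ | ⟨x2, y2, h2⟩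
    · exact absurd rfl hQ
    have hx : x1 ≠ x2 := hxne x1 x2 h
    obtain ⟨h', h5⟩ := hneg x2 y2 h2
    have e1 := heq h1
    have e2 := heq h2
    have hd : x1 - x2 ≠ 0 := sub_ne_zero.2 hx
    have k1 := (key x1 y1 x2 y2 h1 h2 hx).2
    have k2 := (key x1 y1 x2 (-y2) h1 h' hx).2
    rw [← h5, ← sub_eq_add_neg] at k2
    simp only [k1, k2]
    change (z ^ 2 * (((y1 - y2) / (x1 - x2)) ^ 2 - x1 - x2) - e) *
      (z ^ 2 * (((y1 - -y2) / (x1 - x2)) ^ 2 - x1 - x2) - e) *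
      (z ^ 2 * x1 - e - (z ^ 2 * x2 - e)) ^ 2 = ((z ^ 2 * x1 - e) * (z ^ 2 * x2 - e) -
      (3 * e ^ 2 + z ^ 4 * a)) ^ 2 - 4 * (e ^ 3 + z ^ 4 * a * e + z ^ 6 * b) *
      (z ^ 2 * x1 - e + (z ^ 2 * x2 - e) + 3 * e)
    have k3 : ((y1 - y2) / (x1 - x2)) ^ 2 = (y1 - y2) ^ 2 / (x1 - x2) ^ 2 := div_pow _ _ _
    have k4 : ((y1 - -y2) / (x1 - x2)) ^ 2 = (y1 + y2) ^ 2 / (x1 - x2) ^ 2 := by
      rw [div_pow, sub_neg_eq_add]
    rw [k3, k4]
    field_simp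
    linear_combination ((x1 - x2) ^ 2 * z ^ 4 * (z ^ 4 * (y1 ^ 2 - y2 ^ 2 + (x1 ^ 3 + a * x1 + b) -
      (x2 ^ 3 + a * x2 + b)) + 2 * z ^ 2 * (-z ^ 2 * (x1 + x2) * (x1 - x2) ^ 2 -
      e * (x1 - x2) ^ 2))) * e1 + ((x1 - x2) ^ 2 * z ^ 4 * (-z ^ 4 * (y1 ^ 2 - y2 ^ 2 + (x1 ^ 3 + a * x1 + b) -
      (x2 ^ 3 + a * x2 + b)) + 2 * z ^ 2 * (-z ^ 2 * (x1 + x2) * (x1 - x2) ^ 2 -
      e * (x1 - x2) ^ 2))) * e2

end Pool.Agent.T9h40.Prod
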