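import Pool.Agent.T9h40.Prod.Bound

/-!
The tropical local criterion for Pink's conjecture in products of elliptic schemes which may be
different (helper file).
-/

set_option autoImplicit false

namespace Pool.Agent.T9h40.Prod

open MvPolynomial Pool.Agent.R424.TG Pool.Agent.R424.PT Pool.Agent.W282.ZP
open Pool.Agent.Results.MP_28d749_ag.RandomMultisections (curve xCoord EndRing)

/-- The coordinates of a point of the abelian scheme: the coefficients `a_k`, `b_k` of the `g` elliptic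
curves, `r` further coordinates of the base, and the abscissas of the `q` points. -/
abbrev Coord (g r q : ℕ) : Type := ((Fin g × Fin 2) ⊕ Fin r) ⊕ Fin q

/-- The points `s = (a_1, b_1, …, a_g, b_g, s_1, …, s_r)` of the base. -/
abbrev Base (g r : ℕ) : Type := (Fin g × Fin 2) ⊕ Fin r → ℂ

/-- The curve number `k` at the point `s` of the base: `y² = x³ + a_k x + b_k`. -/
abbrev crvAt {g r : ℕ} (s : Base g r) (k : Fin g) : WeierstrassCurve.Affine ℂ :=
  curve (s (Sum.inl (k, 0))) (s (Sum.inl (k, 1)))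

/-- The fibre at `s` of the product of the curves number `ty 1, …, ty q`. -/
abbrev Fibre {g r q : ℕ} (ty : Fin q → Fin g) (s : Base g r) : Type :=
  ∀ j : Fin q, (crvAt s (ty j)).Point

variable {κ I : Type} {g r q N : ℕ} {ty : Fin q → Fin g}

/-- The coordinates `(a_1, b_1, …, a_g, b_g, s_1, …, s_r, x(P_1), …, x(P_q))` of the point
`(P_1, …, P_q)` of the fibre at the point `s` of the base. -/
def point (s : Base g r) (P : Fibre ty s) : Coord g r q → ℂ := Sum.elim s fun j => xCoord (P j)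

/-- The set `X` of the system of equations `∑_β c j β z^β = 0`: the points `(P_1, …, P_q)` of the fibres
with smooth curves, different from the origins, such that for some `y ∈ ℂ^N` the equations hold for
`z = (a, b, s, x(P), y)`. -/
def OnX (supp : κ → Finset ((Coord g r q ⊕ Fin N) →₀ ℕ))
    (c : κ → ((Coord g r q ⊕ Fin N) →₀ ℕ) → ℂ) (s : Base g r) (P : Fibre ty s) : Prop :=
  (∀ k, 4 * s (Sum.inl (k, 0)) ^ 3 + 27 * s (Sum.inl (k, 1)) ^ 2 ≠ 0) ∧ (∀ j, P j ≠ 0) ∧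
    ∃ y : Fin N → ℂ, ∀ j, ∑ β ∈ supp j, c j β * ∏ i, Sum.elim (point s P) y i ^ β i = 0

/-- The point is in an algebraic subgroup of codimension at least `ρ` of its fibre, with isogeny type in
`𝒞`, defined with isogenies whose degrees are in `𝒟`. -/
def InSubC (𝒞 : Set (Fin g → Fin g)) (𝒟 : Set ℕ) (ρ : ℕ) (s : Base g r) (P : Fibre ty s) : Prop :=
  ∃ cls ∈ 𝒞, InSub (a := fun k => s (Sum.inl (k, 0))) (b := fun k => s (Sum.inl (k, 1))) ty P cls 𝒟 ρ

/-- `X` has no intersection of too large dimension with the algebraic subgroups of the fibres which have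
isogeny types in `𝒞` and are defined with isogenies of degrees in `𝒟`, if `X` is regarded as a set of
dimension `m`: for every `ρ ≤ m + 1` every point of `X` which is in such an algebraic subgroup of
codimension at least `ρ` of its fibre has transcendence degree at most `m - ρ` over `K` (for `ρ = m + 1`:
there is no such point), and every irreducible closed set `W` of the coordinate space, such that its
points outside of some hypersurface `f = 0`, which does not contain `W`, are points of this kind, has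
dimension at most `m - ρ`. -/
def NoAtypical (K : Type) [Field K] [Algebra K ℂ] (𝒞 : Set (Fin g → Fin g)) (𝒟 : Set ℕ) (m : ℕ)
    (X : ∀ s : Base g r, Fibre ty s → Prop) : Prop :=
  ∀ ρ ≤ m + 1,
    (∀ s P, X s P → InSubC 𝒞 𝒟 ρ s P → ∀ T : Finset (Coord g r q),
      AlgebraicIndependent K (fun i : T => point s P i) → T.card + ρ ≤ m) ∧
    ∀ (W : Set (Coord g r q → ℂ)) (f : MvPolynomial (Coord g r q) ℂ),
      (∀ w ∈ W, eval w f ≠ 0 → ∃ s, ∃ P : Fibre ty s, w = point s P ∧ X s P ∧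
        InSubC 𝒞 𝒟 ρ s P) →
      zcl W ⊆ W → (idealOf W).IsPrime → f ∉ idealOf W →
      zdim W + (ρ : Cardinal) ≤ (m : Cardinal)

/-- For a point `w` of the tropicalization: there is a set `J` of more than `q - ρ` indices such that for
`j ∈ J` the point `P_j` is near to the origin of its curve, `w(x_j) + 1/2 < μ`, where
`μ = min(w(a)/2, w(b)/3)` for the coefficients `a, b` of the curve, and such that the numbers
`w(x_j) - μ` are different modulo the integers for the points `P_j`, `j ∈ J`, on the curves of the same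
class. -/
def Independent (ty : Fin q → Fin g) (cls : Fin g → Fin g) (ρ : ℕ)
    (w : Coord g r q ⊕ Fin N → WithTop ℚ) : Prop :=
  ∃ (J : Finset (Fin q)) (μ : Fin g → ℚ) (x : Fin q → ℚ), q < J.card + ρ ∧
    (∀ j ∈ J, ((2 * μ (ty j) : ℚ) : WithTop ℚ) ≤ w (Sum.inl (Sum.inl (Sum.inl (ty j, 0)))) ∧
      ((3 * μ (ty j) : ℚ) : WithTop ℚ) ≤ w (Sum.inl (Sum.inl (Sum.inl (ty j, 1)))) ∧
      (w (Sum.inl (Sum.inl (Sum.inl (ty j, 0)))) = ((2 * μ (ty j) : ℚ) : WithTop ℚ) ∨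
        w (Sum.inl (Sum.inl (Sum.inl (ty j, 1)))) = ((3 * μ (ty j) : ℚ) : WithTop ℚ)) ∧
      w (Sum.inl (Sum.inr j)) = (x j : WithTop ℚ) ∧ x j + 1 / 2 < μ (ty j)) ∧
    ∀ i ∈ J, ∀ j ∈ J, i ≠ j → cls (ty i) = cls (ty j) →
      ∀ k : ℤ, (x i - μ (ty i)) - (x j - μ (ty j)) ≠ k

/-- The condition on the tropicalizations: for every `ρ`, every set `T` of `m + 1 - ρ` coordinates and
every isogeny type in `𝒞` there is a place `l` and there are values `τ` for the coordinates in `T` such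
that all points of the tropicalization at `l` with these values are independent. -/
def Generic (ty : Fin q → Fin g) (𝒞 : Set (Fin g → Fin g)) (m : ℕ)
    (supp : κ → Finset ((Coord g r q ⊕ Fin N) →₀ ℕ))
    (e : I → κ → ((Coord g r q ⊕ Fin N) →₀ ℕ) → ℕ) : Prop :=
  ∀ (ρ : ℕ) (T : Finset (Coord g r q)), T.card + ρ = m + 1 → ∀ cls ∈ 𝒞,
    ∃ (l : I) (τ : Coord g r q → ℚ), ∀ w : Coord g r q ⊕ Fin N → WithTop ℚ,
      (∀ j, TropAt (supp j) (e l j) w) → (∀ i ∈ T, w (Sum.inl i) = (τ i : WithTop ℚ)) →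
      Independent ty cls ρ w

theorem InSubC.mono {𝒞 : Set (Fin g → Fin g)} {𝒟 𝒟' : Set ℕ} (h : 𝒟' ⊆ 𝒟) {ρ : ℕ} {s : Base g r}
    {P : Fibre ty s} (hS : InSubC 𝒞 𝒟' ρ s P) : InSubC 𝒞 𝒟 ρ s P := by
  obtain ⟨cls, hcls, a', b', E, ψ, R, c, h1, h2, h3, h4⟩ := hS
  refine ⟨cls, hcls, a', b', E, ψ, R, c, h1, fun k => ?_, h3, h4⟩
  obtain ⟨n, hn, hi⟩ := h2 k
  exact ⟨n, h hn, hi⟩

theorem InSubC.bounded {𝒞 : Set (Fin g → Fin g)} {𝒟 : Set ℕ} {ρ : ℕ} {s : Base g r}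
    {P : Fibre ty s} (hS : InSubC 𝒞 𝒟 ρ s P) :
    ∃ B : ℕ, InSubC 𝒞 {n | 0 < n ∧ n ≤ B} ρ s P := by
  obtain ⟨cls, hcls, a', b', E, ψ, R, c, h1, h2, h3, h4⟩ := hS
  choose n hn hi using h2
  refine ⟨∑ k, n k, cls, hcls, a', b', E, ψ, R, c, h1, fun k => ⟨n k, ⟨(hi k).1, ?_⟩, hi k⟩, h3,
    h4⟩
  exact Finset.single_le_sum (f := n) (fun _ _ => Nat.zero_le _) (Finset.mem_univ k)

theorem NoAtypical.mono {K : Type} [Field K] [Algebra K ℂ] {𝒞 : Set (Fin g → Fin g)}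
    {𝒟 𝒟' : Set ℕ} (h : 𝒟' ⊆ 𝒟) {m : ℕ} {X : ∀ s : Base g r, Fibre ty s → Prop}
    (hX : NoAtypical K 𝒞 𝒟 m X) : NoAtypical K 𝒞 𝒟' m X := by
  intro ρ hρ
  refine ⟨fun s P hP hS => (hX ρ hρ).1 s P hP (hS.mono h), fun W f hW => (hX ρ hρ).2 W f ?_⟩
  intro w hw hf
  obtain ⟨s, P, h1, h2, h3⟩ := hW w hw hf
  exact ⟨s, P, h1, h2, h3.mono h⟩

/-- The bound for points, with given places. -/
theorem point_bound {K₁ : Type} [Field K₁] [Algebra K₁ ℂ] (𝒞 : Set (Fin g → Fin g)) (𝒟 : Set ℕ)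
    (m : ℕ)
    (supp : κ → Finset ((Coord g r q ⊕ Fin N) →₀ ℕ))
    (c : κ → ((Coord g r q ⊕ Fin N) →₀ ℕ) → ℂ) (e : I → κ → ((Coord g r q ⊕ Fin N) →₀ ℕ) → ℕ)
    (hgen : Generic ty 𝒞 m supp e) (p : I → ℕ) (hp : ∀ l, (p l).Prime)
    (hp5 : ∀ l, 5 ≤ p l) (h𝒟 : ∀ n ∈ 𝒟, ∀ l, ¬ p l ∣ n)
    (hplace : ∀ l (T : Finset (Coord g r q)) (x : T → ℂ), AlgebraicIndependent K₁ x →
      ∀ n : T → ℕ, (∀ t, 0 < n t) → ∀ k : T → ℤ, ∃ V : ValuationSubring ℂ,
        ((p l : ℕ) : ℂ) ∈ V.nonunits ∧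
        (∀ t, V.valuation (x t) ^ n t = V.valuation ((p l : ℕ) : ℂ) ^ k t) ∧ RatVal V (p l) ∧
        ∀ j, ∀ β ∈ supp j, V.valuation (c j β) = V.valuation ((p l : ℕ) : ℂ) ^ e l j β)
    {s : Base g r} {P : Fibre ty s} (hX : OnX supp c s P) {ρ : ℕ} (hρm : ρ ≤ m + 1)
    (hρ : InSubC 𝒞 𝒟 ρ s P) (T : Finset (Coord g r q))
    (hT : AlgebraicIndependent K₁ (fun i : T => point s P i)) : T.card + ρ ≤ m := by
  classical
  by_contra hcon
  push Not at hcon
  obtain ⟨hdisc, hP0, y, hy⟩ := hX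
  obtain ⟨cls, hcls, hS⟩ := hρ
  obtain ⟨T', hT', hcard⟩ : ∃ T' : Finset (Coord g r q), T' ⊆ T ∧ T'.card + ρ = m + 1 := by
    obtain ⟨T', h1, h2⟩ := Finset.exists_subset_card_eq (s := T) (n := m + 1 - ρ) (by omega)
    exact ⟨T', h1, by omega⟩
  obtain ⟨l, τ, hτ⟩ := hgen ρ T' hcard cls hcls
  have hT'' : AlgebraicIndependent K₁ (fun i : T' => point s P i) :=
    hT.comp (fun i : T' => (⟨i, hT' i.2⟩ : T)) fun i j h =>
      Subtype.ext (congrArg (fun x : T => (x : Coord g r q)) h)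
  obtain ⟨V, hV, hVx, hrat, hVc⟩ := hplace l T' (fun i : T' => point s P i) hT''
    (fun i => (τ i).den) (fun i => (τ i).den_pos) (fun i => (τ i).num)
  set v := V.valuation with hv
  have hp1 : v (p l : ℂ) < 1 := by rwa [ValuationSubring.mem_nonunits_iff] at hV
  have hpC : ((p l : ℕ) : ℂ) ≠ 0 := by exact_mod_cast (hp l).ne_zero
  have hp0 : v (p l : ℂ) ≠ 0 := (Valuation.ne_zero_iff _).2 hpC
  let z : Coord g r q ⊕ Fin N → ℂ := Sum.elim (point s P) y
  obtain ⟨n, hn, k, hk⟩ := common hrat z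
  have hnQ : (0 : ℚ) < n := by exact_mod_cast hn
  let w : Coord g r q ⊕ Fin N → WithTop ℚ :=
    fun i => if z i = 0 then ⊤ else ((k i / n : ℚ) : WithTop ℚ)
  have hw0 : ∀ i, z i = 0 → w i = ⊤ := fun i h => if_pos h
  have hw1 : ∀ i, z i ≠ 0 → w i = ((k i / n : ℚ) : WithTop ℚ) := fun i h => if_neg h
  have htrop : ∀ j, TropAt (supp j) (e l j) w := fun j =>
    trop_point hp0 hp1 (supp j) (c j) (e l j) (fun β hβ => hVc j β hβ) z (hy j) hn k hk w
      hw0 hw1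
  have hord : ∀ i, z i ≠ 0 → Ord V (p l) (z i) (k i / n) := fun i hi =>
    ⟨n, hn, k i, rfl, hk i hi⟩
  have hwT : ∀ i ∈ T', w (Sum.inl i) = (τ i : WithTop ℚ) := by
    intro i hi
    have h0 : z (Sum.inl i) ≠ 0 := by
      have h1 := hT''.ne_zero ⟨i, hi⟩
      exact h1
    rw [hw1 _ h0]
    congr 1
    have h1 : Ord V (p l) (z (Sum.inl i)) (τ i) :=
      ⟨(τ i).den, (τ i).den_pos, (τ i).num, (Rat.num_div_den _).symm, hVx ⟨i, hi⟩⟩
    exact (hord _ h0).unique hp0 hp1 h1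
  obtain ⟨J, μ, x, hJcard, hJ, hdis⟩ := hτ w htrop hwT
  -- orders from the values of `w`
  have hge : ∀ (i : Coord g r q ⊕ Fin N) (t : ℚ), (t : WithTop ℚ) ≤ w i →
      ∀ r', Ord V (p l) (z i) r' → t ≤ r' := by
    intro i t ht r' hr'
    have h0 : z i ≠ 0 := hr'.ne_zero hp0
    rw [hw1 i h0, WithTop.coe_le_coe] at ht
    exact ht.trans ((hord i h0).unique hp0 hp1 hr').le
  have hxz : ∀ j ∈ J, Ord V (p l) (xCoord (P j)) (x j) := by
    intro j hj
    have h1 := (hJ j hj).2.2.2.1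
    by_cases h0 : z (Sum.inl (Sum.inr j)) = 0
    · rw [hw0 _ h0] at h1
      exact absurd h1.symm (WithTop.coe_ne_top)
    · rw [hw1 _ h0] at h1
      have h2 := hord _ h0
      rw [WithTop.coe_injective h1] at h2
      exact h2
  have hunit : ∀ n : ℕ, ¬ p l ∣ n → v ((n : ℕ) : ℂ) = 1 := by
    intro n hn
    have h1 := Pool.Agent.W466.ZP.int_unit V (hp l) hV (n : ℤ) (by
      intro h
      exact hn (Int.natCast_dvd_natCast.1 h))
    simpa using h1
  have h5 := hp5 l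
  have hu2 : v (2 : ℂ) = 1 := by
    have h1 := hunit 2 fun h => absurd (Nat.le_of_dvd two_pos h) (by omega)
    simpa using h1
  have hu3 : v (3 : ℂ) = 1 := by
    have h1 := hunit 3 fun h => absurd (Nat.le_of_dvd three_pos h) (by omega)
    simpa using h1
  have hma : ∀ j ∈ J, ∀ r', Ord V (p l) (s (Sum.inl (ty j, 0))) r' → 2 * μ (ty j) ≤ r' :=
    fun j hj => hge (Sum.inl (Sum.inl (Sum.inl (ty j, 0)))) _ (hJ j hj).1
  have hmb : ∀ j ∈ J, ∀ r', Ord V (p l) (s (Sum.inl (ty j, 1))) r' → 3 * μ (ty j) ≤ r' :=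
    fun j hj => hge (Sum.inl (Sum.inl (Sum.inl (ty j, 1)))) _ (hJ j hj).2.1
  have heq : ∀ (i : Coord g r q ⊕ Fin N) (t : ℚ), w i = (t : WithTop ℚ) → Ord V (p l) (z i) t := by
    intro i t hi
    by_cases h0 : z i = 0
    · rw [hw0 _ h0] at hi
      exact absurd hi.symm (WithTop.coe_ne_top)
    · rw [hw1 _ h0] at hi
      have h2 := hord _ h0
      rw [WithTop.coe_injective hi] at h2
      exact h2
  exact prod_bound (hp l) hV hrat hu2 hu3 ty (a := fun k => s (Sum.inl (k, 0)))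
    (b := fun k => s (Sum.inl (k, 1))) hdisc P cls 𝒟 (fun n hn => hunit n (h𝒟 n hn l)) hS μ J
    (fun j hj => scale_of hp0 hp1 hrat (hma j hj) (hmb j hj)
      ((hJ j hj).2.2.1.imp (heq _ _) (heq _ _)))
    hma hmb x hxz (fun j hj => (hJ j hj).2.2.2.2) hJcard hdis

/-- From points to irreducible sets. -/
theorem noAtypical_of {K₁ : Type} [Field K₁] [Algebra K₁ ℂ] [Countable K₁]
    (𝒞 : Set (Fin g → Fin g)) (𝒟 : Set ℕ) (m : ℕ) (X : ∀ s : Base g r, Fibre ty s → Prop)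
    (h : ∀ ρ ≤ m + 1, ∀ s P, X s P → InSubC 𝒞 𝒟 ρ s P → ∀ T : Finset (Coord g r q),
      AlgebraicIndependent K₁ (fun i : T => point s P i) → T.card + ρ ≤ m) :
    NoAtypical K₁ 𝒞 𝒟 m X := by
  intro ρ hρm
  refine ⟨h ρ hρm, fun W f hW hcl hprime hf => ?_⟩
  obtain ⟨w, hwW, hw0, T, hT, hdim⟩ := Pool.Agent.W282.SI.generic_dim' K₁ W hprime
    (β := Unit) (fun _ => f) fun _ => hf
  obtain ⟨s, P, hw, hX, hρ⟩ := hW w (hcl hwW) (hw0 ())
  rw [hw] at hT
  have h4 := h ρ hρm s P hX hρ T hT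
  calc zdim W + (ρ : Cardinal) ≤ (T.card : Cardinal) + (ρ : Cardinal) := by gcongr
    _ = ((T.card + ρ : ℕ) : Cardinal) := by push_cast; rfl
    _ ≤ (m : Cardinal) := by exact_mod_cast h4

/-- The local criterion. -/
theorem core (𝒞 : Set (Fin g → Fin g)) (m : ℕ)
    (supp : κ → Finset ((Coord g r q ⊕ Fin N) →₀ ℕ))
    (c : κ → ((Coord g r q ⊕ Fin N) →₀ ℕ) → ℂ) (e : I → κ → ((Coord g r q ⊕ Fin N) →₀ ℕ) → ℕ)
    (hgen : Generic ty 𝒞 m supp e) (p : I → ℕ) (hp : ∀ l, (p l).Prime) (hp5 : ∀ l, 5 ≤ p l)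
    (he : ∀ l j, ∀ β ∈ supp j, OrdAt (p l) (c j β) (e l j β)) :
    NoAtypical ℚ 𝒞 {n | ∀ l, ¬ p l ∣ n} m (OnX (ty := ty) supp c) := by
  refine noAtypical_of 𝒞 _ m _ fun ρ hρm s P hX hρ T hT => ?_
  refine point_bound (K₁ := ℚ) 𝒞 _ m supp c e hgen p hp hp5 (fun n hn => hn)
    (fun l T x hx n hn k => ?_) hX hρm hρ T hT
  obtain ⟨V, hV, hVx, hrat⟩ := exists_val_prescribed x hx (hp l) n hn k
  exact ⟨V, hV, hVx, hrat, fun j β hβ => he l j β hβ V hV⟩

end Pool.Agent.T9h40.Prod
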