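import Pool.Agent.T9h40.Prod.Red

/-!
The abscissa functions of elliptic curves: doubling, and residue classes of abscissas (helper file for
Pink's conjecture for products of different elliptic schemes).
-/

set_option autoImplicit false

namespace Pool.Agent.T9h40.Prod

open WeierstrassCurve WeierstrassCurve.Affine
open Pool.Agent.Results.MP_28d749_ag.RandomMultisections (curve xCoord xCoord_eq)

/-- The function `ξ` on an abelian group behaves like the abscissa on the smooth curve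
`y² = ξ³ + a ξ + b`. -/
structure Law2 {G : Type} [AddCommGroup G] (ξ : G → ℂ) (a b : ℂ) : Prop where
  law : Law ξ 0 a b
  smooth : 4 * a ^ 3 + 27 * b ^ 2 ≠ 0
  surj : ∀ t, ∃ P, P ≠ 0 ∧ ξ P = t
  neg : ∀ P, ξ (-P) = ξ P
  two : ∀ P, P ≠ 0 → (P + P = 0 ↔ ξ P ^ 3 + a * ξ P + b = 0)
  dbl : ∀ P, P ≠ 0 → P + P ≠ 0 →
    ξ (P + P) * (4 * (ξ P ^ 3 + a * ξ P + b)) = (ξ P ^ 2 - a) ^ 2 - 8 * b * ξ P

theorem law2_curve {a b : ℂ} (h : 4 * a ^ 3 + 27 * b ^ 2 ≠ 0) {z : ℂ} (hz : z ≠ 0) :
    Law2 (fun P : (curve a b).Point => z ^ 2 * xCoord P) (z ^ 4 * a) (z ^ 6 * b) := by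
  have hz2 : z ^ 2 ≠ 0 := pow_ne_zero 2 hz
  have heq : ∀ {x y : ℂ}, (curve a b).Nonsingular x y → y ^ 2 = x ^ 3 + a * x + b := by
    intro x y h
    have h1 := (equation_iff (W := curve a b) x y).1 h.1
    linear_combination h1
  have hneg : ∀ (x y : ℂ), (curve a b).negY x y = -y := by
    intro x y
    simp [negY]
  refine ⟨?_, ?_, ?_, ?_, ?_, ?_⟩
  · have h1 := law_curve (a := a) (b := b) hz 0
    have e1 : (3 * 0 : ℂ) = 0 := by ring
    have e2 : 3 * 0 ^ 2 + z ^ 4 * a = z ^ 4 * a := by ring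
    have e3 : 0 ^ 3 + z ^ 4 * a * 0 + z ^ 6 * b = z ^ 6 * b := by ring
    rw [e1, e2, e3] at h1
    have e4 : (fun P : (curve a b).Point => z ^ 2 * xCoord P - 0) =
        fun P : (curve a b).Point => z ^ 2 * xCoord P := by
      funext P
      rw [sub_zero]
    rwa [e4] at h1
  · intro h0
    apply h
    have h1 : z ^ 12 * (4 * a ^ 3 + 27 * b ^ 2) = 0 := by linear_combination h0
    exact (mul_eq_zero.1 h1).resolve_left (pow_ne_zero 12 hz)
  · intro t
    obtain ⟨P, hP0, hPX⟩ := Pool.Agent.TH971.RF.exists_point (X := (z ^ 2)⁻¹ * t) h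
    refine ⟨P, hP0, ?_⟩
    have h5 : xCoord (a := a) (b := b) P = (z ^ 2)⁻¹ * t := (xCoord_eq P).trans hPX
    rw [h5, mul_inv_cancel_left₀ hz2]
  · intro P
    rcases P with _ | ⟨x, y, hxy⟩
    · rfl
    · rfl
  · intro P hP
    rcases P with _ | ⟨x, y, hxy⟩
    · exact absurd rfl hP
    have e1 := heq hxy
    change ((Point.some x y hxy : (curve a b).Point) + Point.some x y hxy = 0) ↔
      (z ^ 2 * x) ^ 3 + z ^ 4 * a * (z ^ 2 * x) + z ^ 6 * b = 0
    by_cases hy : y = 0
    · have h1 : y = (curve a b).negY x y := by rw [hneg, hy, neg_zero]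
      refine ⟨fun _ => ?_, fun _ => Point.add_self_of_Y_eq h1⟩
      have h2 : x ^ 3 + a * x + b = 0 := by
        rw [← e1, hy]
        ring
      linear_combination z ^ 6 * h2
    · have h1 : y ≠ (curve a b).negY x y := by
        rw [hneg]
        intro h2
        apply hy
        have h3 : (2 : ℂ) * y = 0 := by linear_combination h2
        exact (mul_eq_zero.1 h3).resolve_left two_ne_zero
      refine ⟨fun h2 => ?_, fun h2 => ?_⟩
      · rw [Point.add_self_of_Y_ne h1] at h2
        exact absurd h2 (Point.some_ne_zero _)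
      · exfalso
        have h3 : z ^ 6 * (x ^ 3 + a * x + b) = 0 := by linear_combination h2
        have h4 := (mul_eq_zero.1 h3).resolve_left (pow_ne_zero 6 hz)
        rw [← e1] at h4
        exact hy (pow_eq_zero_iff two_ne_zero |>.1 h4)
  · intro P hP hP2
    rcases P with _ | ⟨x, y, hxy⟩
    · exact absurd rfl hP
    have e1 := heq hxy
    have hy : y ≠ 0 := by
      intro hy
      apply hP2
      have h1 : y = (curve a b).negY x y := by rw [hneg, hy, neg_zero]
      exact Point.add_self_of_Y_eq h1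
    have h1 : y ≠ (curve a b).negY x y := by
      rw [hneg]
      intro h2
      apply hy
      have h3 : (2 : ℂ) * y = 0 := by linear_combination h2
      exact (mul_eq_zero.1 h3).resolve_left two_ne_zero
    have h2 : xCoord ((Point.some x y hxy : (curve a b).Point) + Point.some x y hxy) =
        ((3 * x ^ 2 + a) / (2 * y)) ^ 2 - 2 * x := by
      rw [Point.add_self_of_Y_ne h1]
      change (curve a b).addX x x ((curve a b).slope x x y y) = _
      rw [slope_of_Y_ne rfl h1, addX, hneg]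
      simp only [mul_zero, zero_mul, add_zero, sub_zero]
      have h3 : y - -y = 2 * y := by ring
      rw [h3]
      ring
    simp only [h2]
    change z ^ 2 * (((3 * x ^ 2 + a) / (2 * y)) ^ 2 - 2 * x) *
      (4 * ((z ^ 2 * x) ^ 3 + z ^ 4 * a * (z ^ 2 * x) + z ^ 6 * b)) =
      ((z ^ 2 * x) ^ 2 - z ^ 4 * a) ^ 2 - 8 * (z ^ 6 * b) * (z ^ 2 * x)
    have h3 : (z ^ 2 * x) ^ 3 + z ^ 4 * a * (z ^ 2 * x) + z ^ 6 * b = z ^ 6 * y ^ 2 := by
      rw [e1]
      ring
    rw [h3, div_pow]
    have h4 : z ^ 2 * ((3 * x ^ 2 + a) ^ 2 / (2 * y) ^ 2 - 2 * x) * (4 * (z ^ 6 * y ^ 2)) =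
        z ^ 8 * ((3 * x ^ 2 + a) ^ 2 - 8 * x * y ^ 2) := by
      field_simp
      ring
    rw [h4, e1]
    ring

/-- The law with another origin of the coordinate. -/
theorem Law.shift {G : Type} [AddCommGroup G] {ξ : G → ℂ} {a b : ℂ} (h : Law ξ 0 a b) (e : ℂ) :
    Law (fun P => ξ P - e) (3 * e) (3 * e ^ 2 + a) (e ^ 3 + a * e + b) := by
  refine ⟨fun P Q hP hQ hPQ => h.inj P Q hP hQ (sub_left_inj.1 hPQ), fun P Q hP hQ hPQ =>
    h.add_ne P Q hP hQ fun h1 => hPQ (by rw [h1]), fun P Q hP hQ hPQ => ?_,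
    fun P Q hP hQ hPQ => ?_⟩
  · have h1 : ξ P ≠ ξ Q := fun h1 => hPQ (by rw [h1])
    have h2 := h.sum P Q hP hQ h1
    linear_combination h2
  · have h1 : ξ P ≠ ξ Q := fun h1 => hPQ (by rw [h1])
    have h2 := h.sum P Q hP hQ h1
    have h3 := h.prod P Q hP hQ h1
    linear_combination h3 - e * h2

section residue

variable {V : ValuationSubring ℂ}

theorem val_le {z : ℂ} (hz : z ∈ V) : V.valuation z ≤ 1 :=
  (ValuationSubring.valuation_le_one_iff _ _).2 hz

theorem val_mem {z : ℂ} (hz : V.valuation z ≤ 1) : z ∈ V :=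
  (ValuationSubring.valuation_le_one_iff _ _).1 hz

theorem mul_lt_left {z w : ℂ} (hz : V.valuation z < 1) (hw : w ∈ V) : V.valuation (z * w) < 1 := by
  rw [map_mul]
  exact (mul_le_of_le_one_right' (val_le hw)).trans_lt hz

theorem mul_lt_right {z w : ℂ} (hz : z ∈ V) (hw : V.valuation w < 1) : V.valuation (z * w) < 1 := by
  rw [mul_comm]
  exact mul_lt_left hw hz

theorem nat_mem (n : ℕ) : (n : ℂ) ∈ V := natCast_mem V n

theorem sub_lt' {s t : ℂ} {r : V.ValueGroup} (h1 : V.valuation s < r) (h2 : V.valuation t < r) :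
    V.valuation (s - t) < r := by
  rw [sub_eq_add_neg]
  exact add_lt' h1 (by rwa [Valuation.map_neg])

/-- The residue class of `x` is the abscissa of a singular point of the reduction. -/
def Sing (V : ValuationSubring ℂ) (a b x : ℂ) : Prop :=
  V.valuation (x ^ 3 + a * x + b) < 1 ∧ V.valuation (3 * x ^ 2 + a) < 1

theorem sing_unique (h2 : V.valuation (2 : ℂ) = 1) (h3 : V.valuation (3 : ℂ) = 1) {a b x y : ℂ}
    (hx : x ∈ V) (hy : y ∈ V) (hab : V.valuation a = 1 ∨ V.valuation b = 1)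
    (h : Sing V a b x) (h' : Sing V a b y) : V.valuation (x - y) < 1 := by
  by_contra hcon
  push Not at hcon
  have hd1 : V.valuation (x - y) = 1 := le_antisymm (val_le (sub_mem hx hy)) hcon
  have h3V : (3 : ℂ) ∈ V := val_mem h3.le
  have h2V : (2 : ℂ) ∈ V := val_mem h2.le
  have hp : V.valuation (x + y) < 1 := by
    have e : 3 * (x - y) * (x + y) = (3 * x ^ 2 + a) - (3 * y ^ 2 + a) := by ring
    have h5 := sub_lt' h.2 h'.2
    rwa [← e, map_mul, map_mul, h3, hd1, one_mul, one_mul] at h5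
  have hx3 : V.valuation x < 1 := by
    have e : 2 * (2 * x ^ 3) = ((y ^ 3 + a * y + b) - y * (3 * y ^ 2 + a)) -
        ((x ^ 3 + a * x + b) - x * (3 * x ^ 2 + a)) + (x + y) * (2 * (x ^ 2 - x * y + y ^ 2)) := by
      ring
    have h5 : V.valuation (2 * (2 * x ^ 3)) < 1 := by
      rw [e]
      refine add_lt' (sub_lt' (sub_lt' h'.1 (mul_lt_right hy h'.2))
        (sub_lt' h.1 (mul_lt_right hx h.2))) (mul_lt_left hp ?_)
      exact mul_mem h2V (add_mem (sub_mem (pow_mem hx 2) (mul_mem hx hy)) (pow_mem hy 2))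
    rw [map_mul, map_mul, h2, one_mul, one_mul, map_pow] at h5
    exact (pow_lt_one_iff (by norm_num)).1 h5
  have ha : V.valuation a < 1 := by
    have e : a = (3 * x ^ 2 + a) - x * (3 * x) := by ring
    rw [e]
    exact sub_lt' h.2 (mul_lt_left hx3 (mul_mem h3V hx))
  have hb : V.valuation b < 1 := by
    have e : b = (x ^ 3 + a * x + b) - x * (x ^ 2) - a * x := by ring
    rw [e]
    exact sub_lt' (sub_lt' h.1 (mul_lt_left hx3 (pow_mem hx 2))) (mul_lt_left ha hx)
  rcases hab with h5 | h5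
  · rw [h5] at ha
    exact lt_irrefl _ ha
  · rw [h5] at hb
    exact lt_irrefl _ hb

end residue

end Pool.Agent.T9h40.Prod
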