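import Pool.Agent.T9h40.Prod.Mul1

/-!
General points, the points near the origin, and torsion points of two-power order (helper file for
Pink's conjecture for products of different elliptic schemes).
-/

set_option autoImplicit false

namespace Pool.Agent.T9h40.Prod

open Polynomial

variable {V : ValuationSubring ℂ}

theorem unitCoef_of_monic {F : ℂ[X]} (hF : ∀ i, F.coeff i ∈ V) (hm : F.Monic) : UnitCoef V F :=
  ⟨hF, F.natDegree, by rw [hm.coeff_natDegree, map_one]⟩

theorem root_mem {F : ℂ[X]} (hF : ∀ i, F.coeff i ∈ V) (hm : F.Monic) {x : ℂ}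
    (hx : F.eval x = 0) : x ∈ V := by
  have h1 : F ∈ Polynomial.lifts (algebraMap V ℂ) := by
    rw [Polynomial.lifts_iff_coeff_lifts]
    intro n
    exact ⟨⟨_, hF n⟩, rfl⟩
  obtain ⟨f, hf, -, hfm⟩ := lifts_and_natDegree_eq_and_monic h1 hm
  have h2 : IsIntegral V x := by
    refine ⟨f, hfm, ?_⟩
    rw [← eval_map, hf, hx]
  obtain ⟨y, hy⟩ := IsIntegrallyClosed.isIntegral_iff.1 h2
  rw [← hy]
  exact y.2

theorem fpol_unit' (h2 : V.valuation (2 : ℂ) = 1) {a b x β : ℂ} (ha : a ∈ V) (hb : b ∈ V)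
    (hx : x ∈ V) (hβ : β ∈ V) (hns : ¬ Sing V a b x) : UnitCoef V (Fpol a b x β) := by
  have h2V : (2 : ℂ) ∈ V := val_mem h2.le
  have h4V : (4 : ℂ) ∈ V := by exact_mod_cast nat_mem 4
  obtain ⟨c2, c1, c0, c3⟩ := quad_coeff ((β - x) ^ 2) (-2 * ((β + x) * (β * x + a) + 2 * b))
    ((β * x - a) ^ 2 - 4 * b * (β + x))
  change (Fpol a b x β).coeff 2 = _ at c2
  change (Fpol a b x β).coeff 1 = _ at c1
  change (Fpol a b x β).coeff 0 = _ at c0
  have m2 : (β - x) ^ 2 ∈ V := pow_mem (sub_mem hβ hx) 2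
  have m1 : -2 * ((β + x) * (β * x + a) + 2 * b) ∈ V :=
    mul_mem (neg_mem h2V) (add_mem (mul_mem (add_mem hβ hx) (add_mem (mul_mem hβ hx) ha))
      (mul_mem h2V hb))
  have m0 : (β * x - a) ^ 2 - 4 * b * (β + x) ∈ V :=
    sub_mem (pow_mem (sub_mem (mul_mem hβ hx) ha) 2) (mul_mem (mul_mem h4V hb) (add_mem hβ hx))
  refine ⟨fun i => ?_, ?_⟩
  · rcases i with _ | _ | _ | i
    · rw [c0]; exact m0
    · rw [zero_add, c1]; exact m1
    · rw [c2]; exact m2
    · have h0 : (Fpol a b x β).coeff (i + 1 + 1 + 1) = 0 := c3 i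
      rw [h0]
      exact V.zero_mem
  · by_contra hcon
    push Not at hcon
    have n2 : V.valuation ((β - x) ^ 2) < 1 := by
      have := hcon 2
      rw [c2] at this
      exact lt_of_le_of_ne (val_le m2) this
    have n1 : V.valuation (-2 * ((β + x) * (β * x + a) + 2 * b)) < 1 := by
      have := hcon 1
      rw [c1] at this
      exact lt_of_le_of_ne (val_le m1) this
    have n0 : V.valuation ((β * x - a) ^ 2 - 4 * b * (β + x)) < 1 := by
      have := hcon 0
      rw [c0] at this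
      exact lt_of_le_of_ne (val_le m0) this
    have nd : V.valuation (β - x) < 1 := by
      rw [map_pow] at n2
      exact (pow_lt_one_iff two_ne_zero).1 n2
    apply hns
    -- `f(x)` is small
    have nf : V.valuation (x ^ 3 + a * x + b) < 1 := by
      have h4u : V.valuation (4 : ℂ) = 1 := by
        have : (4 : ℂ) = 2 * 2 := by norm_num
        rw [this, map_mul, h2, one_mul]
      have h5 : V.valuation (4 * (x ^ 3 + a * x + b)) < 1 := by
        have e : 4 * (x ^ 3 + a * x + b) = -(-2 * ((β + x) * (β * x + a) + 2 * b)) +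
            -((β - x) * (2 * (β * x + a) + 4 * x ^ 2)) := by ring
        rw [e]
        refine add_lt' (by rw [Valuation.map_neg]; exact n1) ?_
        rw [Valuation.map_neg]
        refine mul_lt_left nd (add_mem (mul_mem h2V (add_mem (mul_mem hβ hx) ha))
          (mul_mem h4V (pow_mem hx 2)))
      rwa [map_mul, h4u, one_mul] at h5
    refine ⟨nf, ?_⟩
    have h5 : V.valuation ((3 * x ^ 2 + a) ^ 2) < 1 := by
      have e : (3 * x ^ 2 + a) ^ 2 = ((β * x - a) ^ 2 - 4 * b * (β + x)) +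
          (-((β - x) * (x * (β * x - a + (x * x - a)) - 4 * b)) +
            (x ^ 3 + a * x + b) * (8 * x)) := by ring
      rw [e]
      refine add_lt' n0 (add_lt' ?_ (mul_lt_left nf (by
        have h8 : (8 : ℂ) ∈ V := by exact_mod_cast nat_mem 8
        exact mul_mem h8 hx)))
      rw [Valuation.map_neg]
      exact mul_lt_left nd (sub_mem (mul_mem hx (add_mem (sub_mem (mul_mem hβ hx) ha)
        (sub_mem (mul_mem hx hx) ha))) (mul_mem h4V hb))
    rw [map_pow] at h5
    exact (pow_lt_one_iff two_ne_zero).1 h5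

/-- The number avoids the residue classes of the elements of `D`. -/
def Gen (V : ValuationSubring ℂ) (D : Finset ℂ) (x : ℂ) : Prop :=
  x ∈ V ∧ ∀ β ∈ D, V.valuation (x - β) = 1

theorem Gen.mono {D D' : Finset ℂ} (h : D' ⊆ D) {x : ℂ} (hx : Gen V D x) : Gen V D' x :=
  ⟨hx.1, fun β hβ => hx.2 β (h hβ)⟩

theorem choose_gen {D : Finset ℂ} (hD : ∀ β ∈ D, β ∈ V) (S : Finset ℂ[X])
    (hS : ∀ F ∈ S, UnitCoef V F) : ∃ t, Gen V D t ∧ ∀ F ∈ S, V.valuation (F.eval t) = 1 := by
  classical
  have hlin : ∀ β ∈ V, UnitCoef V (X - C β) := by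
    intro β hβ
    refine ⟨fun i => ?_, 1, ?_⟩
    · rw [coeff_sub, coeff_X, coeff_C]
      refine sub_mem ?_ ?_
      · split_ifs
        · exact V.one_mem
        · exact V.zero_mem
      · split_ifs
        · exact hβ
        · exact V.zero_mem
    · rw [coeff_sub, coeff_X_one, coeff_C, if_neg one_ne_zero, sub_zero, map_one]
  obtain ⟨t, ht, hS'⟩ := avoid V ((D.image fun β => X - C β) ∪ S) id (by
      intro F hF
      rcases Finset.mem_union.1 hF with hF | hF
      · obtain ⟨β, hβ, rfl⟩ := Finset.mem_image.1 hF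
        exact hlin β (hD β hβ)
      · exact hS F hF)
  refine ⟨t, ⟨ht, fun β hβ => ?_⟩, fun F hF => hS' F (Finset.mem_union_right _ hF)⟩
  have h1 := hS' (X - C β) (Finset.mem_union_left _ (Finset.mem_image_of_mem _ hβ))
  simpa using h1

variable {G : Type} [AddCommGroup G] {ξ : G → ℂ} {a b : ℂ}

theorem pm_gen (h2 : V.valuation (2 : ℂ) = 1) (ha : a ∈ V) (hb : b ∈ V) (hG : Law ξ 0 a b)
    {D : Finset ℂ} (hD : ∀ β ∈ D, β ∈ V) {P P2 : G} (hP : P ≠ 0) (hP2 : P2 ≠ 0)
    (hx : ξ P ∈ V) (ht : ξ P2 ∈ V) (hd : V.valuation (ξ P - ξ P2) = 1)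
    (hF : ∀ β ∈ D, V.valuation ((Fpol a b (ξ P) β).eval (ξ P2)) = 1) :
    (P + P2 ≠ 0 ∧ P - P2 ≠ 0) ∧ Gen V D (ξ (P + P2)) ∧ Gen V D (ξ (P - P2)) := by
  have h2V : (2 : ℂ) ∈ V := val_mem h2.le
  have h4V : (4 : ℂ) ∈ V := by exact_mod_cast nat_mem 4
  have hne : ξ P ≠ ξ P2 := by
    intro h
    rw [h, sub_self, map_zero] at hd
    exact zero_ne_one hd
  have hs := hG.sum P P2 hP hP2 hne
  have hp := hG.prod P P2 hP hP2 hne
  have hsV : V.valuation (ξ (P + P2) + ξ (P - P2)) ≤ 1 := by
    have h1 := congrArg V.valuation hs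
    rw [map_mul, map_pow, hd, one_pow, mul_one] at h1
    rw [h1]
    refine val_le ?_
    exact mul_mem h2V (add_mem (add_mem (mul_mem (add_mem hx ht) (add_mem (mul_mem hx ht) ha))
      (mul_mem (mul_mem h2V V.zero_mem) (mul_mem hx ht))) (mul_mem h2V hb))
  have hpV : V.valuation (ξ (P + P2) * ξ (P - P2)) ≤ 1 := by
    have h1 := congrArg V.valuation hp
    rw [map_mul, map_pow, hd, one_pow, mul_one] at h1
    rw [h1]
    refine val_le ?_
    exact sub_mem (pow_mem (sub_mem (mul_mem hx ht) ha) 2) (mul_mem (mul_mem h4V hb)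
      (add_mem (add_mem hx ht) V.zero_mem))
  have h3 := root_le hsV hpV
  have h4 : V.valuation (ξ (P - P2)) ≤ 1 := by
    rw [add_comm] at hsV
    rw [mul_comm] at hpV
    exact root_le hsV hpV
  have hβ : ∀ β ∈ D, V.valuation (ξ (P + P2) - β) = 1 ∧ V.valuation (ξ (P - P2) - β) = 1 := by
    intro β hβ
    have e : (ξ (P + P2) - β) * (ξ (P - P2) - β) * (ξ P - ξ P2) ^ 2 =
        (Fpol a b (ξ P) β).eval (ξ P2) := by
      simp only [Fpol, eval_add, eval_mul, eval_C, eval_pow, eval_X]
      linear_combination hp - β * hs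
    have h5 := congrArg V.valuation e
    rw [map_mul, map_mul, map_pow, hd, one_pow, mul_one, hF β hβ] at h5
    have h6 : V.valuation (ξ (P + P2) - β) ≤ 1 := sub_le' h3 (val_le (hD β hβ))
    have h7 : V.valuation (ξ (P - P2) - β) ≤ 1 := sub_le' h4 (val_le (hD β hβ))
    constructor
    · refine le_antisymm h6 ?_
      rw [← h5]
      exact mul_le_of_le_one_right' h7
    · refine le_antisymm h7 ?_
      rw [← h5]
      exact mul_le_of_le_one_left' h6
  exact ⟨hG.add_ne P P2 hP hP2 hne, ⟨val_mem h3, fun β h => (hβ β h).1⟩,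
    ⟨val_mem h4, fun β h => (hβ β h).2⟩⟩

/-- For every point with integral abscissa which is not near the singular point there is a general
point such that the sum and the difference are general. -/
theorem exists_pm (h2 : V.valuation (2 : ℂ) = 1) (ha : a ∈ V) (hb : b ∈ V) (hG : Law2 ξ a b)
    {D : Finset ℂ} (hD : ∀ β ∈ D, β ∈ V) {P : G} (hP : P ≠ 0) (hx : ξ P ∈ V)
    (hns : ¬ Sing V a b (ξ P)) : ∃ P2, P2 ≠ 0 ∧ Gen V D (ξ P2) ∧
      (P + P2 ≠ 0 ∧ P - P2 ≠ 0) ∧ Gen V D (ξ (P + P2)) ∧ Gen V D (ξ (P - P2)) := by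
  classical
  obtain ⟨t, ht, hF⟩ := choose_gen (V := V) (D := insert (ξ P) D)
    (by
      intro β hβ
      rcases Finset.mem_insert.1 hβ with rfl | h
      · exact hx
      · exact hD β h) (D.image fun β => Fpol a b (ξ P) β)
    (by
      intro F hF
      obtain ⟨β, hβ, rfl⟩ := Finset.mem_image.1 hF
      exact fpol_unit' h2 ha hb hx (hD β hβ) hns)
  obtain ⟨P2, hP2, rfl⟩ := hG.surj t
  refine ⟨P2, hP2, ht.mono (Finset.subset_insert _ _), ?_⟩
  refine pm_gen h2 ha hb hG.law hD hP hP2 hx ht.1 ?_ fun β hβ =>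
    hF _ (Finset.mem_image_of_mem _ hβ)
  rw [Valuation.map_sub_swap]
  exact ht.2 _ (Finset.mem_insert_self _ _)

theorem cubic_monic (a b : ℂ) : (X ^ 3 + C a * X + C b : ℂ[X]).Monic ∧
    (X ^ 3 + C a * X + C b : ℂ[X]).natDegree = 3 := by
  constructor
  · monicity!
  · compute_degree!

theorem cubic_coeff (ha : a ∈ V) (hb : b ∈ V) (i : ℕ) :
    (X ^ 3 + C a * X + C b : ℂ[X]).coeff i ∈ V := by
  rw [coeff_add, coeff_add, coeff_X_pow, coeff_C_mul, coeff_X, coeff_C]
  refine add_mem (add_mem ?_ (mul_mem ha ?_)) ?_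
  · split_ifs
    · exact V.one_mem
    · exact V.zero_mem
  · split_ifs
    · exact V.one_mem
    · exact V.zero_mem
  · split_ifs
    · exact hb
    · exact V.zero_mem

/-- a point whose abscissa is general and `f(x)` is a unit -/
theorem exists_first (ha : a ∈ V) (hb : b ∈ V) (hG : Law2 ξ a b) {D : Finset ℂ}
    (hD : ∀ β ∈ D, β ∈ V) : ∃ P, P ≠ 0 ∧ Gen V D (ξ P) ∧
      V.valuation (ξ P ^ 3 + a * ξ P + b) = 1 := by
  obtain ⟨t, ht, hF⟩ := choose_gen (V := V) hD {X ^ 3 + C a * X + C b}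
    (by
      intro F hF
      rw [Finset.mem_singleton.1 hF]
      exact unitCoef_of_monic (cubic_coeff ha hb) (cubic_monic a b).1)
  obtain ⟨P, hP, rfl⟩ := hG.surj t
  refine ⟨P, hP, ht, ?_⟩
  have h1 := hF _ (Finset.mem_singleton_self _)
  simpa using h1

/-- The points near the origin are a subgroup. -/
theorem hat_add (h2 : V.valuation (2 : ℂ) = 1) (ha : a ∈ V) (hb : b ∈ V) (hG : Law2 ξ a b)
    {S T : G} (hS : S ≠ 0) (hT : T ≠ 0) (h : 1 < V.valuation (ξ S)) (h' : 1 < V.valuation (ξ T)) :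
    S + T = 0 ∨ 1 < V.valuation (ξ (S + T)) := by
  have h4u : V.valuation (4 : ℂ) = 1 := by
    have : (4 : ℂ) = 2 * 2 := by norm_num
    rw [this, map_mul, h2, one_mul]
  have h8u : V.valuation (8 : ℂ) = 1 := by
    have : (8 : ℂ) = 2 * 4 := by norm_num
    rw [this, map_mul, h2, h4u, one_mul]
  by_cases heq : ξ S = ξ T
  · rcases hG.law.inj S T hS hT heq with h1 | h1
    swap
    · left
      rw [h1, neg_add_cancel]
    subst h1
    by_cases h0 : S + S = 0
    · exact Or.inl h0
    right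
    have h3 := congrArg V.valuation (hG.dbl S hS h0)
    set R := V.valuation (ξ S) with hR
    have hR0 : 0 < R := zero_lt_one.trans h
    have e1 : V.valuation (ξ S ^ 3 + a * ξ S + b) = R ^ 3 := by
      rw [add_assoc]
      have h5 : V.valuation (a * ξ S + b) < V.valuation (ξ S ^ 3) := by
        rw [map_pow, ← hR]
        have h6 : V.valuation (a * ξ S + b) ≤ R := by
          refine add_le' ?_ ((val_le hb).trans h.le)
          rw [map_mul]
          exact mul_le_of_le_one_left' (val_le ha)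
        calc _ ≤ R := h6
          _ = R ^ 1 := (pow_one _).symm
          _ < R ^ 3 := pow_lt_pow_right₀ h (by norm_num)
      rw [V.valuation.map_add_eq_of_lt_left h5, map_pow]
    have e2 : V.valuation ((ξ S ^ 2 - a) ^ 2 - 8 * b * ξ S) = R ^ 4 := by
      have h5 : V.valuation (ξ S ^ 2 - a) = R ^ 2 := by
        have h6 : V.valuation a < V.valuation (ξ S ^ 2) := by
          rw [map_pow, ← hR]
          exact (val_le ha).trans_lt (one_lt_pow₀ h two_ne_zero)
        rw [V.valuation.map_sub_eq_of_lt_left h6, map_pow]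
      have h7 : V.valuation (8 * b * ξ S) < V.valuation ((ξ S ^ 2 - a) ^ 2) := by
        rw [map_mul, map_mul, h8u, one_mul, map_pow, h5, ← pow_mul, ← hR]
        calc V.valuation b * R ≤ R := mul_le_of_le_one_left' (val_le hb)
          _ = R ^ 1 := (pow_one _).symm
          _ < R ^ (2 * 2) := pow_lt_pow_right₀ h (by norm_num)
      rw [V.valuation.map_sub_eq_of_lt_left h7, map_pow, h5, ← pow_mul]
    rw [map_mul, map_mul, h4u, one_mul, e1, e2] at h3
    have h5 : V.valuation (ξ (S + S)) = R := by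
      have h6 : R ^ 3 ≠ 0 := (pow_pos hR0 3).ne'
      refine mul_right_cancel₀ h6 ?_
      rw [h3]
      exact pow_succ' R 3
    rw [h5]
    exact h
  right
  wlog hle : V.valuation (ξ T) ≤ V.valuation (ξ S) generalizing S T with H
  · rw [add_comm]
    exact H hT hS h' h (Ne.symm heq) (le_of_not_ge hle)
  have hs := congrArg V.valuation (hG.law.sum S T hS hT heq)
  have hp := congrArg V.valuation (hG.law.prod S T hS hT heq)
  set R := V.valuation (ξ S) with hR
  set R' := V.valuation (ξ T) with hR'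
  have hR0 : 0 < R := zero_lt_one.trans h
  have hR'0 : 0 < R' := zero_lt_one.trans h'
  set d := V.valuation (ξ S - ξ T) with hd
  have hdR : d ≤ R := sub_le' le_rfl hle
  have hd0 : 0 < d := zero_lt_iff.2 ((Valuation.ne_zero_iff _).2 (sub_ne_zero.2 heq))
  have hRR : 1 < R * R' := one_lt_mul'' h h'
  have e1 : V.valuation (ξ S * ξ T - a) = R * R' := by
    have h6 : V.valuation a < V.valuation (ξ S * ξ T) := by
      rw [map_mul]
      exact (val_le ha).trans_lt hRR
    rw [V.valuation.map_sub_eq_of_lt_left h6, map_mul]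
  have e2 : V.valuation (ξ S * ξ T + a) ≤ R * R' := by
    refine add_le' (by rw [map_mul]) ((val_le ha).trans hRR.le)
  have e3 : V.valuation (ξ S + ξ T) ≤ R := add_le' le_rfl hle
  rw [add_zero, map_mul, map_mul, map_pow] at hp
  rw [map_mul, map_pow, map_mul, h2, one_mul, mul_zero, zero_mul, add_zero] at hs
  have e4 : V.valuation ((ξ S * ξ T - a) ^ 2 - 4 * b * (ξ S + ξ T)) = (R * R') ^ 2 := by
    have h6 : V.valuation (4 * b * (ξ S + ξ T)) < V.valuation ((ξ S * ξ T - a) ^ 2) := by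
      rw [map_mul, map_mul, h4u, one_mul, map_pow, e1]
      calc V.valuation b * V.valuation (ξ S + ξ T) ≤ 1 * R := mul_le_mul' (val_le hb) e3
        _ = R * 1 := by rw [one_mul, mul_one]
        _ < R * R' := mul_lt_mul_of_pos_left h' hR0
        _ = (R * R') ^ 1 := (pow_one _).symm
        _ < (R * R') ^ 2 := pow_lt_pow_right₀ hRR (by norm_num)
    rw [V.valuation.map_sub_eq_of_lt_left h6, map_pow, e1]
  rw [e4] at hp
  have e5 : V.valuation ((ξ S + ξ T) * (ξ S * ξ T + a) + 2 * b) ≤ R * (R * R') := by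
    refine add_le' (mul_le' e3 e2) ?_
    rw [map_mul, h2, one_mul]
    exact (val_le hb).trans (one_le_mul h.le hRR.le)
  rw [← hs] at e5
  by_contra hcon
  push Not at hcon
  set A := V.valuation (ξ (S + T)) with hA
  set B := V.valuation (ξ (S - T)) with hB
  have hAB : A < B := by
    by_contra h7
    push Not at h7
    have h8 : A * B ≤ 1 := mul_le_one' hcon (h7.trans hcon)
    have h9 : (R * R') ^ 2 ≤ R * R := by
      rw [← hp, pow_two]
      calc A * B * (d * d) ≤ 1 * (R * R) := mul_le_mul' h8 (mul_le_mul' hdR hdR)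
        _ = R * R := one_mul _
    have h10 : R * R < (R * R') ^ 2 := by
      rw [pow_two]
      have h11 : R < R * R' := by
        calc R = R * 1 := (mul_one _).symm
          _ < R * R' := mul_lt_mul_of_pos_left h' hR0
      exact mul_lt_mul'' h11 h11 zero_le zero_le
    exact absurd h9 (not_le.2 h10)
  rw [V.valuation.map_add_eq_of_lt_right hAB, ← hB] at e5
  have h9 : (R * R') ^ 2 ≤ R * (R * R') := by
    calc (R * R') ^ 2 = A * (B * d ^ 2) := by rw [← hp, mul_assoc]
      _ ≤ 1 * (R * (R * R')) := mul_le_mul' hcon e5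
      _ = R * (R * R') := one_mul _
  have h10 : R * (R * R') < (R * R') ^ 2 := by
    rw [pow_two]
    have h11 : R < R * R' := by
      calc R = R * 1 := (mul_one _).symm
        _ < R * R' := mul_lt_mul_of_pos_left h' hR0
    exact mul_lt_mul_of_pos_right h11 (mul_pos hR0 hR'0)
  exact absurd h9 (not_le.2 h10)

end Pool.Agent.T9h40.Prod
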