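import Pool.Agent.T9h40.Prod.Mul2

/-!
Torsion points of two-power order with nonsingular reduction (helper file for Pink's conjecture for
products of different elliptic schemes).
-/

set_option autoImplicit false

namespace Pool.Agent.T9h40.Prod

open Polynomial

variable {V : ValuationSubring ℂ}

theorem sum_near {e : ℂ} (s : Multiset ℂ) (h : ∀ r ∈ s, V.valuation (r - e) < 1) :
    V.valuation (s.sum - s.card * e) < 1 := by
  induction s using Multiset.induction_on with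
  | empty => simp
  | cons r s ih =>
    rw [Multiset.sum_cons, Multiset.card_cons]
    have e1 : r + s.sum - ((s.card + 1 : ℕ) : ℂ) * e = (r - e) + (s.sum - s.card * e) := by
      push_cast
      ring
    rw [e1]
    exact add_lt' (h r (Multiset.mem_cons_self _ _))
      (ih fun r' hr' => h r' (Multiset.mem_cons_of_mem hr'))

theorem sing_near {a b x y : ℂ} (ha : a ∈ V) (hx : x ∈ V) (hy : y ∈ V)
    (h : Sing V a b x) (hxy : V.valuation (y - x) < 1) : Sing V a b y := by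
  have h3V : (3 : ℂ) ∈ V := by exact_mod_cast nat_mem 3
  constructor
  · have e : y ^ 3 + a * y + b = (x ^ 3 + a * x + b) +
        (y - x) * (y ^ 2 + x * y + x ^ 2 + a) := by ring
    rw [e]
    exact add_lt' h.1 (mul_lt_left hxy (add_mem (add_mem (add_mem (pow_mem hy 2)
      (mul_mem hx hy)) (pow_mem hx 2)) ha))
  · have e : 3 * y ^ 2 + a = (3 * x ^ 2 + a) + (y - x) * (3 * (y + x)) := by ring
    rw [e]
    exact add_lt' h.2 (mul_lt_left hxy (mul_mem h3V (add_mem hy hx)))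

theorem quartic (c3 c2 c1 c0 : ℂ) :
    (X ^ 4 + C c3 * X ^ 3 + C c2 * X ^ 2 + C c1 * X + C c0 : ℂ[X]).Monic ∧
    (X ^ 4 + C c3 * X ^ 3 + C c2 * X ^ 2 + C c1 * X + C c0 : ℂ[X]).natDegree = 4 ∧
    (X ^ 4 + C c3 * X ^ 3 + C c2 * X ^ 2 + C c1 * X + C c0 : ℂ[X]).nextCoeff = c3 := by
  have h1 : (X ^ 4 + C c3 * X ^ 3 + C c2 * X ^ 2 + C c1 * X + C c0 : ℂ[X]).natDegree = 4 := by
    compute_degree!
  refine ⟨by monicity!, h1, ?_⟩
  rw [nextCoeff_of_natDegree_pos (by rw [h1]; norm_num), h1]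
  simp

theorem quartic_coeff {c3 c2 c1 c0 : ℂ} (h3 : c3 ∈ V) (h2 : c2 ∈ V) (h1 : c1 ∈ V) (h0 : c0 ∈ V)
    (i : ℕ) : (X ^ 4 + C c3 * X ^ 3 + C c2 * X ^ 2 + C c1 * X + C c0 : ℂ[X]).coeff i ∈ V := by
  have hite : ∀ (p : Prop) [Decidable p], (if p then (1 : ℂ) else 0) ∈ V := by
    intro p _
    split_ifs
    · exact V.one_mem
    · exact V.zero_mem
  rw [coeff_add, coeff_add, coeff_add, coeff_add, coeff_X_pow, coeff_C_mul, coeff_X_pow,
    coeff_C_mul, coeff_X_pow, coeff_C_mul, coeff_X, coeff_C]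
  refine add_mem (add_mem (add_mem (add_mem (hite _) (mul_mem h3 (hite _)))
    (mul_mem h2 (hite _))) (mul_mem h1 (hite _))) ?_
  split_ifs
  · exact h0
  · exact V.zero_mem

theorem cubic_next (a b : ℂ) : (X ^ 3 + C a * X + C b : ℂ[X]).nextCoeff = 0 := by
  rw [nextCoeff_of_natDegree_pos (by rw [(cubic_monic a b).2]; norm_num), (cubic_monic a b).2]
  simp

variable {G : Type} [AddCommGroup G] {ξ : G → ℂ} {a b : ℂ}

theorem unit_of_two (h2 : V.valuation (2 : ℂ) = 1) : V.valuation (4 : ℂ) = 1 := by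
  have : (4 : ℂ) = 2 * 2 := by norm_num
  rw [this, map_mul, h2, one_mul]

theorem halve (h2 : V.valuation (2 : ℂ) = 1) (h3 : V.valuation (3 : ℂ) = 1) (ha : a ∈ V)
    (hb : b ∈ V) (hab : V.valuation a = 1 ∨ V.valuation b = 1) (hG : Law2 ξ a b) {T : G}
    (hT : T ≠ 0) (hTV : ξ T ∈ V) (hns : ¬ Sing V a b (ξ T)) :
    ∃ Q, Q ≠ 0 ∧ Q + Q = T ∧ ξ Q ∈ V ∧ ¬ Sing V a b (ξ Q) := by
  have h2V : (2 : ℂ) ∈ V := val_mem h2.le
  have h4V : (4 : ℂ) ∈ V := by exact_mod_cast nat_mem 4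
  have h8V : (8 : ℂ) ∈ V := by exact_mod_cast nat_mem 8
  set t := ξ T with ht
  set H : ℂ[X] := X ^ 4 + C (-4 * t) * X ^ 3 + C (-2 * a) * X ^ 2 + C (-(8 * b + 4 * t * a)) * X +
    C (a ^ 2 - 4 * t * b) with hH
  obtain ⟨hm, hdeg, hnext⟩ := quartic (-4 * t) (-2 * a) (-(8 * b + 4 * t * a)) (a ^ 2 - 4 * t * b)
  rw [← hH] at hm hdeg hnext
  have hcV : ∀ i, H.coeff i ∈ V := quartic_coeff (mul_mem (neg_mem h4V) hTV)
    (mul_mem (neg_mem h2V) ha) (neg_mem (add_mem (mul_mem h8V hb) (mul_mem (mul_mem h4V hTV) ha)))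
    (sub_mem (pow_mem ha 2) (mul_mem (mul_mem h4V hTV) hb))
  have hev : ∀ x, H.eval x = (x ^ 2 - a) ^ 2 - 8 * b * x - 4 * t * (x ^ 3 + a * x + b) := by
    intro x
    rw [hH]
    simp only [eval_add, eval_mul, eval_C, eval_pow, eval_X]
    ring
  have hsplit := IsAlgClosed.splits H
  have hcard : H.roots.card = 4 := by
    rw [← hsplit.natDegree_eq_card_roots, hdeg]
  have hrootsV : ∀ r ∈ H.roots, r ∈ V := fun r hr =>
    root_mem hcV hm (isRoot_of_mem_roots hr)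
  obtain ⟨x, hxr, hxs⟩ : ∃ x ∈ H.roots, ¬ Sing V a b x := by
    by_contra hcon
    push Not at hcon
    obtain ⟨e, he⟩ := Multiset.card_pos_iff_exists_mem.1 (by rw [hcard]; norm_num)
    have h5 := sum_near (V := V) (e := e) H.roots fun r hr =>
      sing_unique h2 h3 (hrootsV r hr) (hrootsV e he) hab (hcon r hr) (hcon e he)
    have h6 := hsplit.nextCoeff_eq_neg_sum_roots_of_monic hm
    rw [hnext] at h6
    have h7 : H.roots.sum - (H.roots.card : ℂ) * e = 4 * (t - e) := by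
      rw [hcard]
      push_cast
      linear_combination h6
    rw [h7, map_mul, unit_of_two h2, one_mul] at h5
    exact hns (sing_near ha (hrootsV e he) hTV (hcon e he) h5)
  have hxV := hrootsV x hxr
  have hx0 : (x ^ 2 - a) ^ 2 - 8 * b * x - 4 * t * (x ^ 3 + a * x + b) = 0 := by
    rw [← hev]
    exact isRoot_of_mem_roots hxr
  obtain ⟨Q, hQ, hQx⟩ := hG.surj x
  have hf0 : x ^ 3 + a * x + b ≠ 0 := by
    intro h5
    apply hxs
    have h6 : (3 * x ^ 2 + a) ^ 2 = 0 := by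
      have hb' : b = -(x ^ 3 + a * x) := by linear_combination h5
      rw [h5, mul_zero, sub_zero, hb'] at hx0
      rw [← hx0]
      ring
    refine ⟨by rw [h5, map_zero]; exact zero_lt_one, ?_⟩
    rw [pow_eq_zero_iff two_ne_zero |>.1 h6, map_zero]
    exact zero_lt_one
  have hQQ : Q + Q ≠ 0 := by
    intro h5
    apply hf0
    rw [← hQx]
    exact (hG.two Q hQ).1 h5
  have h5 := hG.dbl Q hQ hQQ
  rw [hQx] at h5
  have h6 : ξ (Q + Q) = ξ T := by
    have h7 : 4 * (x ^ 3 + a * x + b) ≠ 0 := mul_ne_zero (by norm_num) hf0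
    refine mul_right_cancel₀ h7 ?_
    rw [h5]
    linear_combination hx0
  rcases hG.law.inj _ _ hQQ hT h6 with h7 | h7
  · exact ⟨Q, hQ, h7, by rw [hQx]; exact hxV, by rw [hQx]; exact hxs⟩
  · refine ⟨-Q, neg_ne_zero.2 hQ, ?_, by rw [hG.neg, hQx]; exact hxV,
      by rw [hG.neg, hQx]; exact hxs⟩
    rw [← neg_add, h7, neg_neg]

theorem exists_two (h2 : V.valuation (2 : ℂ) = 1) (h3 : V.valuation (3 : ℂ) = 1) (ha : a ∈ V)
    (hb : b ∈ V) (hab : V.valuation a = 1 ∨ V.valuation b = 1) (hG : Law2 ξ a b) :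
    ∃ T, T ≠ 0 ∧ T + T = 0 ∧ ξ T ∈ V ∧ ¬ Sing V a b (ξ T) := by
  obtain ⟨hm, hdeg⟩ := cubic_monic a b
  have hnext := cubic_next a b
  set H : ℂ[X] := X ^ 3 + C a * X + C b with hH
  have hcV : ∀ i, H.coeff i ∈ V := cubic_coeff ha hb
  have hsplit := IsAlgClosed.splits H
  have hcard : H.roots.card = 3 := by
    rw [← hsplit.natDegree_eq_card_roots, hdeg]
  have hrootsV : ∀ r ∈ H.roots, r ∈ V := fun r hr =>
    root_mem hcV hm (isRoot_of_mem_roots hr)
  obtain ⟨x, hxr, hxs⟩ : ∃ x ∈ H.roots, ¬ Sing V a b x := by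
    by_contra hcon
    push Not at hcon
    obtain ⟨e, he⟩ := Multiset.card_pos_iff_exists_mem.1 (by rw [hcard]; norm_num)
    have h5 := sum_near (V := V) (e := e) H.roots fun r hr =>
      sing_unique h2 h3 (hrootsV r hr) (hrootsV e he) hab (hcon r hr) (hcon e he)
    have h6 := hsplit.nextCoeff_eq_neg_sum_roots_of_monic hm
    rw [hnext] at h6
    have h7 : H.roots.sum - (H.roots.card : ℂ) * e = -(3 * e) := by
      rw [hcard]
      push_cast
      linear_combination h6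
    rw [h7, Valuation.map_neg, map_mul, h3, one_mul] at h5
    have heV := hrootsV e he
    have h3V : (3 : ℂ) ∈ V := val_mem h3.le
    have hs := hcon e he
    have ha1 : V.valuation a < 1 := by
      have e1 : a = (3 * e ^ 2 + a) - e * (3 * e) := by ring
      rw [e1]
      exact sub_lt' hs.2 (mul_lt_left h5 (mul_mem h3V heV))
    have hb1 : V.valuation b < 1 := by
      have e1 : b = (e ^ 3 + a * e + b) - e * (e ^ 2) - e * a := by ring
      rw [e1]
      exact sub_lt' (sub_lt' hs.1 (mul_lt_left h5 (pow_mem heV 2))) (mul_lt_left h5 ha)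
    rcases hab with h8 | h8
    · rw [h8] at ha1
      exact lt_irrefl _ ha1
    · rw [h8] at hb1
      exact lt_irrefl _ hb1
  obtain ⟨T, hT, hTx⟩ := hG.surj x
  refine ⟨T, hT, (hG.two T hT).2 ?_, by rw [hTx]; exact hrootsV x hxr, by rw [hTx]; exact hxs⟩
  have h5 : H.eval x = 0 := isRoot_of_mem_roots hxr
  rw [hTx]
  simpa [hH] using h5

/-- A sequence of torsion points of the orders `2, 4, 8, …` with nonsingular reduction. -/
theorem exists_seq (h2 : V.valuation (2 : ℂ) = 1) (h3 : V.valuation (3 : ℂ) = 1) (ha : a ∈ V)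
    (hb : b ∈ V) (hab : V.valuation a = 1 ∨ V.valuation b = 1) (hG : Law2 ξ a b) :
    ∃ T : ℕ → G, T 0 + T 0 = 0 ∧ (∀ k, T (k + 1) + T (k + 1) = T k) ∧
      (∀ k, T k ≠ 0 ∧ ξ (T k) ∈ V ∧ ¬ Sing V a b (ξ (T k))) ∧
      Function.Injective fun k => ξ (T k) := by
  obtain ⟨T0, hT0, hT00, hT0V, hT0s⟩ := exists_two h2 h3 ha hb hab hG
  let S := {T : G // T ≠ 0 ∧ ξ T ∈ V ∧ ¬ Sing V a b (ξ T)}
  have hstep : ∀ T : S, ∃ Q : S, (Q : G) + Q = T := by
    rintro ⟨T, hT, hTV, hTs⟩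
    obtain ⟨Q, hQ, hQT, hQV, hQs⟩ := halve h2 h3 ha hb hab hG hT hTV hTs
    exact ⟨⟨Q, hQ, hQV, hQs⟩, hQT⟩
  choose F hF using hstep
  obtain ⟨U, hU00, hU'⟩ : ∃ U : ℕ → S, U 0 = ⟨T0, hT0, hT0V, hT0s⟩ ∧ ∀ k, U (k + 1) = F (U k) :=
    ⟨fun k => Nat.rec (motive := fun _ => S) ⟨T0, hT0, hT0V, hT0s⟩ (fun _ T => F T) k, rfl,
      fun _ => rfl⟩
  have hU : ∀ k, ((U (k + 1) : S) : G) + ((U (k + 1) : S) : G) = ((U k : S) : G) := by
    intro k
    rw [hU']
    exact hF (U k)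
  have hU0 : ((U 0 : S) : G) + ((U 0 : S) : G) = 0 := by
    rw [hU00]
    exact hT00
  refine ⟨fun k => U k, hU0, hU, fun k => (U k).2, ?_⟩
  have key : ∀ i d : ℕ, ((U i : S) : G) = U (i + (d + 1)) ∨ ((U i : S) : G) = -U (i + (d + 1)) →
      ((U 0 : S) : G) = U (d + 1) ∨ ((U 0 : S) : G) = -U (d + 1) := by
    intro i d
    induction i with
    | zero =>
      intro h
      rwa [zero_add] at h
    | succ i ih =>
      intro h
      apply ih
      have h5 := hU i
      have h6 := hU (i + (d + 1))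
      have h7 : i + 1 + (d + 1) = i + (d + 1) + 1 := by ring
      rw [h7] at h
      rcases h with h | h
      · left
        rw [← h5, ← h6, h]
      · right
        rw [← h5, ← h6, h, neg_add]
  have hne : ∀ i d : ℕ, ξ (U i) ≠ ξ (U (i + (d + 1))) := by
    intro i d h
    have h5 := key i d (hG.law.inj _ _ (U i).2.1 (U _).2.1 h)
    apply (U d).2.1
    rw [← hU d]
    rcases h5 with h6 | h6
    · rw [← h6]
      exact hU0
    · have h7 : ((U (d + 1) : S) : G) = -U 0 := by rw [h6, neg_neg]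
      rw [h7, ← neg_add, hU0, neg_zero]
  intro i j hij
  by_contra hne'
  rcases lt_or_gt_of_ne hne' with h | h
  · obtain ⟨d, rfl⟩ := Nat.exists_eq_add_of_lt h
    exact hne i d (by rw [← add_assoc]; exact hij)
  · obtain ⟨d, rfl⟩ := Nat.exists_eq_add_of_lt h
    exact hne j d (by rw [← add_assoc]; exact hij.symm)

end Pool.Agent.T9h40.Prod
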