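import Pool.Agent.T9h40.Prod.Mul3

/-!
The multiplier of an isogeny between curves with semistable reduction is integral (helper file for
Pink's conjecture for products of different elliptic schemes).
-/

set_option autoImplicit false

namespace Pool.Agent.T9h40.Prod

open Polynomial

variable {V : ValuationSubring ℂ}

/-- `|f(x)| = |c|` for the general integral `x`. -/
structure Gauss (V : ValuationSubring ℂ) (f : ℂ[X]) (c : ℂ) (B : Finset ℂ) : Prop where
  ne : c ≠ 0
  mem : ∀ β ∈ B, β ∈ V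
  val : ∀ x, Gen V B x → V.valuation (f.eval x) = V.valuation c
  near : ∀ x x', Gen V B x → Gen V B x' → V.valuation (x - x') < 1 →
    V.valuation (f.eval x - f.eval x') < V.valuation c
  lead : V.valuation f.leadingCoeff ≤ V.valuation c
  lead' : (∀ r, f.eval r = 0 → r ∈ V) → V.valuation c = V.valuation f.leadingCoeff

theorem exists_gauss (V : ValuationSubring ℂ) (f : ℂ[X]) (hf : f ≠ 0) :
    ∃ (c : ℂ) (B : Finset ℂ), Gauss V f c B := by
  classical
  have hsplit : f = C f.leadingCoeff * (f.roots.map fun a => X - C a).prod :=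
    (IsAlgClosed.splits f).eq_prod_roots
  have key : ∀ s : Multiset ℂ, ∃ c : ℂ, 1 ≤ V.valuation c ∧ ∃ B : Finset ℂ, (∀ β ∈ B, β ∈ V) ∧
      (∀ x, Gen V B x →
        V.valuation ((s.map fun a => X - C a).prod.eval x) = V.valuation c) ∧
      (∀ x x', Gen V B x → Gen V B x' → V.valuation (x - x') < 1 →
        V.valuation ((s.map fun a => X - C a).prod.eval x -
          (s.map fun a => X - C a).prod.eval x') < V.valuation c) ∧
      ((∀ r ∈ s, r ∈ V) → V.valuation c = 1) := by
    intro s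
    induction s using Multiset.induction_on with
    | empty =>
      refine ⟨1, by rw [map_one], ∅, fun _ h => absurd h (Finset.notMem_empty _),
        fun x _ => by simp, fun x x' _ _ _ => ?_, fun _ => map_one _⟩
      simp
    | cons a s ih =>
      obtain ⟨c, hc, B, hB, h, hn, hl⟩ := ih
      have hc0 : 0 < V.valuation c := zero_lt_one.trans_le hc
      by_cases ha : a ∈ V
      · refine ⟨c, hc, insert a B, fun β hβ => ?_, fun x hx => ?_, fun x x' hx hx' hxx => ?_,
          fun hr => hl fun r hr' => hr r (Multiset.mem_cons_of_mem hr')⟩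
        · rcases Finset.mem_insert.1 hβ with rfl | h1
          · exact ha
          · exact hB β h1
        · rw [Multiset.map_cons, Multiset.prod_cons, eval_mul, map_mul,
            h x (hx.mono (Finset.subset_insert _ _)), eval_sub, eval_X, eval_C,
            hx.2 a (Finset.mem_insert_self _ _), one_mul]
        · rw [Multiset.map_cons, Multiset.prod_cons, eval_mul, eval_mul, eval_sub, eval_X, eval_C,
            eval_sub, eval_X, eval_C]
          set px := (s.map fun a => X - C a).prod.eval x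
          set px' := (s.map fun a => X - C a).prod.eval x'
          have e : (x - a) * px - (x' - a) * px' = (x - x') * px + (x' - a) * (px - px') := by ring
          rw [e]
          have h1 := h x (hx.mono (Finset.subset_insert _ _))
          have h2 := hn x x' (hx.mono (Finset.subset_insert _ _))
            (hx'.mono (Finset.subset_insert _ _)) hxx
          refine add_lt' ?_ ?_
          · rw [map_mul, h1]
            calc V.valuation (x - x') * V.valuation c < 1 * V.valuation c :=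
                  mul_lt_mul_of_pos_right hxx hc0
              _ = V.valuation c := one_mul _
          · rw [map_mul, hx'.2 a (Finset.mem_insert_self _ _), one_mul]
            exact h2
      · have ha1 : 1 < V.valuation a := by
          rw [← not_le, ValuationSubring.valuation_le_one_iff]
          exact ha
        have hxa : ∀ x ∈ V, V.valuation (x - a) = V.valuation a := by
          intro x hx
          rw [Valuation.map_sub_swap]
          exact V.valuation.map_sub_eq_of_lt_left ((val_le hx).trans_lt ha1)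
        have hac : V.valuation c < V.valuation (a * c) := by
          rw [map_mul]
          calc V.valuation c = 1 * V.valuation c := (one_mul _).symm
            _ < V.valuation a * V.valuation c := mul_lt_mul_of_pos_right ha1 hc0
        refine ⟨a * c, hc.trans hac.le, B, hB, fun x hx => ?_, fun x x' hx hx' hxx => ?_,
          fun hr => absurd (hr a (Multiset.mem_cons_self _ _)) ha⟩
        · rw [Multiset.map_cons, Multiset.prod_cons, eval_mul, map_mul, h x hx, map_mul,
            eval_sub, eval_X, eval_C, hxa x hx.1]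
        · rw [Multiset.map_cons, Multiset.prod_cons, eval_mul, eval_mul, eval_sub, eval_X, eval_C,
            eval_sub, eval_X, eval_C]
          set px := (s.map fun a => X - C a).prod.eval x
          set px' := (s.map fun a => X - C a).prod.eval x'
          have e : (x - a) * px - (x' - a) * px' = (x - x') * px + (x' - a) * (px - px') := by ring
          rw [e]
          have h1 := h x hx
          have h2 := hn x x' hx hx' hxx
          refine add_lt' ?_ ?_
          · rw [map_mul, h1]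
            calc V.valuation (x - x') * V.valuation c < 1 * V.valuation c :=
                  mul_lt_mul_of_pos_right hxx hc0
              _ = V.valuation c := one_mul _
              _ < _ := hac
          · rw [map_mul, hxa x' hx'.1, map_mul]
            exact mul_lt_mul_of_pos_left h2 (zero_lt_one.trans ha1)
  obtain ⟨c, hc, B, hB, h, hn, hl⟩ := key f.roots
  have hl0 : V.valuation f.leadingCoeff ≠ 0 :=
    (Valuation.ne_zero_iff _).2 (leadingCoeff_ne_zero.2 hf)
  have hev : ∀ x, f.eval x = f.leadingCoeff * ((f.roots.map fun a => X - C a).prod.eval x) := by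
    intro x
    conv_lhs => rw [hsplit]
    rw [eval_mul, eval_C]
  refine ⟨f.leadingCoeff * c, B, ?_, hB, fun x hx => ?_, fun x x' hx hx' hxx => ?_, ?_,
    fun hr => ?_⟩
  · refine mul_ne_zero (leadingCoeff_ne_zero.2 hf) ?_
    rintro rfl
    rw [map_zero] at hc
    exact absurd hc (not_le.2 zero_lt_one)
  · rw [hev, map_mul, h x hx, map_mul]
  · rw [hev, hev, ← mul_sub, map_mul, map_mul]
    exact mul_lt_mul_of_pos_left (hn x x' hx hx' hxx) (zero_lt_iff.2 hl0)
  · rw [map_mul]
    exact le_mul_of_one_le_right' hc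
  · rw [map_mul, hl fun r hr' => hr r (isRoot_of_mem_roots hr'), mul_one]

/-- The homomorphism `ψ` is given on the abscissas by the rational function `f / g`. -/
structure IsHom {G G' : Type} [AddCommGroup G] [AddCommGroup G'] (ξ : G → ℂ) (η : G' → ℂ)
    (ψ : G →+ G') (f g : ℂ[X]) : Prop where
  ne : g ≠ 0
  cop : IsCoprime f g
  deg : g.natDegree < f.natDegree
  act : ∀ P, P ≠ 0 → g.eval (ξ P) ≠ 0 → ψ P ≠ 0 ∧ η (ψ P) * g.eval (ξ P) = f.eval (ξ P)

variable {G G' : Type} [AddCommGroup G] [AddCommGroup G'] {ξ : G → ℂ} {η : G' → ℂ}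
  {a b a' b' : ℂ} {ψ : G →+ G'} {f g : ℂ[X]}

theorem IsHom.sub_natDegree (h : IsHom ξ η ψ f g) (e : ℂ) :
    (f - C e * g).natDegree = f.natDegree ∧ (f - C e * g).leadingCoeff = f.leadingCoeff := by
  have h1 : (C e * g).natDegree < f.natDegree := (natDegree_C_mul_le _ _).trans_lt h.deg
  refine ⟨natDegree_sub_eq_left_of_natDegree_lt h1, leadingCoeff_sub_of_degree_lt ?_⟩
  exact degree_lt_degree h1

theorem IsHom.sub_ne (h : IsHom ξ η ψ f g) (e : ℂ) : f - C e * g ≠ 0 := by
  intro h0
  have h1 := (h.sub_natDegree e).1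
  rw [h0, natDegree_zero] at h1
  have := h.deg
  omega

/-- The value at general points. -/
theorem IsHom.gen (h : IsHom ξ η ψ f g) {e cg ce : ℂ} {Bg Be : Finset ℂ} (hg : Gauss V g cg Bg)
    (he : Gauss V (f - C e * g) ce Be) {P : G} (hP : P ≠ 0) (h1 : Gen V Bg (ξ P))
    (h2 : Gen V Be (ξ P)) : ψ P ≠ 0 ∧ V.valuation (η (ψ P) - e) = V.valuation (ce / cg) := by
  have hvg : V.valuation cg ≠ 0 := (Valuation.ne_zero_iff _).2 hg.ne
  have h3 := hg.val _ h1
  have h5 := he.val _ h2
  have h4 : g.eval (ξ P) ≠ 0 := by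
    intro h0
    rw [h0, map_zero] at h3
    exact hvg h3.symm
  obtain ⟨h6, h7⟩ := h.act P hP h4
  refine ⟨h6, ?_⟩
  have h8 : (η (ψ P) - e) * g.eval (ξ P) = (f - C e * g).eval (ξ P) := by
    rw [eval_sub, eval_mul, eval_C, ← h7]
    ring
  have h9 := congrArg V.valuation h8
  rw [map_mul, h3, h5] at h9
  rw [map_div₀, ← h9, mul_div_cancel_right₀ _ hvg]

/-- General points are not near to a number which is not the abscissa of a singular point. -/
theorem alpha_ns (h2 : V.valuation (2 : ℂ) = 1) (ha : a ∈ V) (hb : b ∈ V) (hG : Law2 ξ a b)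
    (ha' : a' ∈ V) (hG' : Law2 η a' b') {e : ℂ} (he : e ∈ V) (hns : ¬ Sing V a' b' e)
    {D : Finset ℂ} (hD : ∀ β ∈ D, β ∈ V) {r : V.ValueGroup}
    (hr : ∀ P, P ≠ 0 → Gen V D (ξ P) → ψ P ≠ 0 ∧ V.valuation (η (ψ P) - e) = r) : 1 ≤ r := by
  by_contra hcon
  push Not at hcon
  have h2V : (2 : ℂ) ∈ V := val_mem h2.le
  have h3V : (3 : ℂ) ∈ V := by exact_mod_cast nat_mem 3
  have h4V : (4 : ℂ) ∈ V := by exact_mod_cast nat_mem 4
  obtain ⟨P, hP, hPg, hPf⟩ := exists_first ha hb hG hD
  obtain ⟨P2, hP2, hP2g, ⟨hn1, hn2⟩, hg1, hg2⟩ := exists_pm h2 ha hb hG hD hP hPg.1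
    fun h => absurd h.1 (by rw [hPf]; exact lt_irrefl _)
  obtain ⟨hψ1, hv1⟩ := hr P hP hPg
  obtain ⟨hψ2, hv2⟩ := hr P2 hP2 hP2g
  obtain ⟨hψ3, hv3⟩ := hr _ hn1 hg1
  obtain ⟨hψ4, hv4⟩ := hr _ hn2 hg2
  rw [map_add] at hψ3 hv3
  rw [map_sub ψ] at hψ4 hv4
  have hne : η (ψ P) ≠ η (ψ P2) := by
    intro h
    rcases hG'.law.inj _ _ hψ1 hψ2 h with h1 | h1
    · exact hψ4 (by rw [h1, sub_self])
    · exact hψ3 (by rw [h1, neg_add_cancel])
  have hL := hG'.law.shift e
  have hs := hL.sum _ _ hψ1 hψ2 (fun h => hne (sub_left_inj.1 h))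
  have hp := hL.prod _ _ hψ1 hψ2 (fun h => hne (sub_left_inj.1 h))
  beta_reduce at hs hp
  set y1 := η (ψ P) - e
  set y2 := η (ψ P2) - e
  set y3 := η (ψ P + ψ P2) - e
  set y4 := η (ψ P - ψ P2) - e
  have w1 : V.valuation y1 < 1 := hv1.trans_lt hcon
  have w2 : V.valuation y2 < 1 := hv2.trans_lt hcon
  have w3 : V.valuation y3 < 1 := hv3.trans_lt hcon
  have w4 : V.valuation y4 < 1 := hv4.trans_lt hcon
  have m1 := val_mem w1.le
  have m2 := val_mem w2.le
  have m3 := val_mem w3.le
  have m4 := val_mem w4.le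
  have hA : 3 * e ∈ V := mul_mem h3V he
  have hB : 3 * e ^ 2 + a' ∈ V := add_mem (mul_mem h3V (pow_mem he 2)) ha'
  apply hns
  have hC1 : V.valuation (e ^ 3 + a' * e + b') < 1 := by
    have e1 : 4 * (e ^ 3 + a' * e + b') = (y3 + y4) * (y1 - y2) ^ 2 -
        ((y1 + y2) * (2 * (y1 * y2 + (3 * e ^ 2 + a'))) + y1 * (4 * (3 * e) * y2)) := by
      rw [hs]
      ring
    have h5 : V.valuation (4 * (e ^ 3 + a' * e + b')) < 1 := by
      rw [e1]
      refine sub_lt' (mul_lt_left (add_lt' w3 w4) (pow_mem (sub_mem m1 m2) 2)) (add_lt'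
        (mul_lt_left (add_lt' w1 w2) (mul_mem h2V (add_mem (mul_mem m1 m2) hB)))
        (mul_lt_left w1 (mul_mem (mul_mem h4V hA) m2)))
    rwa [map_mul, unit_of_two h2, one_mul] at h5
  refine ⟨hC1, ?_⟩
  have h5 : V.valuation ((y1 * y2 - (3 * e ^ 2 + a')) ^ 2) < 1 := by
    have e1 : (y1 * y2 - (3 * e ^ 2 + a')) ^ 2 = y3 * y4 * (y1 - y2) ^ 2 +
        (e ^ 3 + a' * e + b') * (4 * (y1 + y2 + 3 * e)) := by
      rw [hp]
      ring
    rw [e1]
    refine add_lt' ?_ (mul_lt_left hC1 (mul_mem h4V (add_mem (add_mem m1 m2) hA)))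
    rw [mul_assoc]
    exact mul_lt_left w3 (mul_mem m4 (pow_mem (sub_mem m1 m2) 2))
  rw [map_pow] at h5
  have h6 : V.valuation (y1 * y2 - (3 * e ^ 2 + a')) < 1 := (pow_lt_one_iff two_ne_zero).1 h5
  have e1 : 3 * e ^ 2 + a' = y1 * y2 - (y1 * y2 - (3 * e ^ 2 + a')) := by ring
  rw [e1]
  exact sub_lt' (mul_lt_left w1 m2) h6

/-- General points are not near to the node. -/
theorem alpha_node (h2 : V.valuation (2 : ℂ) = 1) (ha : a ∈ V) (hb : b ∈ V) (hG : Law2 ξ a b)
    (hG' : Law2 η a' b') {e : ℂ} (he0 : e ^ 3 + a' * e + b' = 0)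
    (hA : V.valuation (3 * e) = 1)
    {D : Finset ℂ} (hD : ∀ β ∈ D, β ∈ V) {r : V.ValueGroup} (hr0 : 0 < r)
    (hr : ∀ P, P ≠ 0 → Gen V D (ξ P) → ψ P ≠ 0 ∧ V.valuation (η (ψ P) - e) = r) : 1 ≤ r := by
  by_contra hcon
  push Not at hcon
  obtain ⟨P, hP, hPg, hPf⟩ := exists_first ha hb hG hD
  obtain ⟨P2, hP2, hP2g, ⟨hn1, hn2⟩, hg1, hg2⟩ := exists_pm h2 ha hb hG hD hP hPg.1
    fun h => absurd h.1 (by rw [hPf]; exact lt_irrefl _)
  obtain ⟨hψ1, hv1⟩ := hr P hP hPg
  obtain ⟨hψ2, hv2⟩ := hr P2 hP2 hP2g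
  obtain ⟨hψ3, hv3⟩ := hr _ hn1 hg1
  obtain ⟨hψ4, hv4⟩ := hr _ hn2 hg2
  rw [map_add] at hψ3 hv3
  rw [map_sub ψ] at hψ4 hv4
  have hne : η (ψ P) ≠ η (ψ P2) := by
    intro h
    rcases hG'.law.inj _ _ hψ1 hψ2 h with h1 | h1
    · exact hψ4 (by rw [h1, sub_self])
    · exact hψ3 (by rw [h1, neg_add_cancel])
  have hL := hG'.law.shift e
  have hs := congrArg V.valuation (hL.sum _ _ hψ1 hψ2 (fun h => hne (sub_left_inj.1 h)))
  have hp := congrArg V.valuation (hL.prod _ _ hψ1 hψ2 (fun h => hne (sub_left_inj.1 h)))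
  simp only [he0] at hs hp
  set y1 := η (ψ P) - e
  set y2 := η (ψ P2) - e
  set y3 := η (ψ P + ψ P2) - e
  set y4 := η (ψ P - ψ P2) - e
  set A := 3 * e with hAe
  set B := 3 * e ^ 2 + a' with hBe
  rw [mul_zero, zero_mul, sub_zero, map_mul, map_mul, hv3, hv4, map_pow, map_pow] at hp
  rw [map_mul, map_pow, map_mul, h2, one_mul, mul_zero, add_zero] at hs
  set d := V.valuation (y1 - y2) with hd
  have hdr : d ≤ r := sub_le' hv1.le hv2.le
  have hXX : V.valuation (y1 * y2) = r * r := by rw [map_mul, hv1, hv2]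
  -- `|B| ≤ r²`
  have hBr : V.valuation B ≤ r * r := by
    by_contra hlt
    push Not at hlt
    have h5 : V.valuation (y1 * y2 - B) = V.valuation B := by
      rw [Valuation.map_sub_swap]
      exact V.valuation.map_sub_eq_of_lt_left (by rwa [hXX])
    rw [h5] at hp
    have h6 : r * r * d ^ 2 ≤ (r * r) ^ 2 := by
      rw [pow_two, pow_two]
      exact mul_le_mul_right (mul_le_mul' hdr hdr) _
    rw [hp] at h6
    exact absurd h6 (not_le.2 (pow_lt_pow_left₀ hlt zero_le two_ne_zero))
  -- the sum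
  have h7 : V.valuation ((y1 + y2) * (y1 * y2 + B) + 2 * A * (y1 * y2)) = r * r := by
    have h8 : V.valuation (2 * A * (y1 * y2)) = r * r := by
      rw [map_mul, map_mul, h2, hA, one_mul, one_mul, hXX]
    have h9 : V.valuation ((y1 + y2) * (y1 * y2 + B)) < r * r := by
      have h10 : V.valuation (y1 + y2) ≤ r := add_le' hv1.le hv2.le
      have h11 : V.valuation (y1 * y2 + B) ≤ r * r := add_le' hXX.le hBr
      calc V.valuation ((y1 + y2) * (y1 * y2 + B))
          ≤ r * (r * r) := mul_le' h10 h11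
        _ < 1 * (r * r) := mul_lt_mul_of_pos_right hcon (mul_pos hr0 hr0)
        _ = r * r := one_mul _
    rw [← h8]
    exact V.valuation.map_add_eq_of_lt_right (by rw [h8]; exact h9)
  rw [h7] at hs
  have h12 : V.valuation (y3 + y4) ≤ r := add_le' hv3.le hv4.le
  have h13 : r * r ≤ r * (r * r) := by
    calc r * r = V.valuation (y3 + y4) * d ^ 2 := hs.symm
      _ ≤ r * (r * r) := by
        rw [pow_two]
        exact mul_le_mul' h12 (mul_le_mul' hdr hdr)
  have h14 : r * (r * r) < r * r := by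
    calc r * (r * r) < 1 * (r * r) := mul_lt_mul_of_pos_right hcon (mul_pos hr0 hr0)
      _ = r * r := one_mul _
  exact absurd h13 (not_le.2 h14)

/-- The abscissas of the images of the general points are integral. -/
theorem not_hat (h2 : V.valuation (2 : ℂ) = 1) (h3 : V.valuation (3 : ℂ) = 1) (ha : a ∈ V)
    (hb : b ∈ V) (hab : V.valuation a = 1 ∨ V.valuation b = 1) (hG : Law2 ξ a b) (ha' : a' ∈ V)
    (hb' : b' ∈ V) (hG' : Law2 η a' b') (h : IsHom ξ η ψ f g)
    {D : Finset ℂ} (hD : ∀ β ∈ D, β ∈ V) {r : V.ValueGroup}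
    (hr : ∀ P, P ≠ 0 → Gen V D (ξ P) → ψ P ≠ 0 ∧ V.valuation (η (ψ P)) = r) : r ≤ 1 := by
  by_contra hcon
  push Not at hcon
  have hall : ∀ T, T ≠ 0 → ξ T ∈ V → ¬ Sing V a b (ξ T) → ψ T = 0 ∨ 1 < V.valuation (η (ψ T)) := by
    intro T hT hTV hTs
    obtain ⟨P2, hP2, hP2g, ⟨hn1, -⟩, hg1, -⟩ := exists_pm h2 ha hb hG hD hT hTV hTs
    obtain ⟨hψ2, hv2⟩ := hr P2 hP2 hP2g
    obtain ⟨hψ3, hv3⟩ := hr _ hn1 hg1
    have h5 := hat_add h2 ha' hb' hG' hψ3 (neg_ne_zero.2 hψ2) (by rw [hv3]; exact hcon)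
      (by rw [hG'.neg, hv2]; exact hcon)
    have h6 : ψ (T + P2) + -ψ P2 = ψ T := by rw [map_add, add_neg_cancel_right]
    rwa [h6] at h5
  have htwo : ∀ S : G', S + S = 0 → (S = 0 ∨ 1 < V.valuation (η S)) → S = 0 := by
    intro S hS h5
    rcases h5 with h5 | h5
    · exact h5
    by_contra hS0
    have h6 := (hG'.two S hS0).1 hS
    have h7 : η S ∈ V := by
      refine root_mem (cubic_coeff ha' hb') (cubic_monic a' b').1 ?_
      simpa using h6
    exact absurd (val_le h7) (not_le.2 h5)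
  obtain ⟨T, hT0, hTs, hT, hinj⟩ := exists_seq h2 h3 ha hb hab hG
  have hker : ∀ k, ψ (T k) = 0 := by
    intro k
    induction k with
    | zero =>
      refine htwo _ ?_ (hall _ (hT 0).1 (hT 0).2.1 (hT 0).2.2)
      rw [← map_add, hT0, map_zero]
    | succ k ih =>
      refine htwo _ ?_ (hall _ (hT _).1 (hT _).2.1 (hT _).2.2)
      rw [← map_add, hTs, ih]
  apply h.ne
  refine Polynomial.eq_zero_of_infinite_isRoot g (Set.infinite_of_injective_forall_mem hinj ?_)
  intro k
  change g.eval (ξ (T k)) = 0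
  by_contra hne
  exact (h.act _ (hT k).1 hne).1 (hker k)

end Pool.Agent.T9h40.Prod
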