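import Pool.Agent.T9h40.Prod.Rel

/-!
Multiples of points near the origin, and relations between points near the origin of one curve
(helper file for Pink's conjecture for products of different elliptic schemes).
-/

set_option autoImplicit false

namespace Pool.Agent.T9h40.Prod

open Pool.Agent.R424.PT Pool.Agent.TH971.RF Pool.Agent.W466.EP
open Pool.Agent.Results.MP_28d749_ag.RandomMultisections (curve xCoord relMod toE xCoord_eq)

variable {V : ValuationSubring ℂ} {p : ℕ}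

/-- A scaling which makes the curve integral. -/
theorem exists_scale (hp : p.Prime) (hV : (p : ℂ) ∈ V.nonunits) {a b : ℂ} (μ : ℚ)
    (hrat : RatVal V p)
    (hμa : ∀ r, Ord V p a r → 2 * μ ≤ r) (hμb : ∀ r, Ord V p b r → 3 * μ ≤ r) :
    ∃ z : ℂ, z ≠ 0 ∧ Ord V p (z ^ 2) (-μ) ∧ V.valuation (z ^ 4 * a) ≤ 1 ∧
      V.valuation (z ^ 6 * b) ≤ 1 := by
  have hp1 : V.valuation (p : ℂ) < 1 := by rwa [ValuationSubring.mem_nonunits_iff] at hV
  have hpC : (p : ℂ) ≠ 0 := by exact_mod_cast hp.ne_zero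
  have hp0 : V.valuation (p : ℂ) ≠ 0 := (Valuation.ne_zero_iff _).2 hpC
  have hd : 0 < μ.den := μ.den_pos
  obtain ⟨z, hz⟩ := IsAlgClosed.exists_pow_nat_eq ((p : ℂ) ^ (-μ.num)) (n := 2 * μ.den) (by omega)
  have hz0 : z ≠ 0 := by
    intro h
    rw [h, zero_pow (by omega)] at hz
    exact zpow_ne_zero _ hpC hz.symm
  have h2 : Ord V p (z ^ 2) (-μ) := by
    refine ⟨μ.den, hd, -μ.num, ?_, ?_⟩
    · push_cast
      rw [neg_div, Rat.num_div_den]
    · rw [← map_pow, ← pow_mul, hz, map_zpow₀]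
  refine ⟨z, hz0, h2, ?_, ?_⟩
  · by_cases ha : a = 0
    · rw [ha, mul_zero, map_zero]
      exact zero_le
    · obtain ⟨r, hr⟩ := Ord.exists_of_ne hrat ha
      have h3 := (h2.mul hp0 h2).mul hp0 hr
      have h4 : z ^ 2 * z ^ 2 * a = z ^ 4 * a := by ring
      rw [h4] at h3
      have h5 := (h3.le_iff hp0 hp1 ord_one).2 (by linarith [hμa r hr])
      rwa [map_one] at h5
  · by_cases hb : b = 0
    · rw [hb, mul_zero, map_zero]
      exact zero_le
    · obtain ⟨r, hr⟩ := Ord.exists_of_ne hrat hb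
      have h3 := ((h2.mul hp0 h2).mul hp0 h2).mul hp0 hr
      have h4 : z ^ 2 * z ^ 2 * z ^ 2 * b = z ^ 6 * b := by ring
      rw [h4] at h3
      have h5 := (h3.le_iff hp0 hp1 ord_one).2 (by linarith [hμb r hr])
      rwa [map_one] at h5

/-- The multiples of a point near the origin. -/
theorem smul_ord (hp : p.Prime) (hV : (p : ℂ) ∈ V.nonunits) (hrat : RatVal V p) {a b : ℂ}
    (P : (curve a b).Point) (μ : ℚ) (hμa : ∀ r, Ord V p a r → 2 * μ ≤ r)
    (hμb : ∀ r, Ord V p b r → 3 * μ ≤ r) {x : ℚ} (hx : Ord V p (xCoord P) x)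
    (hdeep : x + 1 / 2 < μ) (M : ℕ) :
    ((p : ℤ) ^ M) • P ≠ 0 ∧ Ord V p (xCoord (((p : ℤ) ^ M) • P)) (x - 2 * M) := by
  have hp1 : V.valuation (p : ℂ) < 1 := by rwa [ValuationSubring.mem_nonunits_iff] at hV
  have hpC : (p : ℂ) ≠ 0 := by exact_mod_cast hp.ne_zero
  have hp0 : V.valuation (p : ℂ) ≠ 0 := (Valuation.ne_zero_iff _).2 hpC
  obtain ⟨z, hz, hz2, hA, hB⟩ := exists_scale hp hV (a := a) (b := b) μ hrat hμa hμb
  set v := V.valuation with hv
  have hxs : ∀ Q : (curve a b).Point, xx (scl (A := a) (B := b) hz Q) = z ^ 2 * xCoord Q :=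
    fun Q => (xx_scl (A := a) (B := b) hz Q).trans (congrArg (fun x => z ^ 2 * x) (xCoord_eq Q).symm)
  have hxx : Ord V p (xx (scl (A := a) (B := b) hz P)) (-μ + x) := by
    rw [hxs]
    exact hz2.mul hp0 hx
  have h1 : 1 < v (xx (scl (A := a) (B := b) hz P)) := by
    have h2 := (ord_one.lt_iff hp0 hp1 hxx).2 (by linarith)
    rwa [map_one] at h2
  obtain ⟨hF, h0⟩ := near_of h1
  have h3 := (near hA hB hF h0).2
  have hx0 : v (xx (scl (A := a) (B := b) hz P)) ≠ 0 := (zero_lt_one.trans h1).ne'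
  have ht : v (tt (scl (A := a) (B := b) hz P)) ^ 2 =
      (v (xx (scl (A := a) (B := b) hz P)))⁻¹ := eq_inv_of_mul_eq_one_left h3
  have h4 : v (tt (scl (A := a) (B := b) hz P)) ^ 4 < v (p : ℂ) := by
    have h5 : v (tt (scl (A := a) (B := b) hz P)) ^ 4 =
        (v (tt (scl (A := a) (B := b) hz P)) ^ 2) ^ 2 := by rw [← pow_mul]
    rw [h5, ht, inv_pow]
    have h6 := (hxx.mul hp0 hxx).mul hp0 (ord_p_pow (V := V) (p := p) 1)
    have h7 := (ord_one.lt_iff hp0 hp1 h6).2 (by push_cast; linarith)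
    rw [map_one, map_mul, map_mul, map_pow, pow_one, ← hv] at h7
    rw [inv_lt_iff_one_lt_mul₀ (pow_pos (zero_lt_iff.2 hx0) 2), pow_two, mul_comm]
    exact h7
  have hn0 : ((p : ℤ) ^ M) ≠ 0 := pow_ne_zero _ (by exact_mod_cast hp.ne_zero)
  obtain ⟨h8, h9⟩ := zsmul_val hA hB two_ne_zero hp (zero_lt_iff.2 hp0) hp1 hF h0 h4 hn0
  have h10 : scl (A := a) (B := b) hz (((p : ℤ) ^ M) • P) =
      ((p : ℤ) ^ M) • scl (A := a) (B := b) hz P := map_zsmul (sclHom hz) _ P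
  rw [← h10] at h8 h9
  have htP : v (tt (scl (A := a) (B := b) hz P)) ≠ 0 := by
    intro h
    rw [h, zero_pow two_ne_zero] at ht
    exact inv_ne_zero hx0 ht.symm
  have hpM : v ((((p : ℤ) ^ M : ℤ)) : ℂ) = v (p : ℂ) ^ M := by
    push_cast
    rw [map_pow]
  have h11 : scl (A := a) (B := b) hz (((p : ℤ) ^ M) • P) ≠ 0 := by
    intro h
    rw [h] at h9
    have h12 : tt (0 : (crv (z ^ 4 * a) (z ^ 6 * b)).Point) = 0 := rfl
    rw [h12, map_zero, hpM] at h9
    exact mul_ne_zero (pow_ne_zero _ hp0) htP h9.symm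
  have h13 := (near hA hB h8 h11).2
  refine ⟨fun h => h11 ((scl_eq_zero hz _).2 h), ?_⟩
  have h14 : v (xx (scl (A := a) (B := b) hz (((p : ℤ) ^ M) • P))) * v (p : ℂ) ^ (2 * M) =
      v (xx (scl (A := a) (B := b) hz P)) := by
    have h15 : v (tt (scl (A := a) (B := b) hz P)) ^ 2 ≠ 0 := pow_ne_zero 2 htP
    refine mul_left_cancel₀ h15 ?_
    have e1 : (v (p : ℂ) ^ M * v (tt (scl (A := a) (B := b) hz P))) ^ 2 =
        v (tt (scl (A := a) (B := b) hz P)) ^ 2 * v (p : ℂ) ^ (2 * M) := by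
      rw [mul_pow, ← pow_mul, mul_comm M 2, mul_comm]
    rw [h9, hpM, e1] at h13
    rw [h3, mul_comm (v (xx (scl (A := a) (B := b) hz (((p : ℤ) ^ M) • P)))), ← mul_assoc]
    exact h13
  rw [hxs, hxs, map_mul, map_mul, mul_assoc] at h14
  have hz20 : v (z ^ 2) ≠ 0 := (Valuation.ne_zero_iff _).2 (pow_ne_zero 2 hz)
  have h16 := mul_left_cancel₀ hz20 h14
  -- orders
  have h17 : xCoord (((p : ℤ) ^ M) • P) ≠ 0 := by
    intro h
    rw [h, map_zero, zero_mul] at h16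
    exact (Valuation.ne_zero_iff _).2 (hx.ne_zero hp0) h16.symm
  obtain ⟨r, hr⟩ := Ord.exists_of_ne hrat h17
  have h18 := hr.mul hp0 (ord_p_pow (V := V) (p := p) (2 * M))
  have h19 : v (xCoord P) = v (xCoord (((p : ℤ) ^ M) • P) * (p : ℂ) ^ (2 * M)) := by
    rw [map_mul, map_pow, h16]
  have h20 := (h18.of_val h19).unique hp0 hp1 hx
  push_cast at h20
  have h21 : r = x - 2 * M := by linarith
  rwa [h21] at hr

end Pool.Agent.T9h40.Prod
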