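import Pool.Agent.T9h40.Prod.Near

/-!
There is no relation between points near the origin with different orders (helper file for Pink's
conjecture for products of different elliptic schemes).
-/

set_option autoImplicit false

namespace Pool.Agent.T9h40.Prod

open Pool.Agent.R424.PT Pool.Agent.W466.EP
open Pool.Agent.Results.MP_28d749_ag.RandomMultisections (curve xCoord EndRing relMod toE xCoord_eq)

variable {V : ValuationSubring ℂ} {p : ℕ}

theorem no_rel (hp : p.Prime) (hV : (p : ℂ) ∈ V.nonunits) (hrat : RatVal V p) {a b : ℂ} {q : ℕ}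
    (P : Fin q → (curve a b).Point) (E : EndRing a b) (μ : ℚ)
    (hμa : ∀ r, Ord V p a r → 2 * μ ≤ r) (hμb : ∀ r, Ord V p b r → 3 * μ ≤ r)
    (J : Finset (Fin q)) (x : Fin q → ℚ) (hx : ∀ j ∈ J, Ord V p (xCoord (P j)) (x j))
    (hdeep : ∀ j ∈ J, x j + 1 / 2 < μ)
    (hdis : ∀ i ∈ J, ∀ j ∈ J, i ≠ j → ∀ N : ℤ, x i - x j ≠ N)
    (d : Fin q → E.O) (hd : d ≠ 0) (hdJ : ∀ j, j ∉ J → d j = 0)
    {t : ℕ} (ht : 0 < t) (hrel : t • E.comb d P = 0) : False := by
  classical
  have hp1 : V.valuation (p : ℂ) < 1 := by rwa [ValuationSubring.mem_nonunits_iff] at hV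
  have hpC : (p : ℂ) ≠ 0 := by exact_mod_cast hp.ne_zero
  have hp0 : V.valuation (p : ℂ) ≠ 0 := (Valuation.ne_zero_iff _).2 hpC
  obtain ⟨z, hz, hz2, hA, hB⟩ := exists_scale hp hV (a := a) (b := b) μ hrat hμa hμb
  -- the common denominator
  let D : ℕ := ∏ j, (μ - x j).den
  have hD : 0 < D := Finset.prod_pos fun j _ => (μ - x j).den_pos
  have hDQ : (0 : ℚ) < D := by exact_mod_cast hD
  have hlev : ∀ j, ∃ k : ℤ, (μ - x j) * D = k := by
    intro j
    have h1 : D = (μ - x j).den * ∏ i ∈ Finset.univ.erase j, (μ - x i).den :=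
      (Finset.mul_prod_erase _ _ (Finset.mem_univ j)).symm
    refine ⟨(μ - x j).num * (∏ i ∈ Finset.univ.erase j, (μ - x i).den : ℕ), ?_⟩
    rw [h1]
    push_cast
    rw [← mul_assoc]
    congr 1
    exact Rat.mul_den_eq_num _
  choose k hk using hlev
  obtain ⟨r, hr⟩ := IsAlgClosed.exists_pow_nat_eq (p : ℂ) hD
  have hr0 : r ≠ 0 := by
    intro h
    rw [h, zero_pow hD.ne'] at hr
    exact hpC hr.symm
  have hvr : V.valuation (p : ℂ) = V.valuation r ^ D := by rw [← map_pow, hr]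
  have hordr : ∀ n : ℕ, Ord V p (r ^ n) (n / D) := by
    intro n
    refine ⟨D, hD, n, by push_cast; rfl, ?_⟩
    rw [map_pow, ← pow_mul, mul_comm n D, pow_mul, ← hvr, zpow_natCast]
  let f : Fin q → ℕ := fun j => (k j).toNat
  have hkpos : ∀ j ∈ J, 0 ≤ k j := by
    intro j hj
    have h1 := hdeep j hj
    have h2 : (0 : ℚ) ≤ k j := by
      rw [← hk j]
      exact mul_nonneg (by linarith) hDQ.le
    exact_mod_cast h2
  have hf : ∀ j ∈ J, (f j : ℚ) = (μ - x j) * D := by
    intro j hj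
    have h1 : ((k j).toNat : ℤ) = k j := Int.toNat_of_nonneg (hkpos j hj)
    have h2 : (f j : ℚ) = ((f j : ℤ) : ℚ) := by push_cast; rfl
    rw [h2]
    change (((k j).toNat : ℤ) : ℚ) = _
    rw [h1, hk]
  have hxs : ∀ Q : (curve a b).Point, xx (Pool.Agent.TH971.RF.scl (A := a) (B := b) hz Q) =
      z ^ 2 * xCoord Q :=
    fun Q => (Pool.Agent.TH971.RF.xx_scl (A := a) (B := b) hz Q).trans
      (congrArg (fun x => z ^ 2 * x) (xCoord_eq Q).symm)
  have hone : ∀ w : ℂ, Ord V p w 0 → V.valuation w = 1 := by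
    intro w hw
    have h1 := (hw.le_iff hp0 hp1 ord_one).2 le_rfl
    have h2 := (ord_one.le_iff hp0 hp1 hw).2 le_rfl
    rw [map_one] at h1 h2
    exact le_antisymm h1 h2
  refine Pool.Agent.TH971.RF.rel_placeE hp hV (harch hp0 hp1 hrat) hz hA hB (toE E)
    (ρ := V.valuation r) (R := D) hvr hD (zero_lt_iff.2 ((Valuation.ne_zero_iff _).2 hr0)) P J f
    ?_ ?_ ?_ d hd hdJ ht hrel
  · intro j hj
    have h1 : Ord V p (xx (Pool.Agent.TH971.RF.scl (A := a) (B := b) hz (P j)) * r ^ f j) 0 := by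
      rw [hxs]
      have h2 := (hz2.mul hp0 (hx j hj)).mul hp0 (hordr (f j))
      rw [hf j hj, mul_div_cancel_right₀ _ hDQ.ne'] at h2
      have h3 : -μ + x j + (μ - x j) = 0 := by ring
      rwa [h3] at h2
    have h4 := hone _ h1
    rwa [map_mul, map_pow] at h4
  · intro j hj
    have h1 := hdeep j hj
    have h3 : ((D : ℕ) : ℚ) < ((2 * f j : ℕ) : ℚ) := by
      push_cast
      rw [hf j hj]
      nlinarith
    exact_mod_cast h3
  · intro i hi j hj hij hmod
    obtain ⟨N, hN⟩ := (Nat.modEq_iff_dvd).1 hmod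
    refine hdis i hi j hj hij N ?_
    have h2 : ((f j : ℚ) - f i) = (D : ℚ) * N := by exact_mod_cast hN
    rw [hf i hi, hf j hj] at h2
    have h5 : (D : ℚ) * (x i - x j) = (D : ℚ) * N := by
      rw [← h2]
      ring
    exact mul_left_cancel₀ hDQ.ne' h5

end Pool.Agent.T9h40.Prod
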