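import Pool.Agent.T9h40.Prod.Avoid

/-!
There is no isogeny from an elliptic curve with good reduction to one with multiplicative reduction:
the elementary proof (helper file for Pink's conjecture for products of different elliptic schemes).
-/

set_option autoImplicit false

namespace Pool.Agent.T9h40.Prod

open Polynomial

section val

variable {V : ValuationSubring ℂ}

theorem root_lt {s t : ℂ} (h1 : V.valuation (s + t) < 1) (h2 : V.valuation (s * t) < 1) :
    V.valuation s < 1 := by
  by_contra hcon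
  push Not at hcon
  have h3 : V.valuation t < 1 := by
    by_contra h4
    push Not at h4
    have h5 : 1 ≤ V.valuation (s * t) := by
      rw [map_mul]
      exact one_le_mul hcon h4
    exact absurd h2 (not_lt.2 h5)
  have h6 : V.valuation (s + t) = V.valuation s :=
    V.valuation.map_add_eq_of_lt_left (h3.trans_le hcon)
  rw [h6] at h1
  exact absurd h1 (not_lt.2 hcon)

theorem root_le {s t : ℂ} (h1 : V.valuation (s + t) ≤ 1) (h2 : V.valuation (s * t) ≤ 1) :
    V.valuation s ≤ 1 := by
  by_contra hcon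
  push Not at hcon
  have h3 : V.valuation t ≤ 1 := by
    by_contra h4
    push Not at h4
    have h5 : 1 < V.valuation (s * t) := by
      rw [map_mul]
      exact one_lt_mul'' hcon h4
    exact absurd h2 (not_le.2 h5)
  have h6 : V.valuation (s + t) = V.valuation s :=
    V.valuation.map_add_eq_of_lt_left (h3.trans_lt hcon)
  rw [h6] at h1
  exact absurd h1 (not_le.2 hcon)

theorem add_lt' {s t : ℂ} {r : V.ValueGroup} (h1 : V.valuation s < r) (h2 : V.valuation t < r) :
    V.valuation (s + t) < r := V.valuation.map_add_lt h1 h2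

theorem add_le' {s t : ℂ} {r : V.ValueGroup} (h1 : V.valuation s ≤ r) (h2 : V.valuation t ≤ r) :
    V.valuation (s + t) ≤ r := V.valuation.map_add_le h1 h2

theorem sub_le' {s t : ℂ} {r : V.ValueGroup} (h1 : V.valuation s ≤ r) (h2 : V.valuation t ≤ r) :
    V.valuation (s - t) ≤ r := V.valuation.map_sub_le h1 h2

theorem mul_le' {s t : ℂ} {r r' : V.ValueGroup} (h1 : V.valuation s ≤ r)
    (h2 : V.valuation t ≤ r') : V.valuation (s * t) ≤ r * r' := by
  rw [map_mul]
  exact mul_le_mul' h1 h2

end val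

variable {V : ValuationSubring ℂ}

/-- Points near the node and points with nonsingular reduction. -/
theorem node_add (h2 : V.valuation (2 : ℂ) = 1) {G : Type} [AddCommGroup G] {X : G → ℂ} {A B : ℂ}
    (hA : V.valuation A = 1) (hB : V.valuation B < 1) (hG : Law X A B 0) {S T : G} (hS : S ≠ 0)
    (hT : T ≠ 0) (hXS : V.valuation (X S) < 1) (hXT : 1 ≤ V.valuation (X T)) :
    V.valuation (X (S - T)) < 1 := by
  have hne : X S ≠ X T := by
    intro h
    rw [h] at hXS
    exact absurd hXT (not_le.2 hXS)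
  have hs := hG.sum S T hS hT hne
  have hp := hG.prod S T hS hT hne
  set ρ := V.valuation (X T) with hρ
  have hd : V.valuation (X S - X T) = ρ := by
    rw [Valuation.map_sub_swap]
    exact V.valuation.map_sub_eq_of_lt_left (hXS.trans_le hXT)
  have hρ0 : 0 < ρ := zero_lt_one.trans_le hXT
  have hρ2 : 0 < ρ ^ 2 := pow_pos hρ0 2
  have hXSρ : V.valuation (X S) * ρ < ρ ^ 2 := by
    rw [pow_two]
    exact mul_lt_mul_of_pos_right (hXS.trans_le hXT) hρ0
  have hBρ : V.valuation B < ρ ^ 2 := hB.trans_le (one_le_pow₀ hXT)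
  have h1 : V.valuation (X S + X T) ≤ ρ := add_le' (hXS.le.trans hXT) le_rfl
  have h4 : V.valuation (X S * X T + B) < ρ := by
    refine add_lt' ?_ (hB.trans_le hXT)
    rw [map_mul]
    calc V.valuation (X S) * ρ < 1 * ρ := mul_lt_mul_of_pos_right hXS hρ0
      _ = ρ := one_mul _
  have hsum : V.valuation (X (S + T) + X (S - T)) < 1 := by
    have h5 := congrArg V.valuation hs
    rw [map_mul, map_pow, hd, map_mul, h2, one_mul, mul_zero, add_zero] at h5
    have h6 : V.valuation ((X S + X T) * (X S * X T + B) + 2 * A * (X S * X T)) < ρ ^ 2 := by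
      refine add_lt' ?_ ?_
      · rw [map_mul, pow_two]
        calc V.valuation (X S + X T) * V.valuation (X S * X T + B)
            ≤ ρ * V.valuation (X S * X T + B) := mul_le_mul_left h1 _
          _ < ρ * ρ := mul_lt_mul_of_pos_left h4 hρ0
      · rw [map_mul, map_mul, h2, hA, one_mul, one_mul, map_mul]
        exact hXSρ
    rw [← h5] at h6
    by_contra hcon
    push Not at hcon
    have h7 : ρ ^ 2 ≤ V.valuation (X (S + T) + X (S - T)) * ρ ^ 2 := le_mul_of_one_le_left' hcon
    exact absurd h6 (not_lt.2 h7)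
  have hprod : V.valuation (X (S + T) * X (S - T)) < 1 := by
    have h5 := congrArg V.valuation hp
    rw [mul_zero, zero_mul, sub_zero, map_mul, map_pow, hd, map_pow] at h5
    have h6 : V.valuation (X S * X T - B) < ρ := by
      have h7 : X S * X T - B = X S * X T + -B := sub_eq_add_neg _ _
      rw [h7]
      refine add_lt' ?_ (by rw [Valuation.map_neg]; exact hB.trans_le hXT)
      rw [map_mul]
      calc V.valuation (X S) * ρ < 1 * ρ := mul_lt_mul_of_pos_right hXS hρ0
        _ = ρ := one_mul _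
    have h8 : V.valuation (X S * X T - B) ^ 2 < ρ ^ 2 := pow_lt_pow_left₀ h6 zero_le two_ne_zero
    rw [← h5] at h8
    by_contra hcon
    push Not at hcon
    have h7 : ρ ^ 2 ≤ V.valuation (X (S + T) * X (S - T)) * ρ ^ 2 := le_mul_of_one_le_left' hcon
    exact absurd h8 (not_lt.2 h7)
  rw [add_comm] at hsum
  rw [mul_comm] at hprod
  exact root_lt hsum hprod

/-- The polynomial `(x_3 - β) (x_4 - β) (x - t)²` in `t`, where `x_3`, `x_4` are the abscissas of the sum
and of the difference of points with the abscissas `x` and `t`. -/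
noncomputable def Fpol (a b x β : ℂ) : ℂ[X] :=
  C ((β - x) ^ 2) * X ^ 2 + C (-2 * ((β + x) * (β * x + a) + 2 * b)) * X +
    C ((β * x - a) ^ 2 - 4 * b * (β + x))

theorem quad_coeff (c2 c1 c0 : ℂ) : (C c2 * X ^ 2 + C c1 * X + C c0 : ℂ[X]).coeff 2 = c2 ∧
    (C c2 * X ^ 2 + C c1 * X + C c0 : ℂ[X]).coeff 1 = c1 ∧
    (C c2 * X ^ 2 + C c1 * X + C c0 : ℂ[X]).coeff 0 = c0 ∧
    ∀ i : ℕ, (C c2 * X ^ 2 + C c1 * X + C c0 : ℂ[X]).coeff (i + 3) = 0 := by
  refine ⟨?_, ?_, ?_, fun i => ?_⟩ <;> simp [coeff_X, coeff_C, coeff_X_pow]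

theorem fpol_unit (h2 : V.valuation (2 : ℂ) = 1) {a b x β : ℂ} (ha : a ∈ V) (hb : b ∈ V)
    (hΔ : V.valuation (4 * a ^ 3 + 27 * b ^ 2) = 1) (hx : x ∈ V) (hβ : β ∈ V) :
    UnitCoef V (Fpol a b x β) := by
  have h2V : (2 : ℂ) ∈ V := (ValuationSubring.valuation_le_one_iff _ _).1 h2.le
  have hnat : ∀ n : ℕ, (n : ℂ) ∈ V := fun n => natCast_mem V n
  have h4V : (4 : ℂ) ∈ V := by exact_mod_cast hnat 4
  obtain ⟨c2, c1, c0, c3⟩ := quad_coeff ((β - x) ^ 2) (-2 * ((β + x) * (β * x + a) + 2 * b))
    ((β * x - a) ^ 2 - 4 * b * (β + x))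
  change (Fpol a b x β).coeff 2 = _ at c2
  change (Fpol a b x β).coeff 1 = _ at c1
  change (Fpol a b x β).coeff 0 = _ at c0
  have m2 : (β - x) ^ 2 ∈ V := pow_mem (sub_mem hβ hx) 2
  have m1 : -2 * ((β + x) * (β * x + a) + 2 * b) ∈ V :=
    mul_mem (neg_mem h2V) (add_mem (mul_mem (add_mem hβ hx) (add_mem (mul_mem hβ hx) ha))
      (mul_mem h2V hb))
  have m0 : (β * x - a) ^ 2 - 4 * b * (β + x) ∈ V :=
    sub_mem (pow_mem (sub_mem (mul_mem hβ hx) ha) 2) (mul_mem (mul_mem h4V hb) (add_mem hβ hx))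
  have hle : ∀ z : ℂ, z ∈ V → V.valuation z ≤ 1 := fun z hz =>
    (ValuationSubring.valuation_le_one_iff _ _).2 hz
  refine ⟨fun i => ?_, ?_⟩
  · rcases i with _ | _ | _ | i
    · rw [c0]; exact m0
    · rw [zero_add, c1]; exact m1
    · rw [c2]; exact m2
    · have h0 : (Fpol a b x β).coeff (i + 1 + 1 + 1) = 0 := c3 i
      rw [h0]
      exact V.zero_mem
  · by_contra hcon
    push Not at hcon
    have n2 : V.valuation ((β - x) ^ 2) < 1 := by
      have := hcon 2
      rw [c2] at this
      exact lt_of_le_of_ne (hle _ m2) this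
    have n1 : V.valuation (-2 * ((β + x) * (β * x + a) + 2 * b)) < 1 := by
      have := hcon 1
      rw [c1] at this
      exact lt_of_le_of_ne (hle _ m1) this
    have n0 : V.valuation ((β * x - a) ^ 2 - 4 * b * (β + x)) < 1 := by
      have := hcon 0
      rw [c0] at this
      exact lt_of_le_of_ne (hle _ m0) this
    have nd : V.valuation (β - x) < 1 := by
      rw [map_pow] at n2
      exact (pow_lt_one_iff two_ne_zero).1 n2
    have hmul : ∀ z w : ℂ, V.valuation z < 1 → w ∈ V → V.valuation (z * w) < 1 := by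
      intro z w hz hw
      rw [map_mul]
      exact (mul_le_of_le_one_right' (hle w hw)).trans_lt hz
    -- `f(x)` is small
    have nf : V.valuation (x ^ 3 + a * x + b) < 1 := by
      have h4u : V.valuation (4 : ℂ) = 1 := by
        have : (4 : ℂ) = 2 * 2 := by norm_num
        rw [this, map_mul, h2, one_mul]
      have h5 : V.valuation (4 * (x ^ 3 + a * x + b)) < 1 := by
        have e : 4 * (x ^ 3 + a * x + b) = -(-2 * ((β + x) * (β * x + a) + 2 * b)) +
            -((β - x) * (2 * (β * x + a) + 4 * x ^ 2)) := by ring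
        rw [e]
        refine add_lt' (by rw [Valuation.map_neg]; exact n1) ?_
        rw [Valuation.map_neg]
        refine hmul _ _ nd (add_mem (mul_mem h2V (add_mem (mul_mem hβ hx) ha))
          (mul_mem h4V (pow_mem hx 2)))
      rwa [map_mul, h4u, one_mul] at h5
    have nf' : V.valuation (3 * x ^ 2 + a) < 1 := by
      have h5 : V.valuation ((3 * x ^ 2 + a) ^ 2) < 1 := by
        have e : (3 * x ^ 2 + a) ^ 2 = ((β * x - a) ^ 2 - 4 * b * (β + x)) +
            (-((β - x) * (x * (β * x - a + (x * x - a)) - 4 * b)) +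
              (x ^ 3 + a * x + b) * (8 * x)) := by ring
        rw [e]
        refine add_lt' n0 (add_lt' ?_ (hmul _ _ nf (by
          have h8 : (8 : ℂ) ∈ V := by exact_mod_cast hnat 8
          exact mul_mem h8 hx)))
        rw [Valuation.map_neg]
        exact hmul _ _ nd (sub_mem (mul_mem hx (add_mem (sub_mem (mul_mem hβ hx) ha)
          (sub_mem (mul_mem hx hx) ha))) (mul_mem h4V hb))
      rw [map_pow] at h5
      exact (pow_lt_one_iff two_ne_zero).1 h5
    have hcontr : V.valuation (4 * a ^ 3 + 27 * b ^ 2) < 1 := by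
      have e : 4 * a ^ 3 + 27 * b ^ 2 = (x ^ 3 + a * x + b) * (-18 * a * x + 27 * b) +
          (3 * x ^ 2 + a) * (6 * a * x ^ 2 - 9 * b * x + 4 * a ^ 2) := by ring
      have h18 : (18 : ℂ) ∈ V := by exact_mod_cast hnat 18
      have h27 : (27 : ℂ) ∈ V := by exact_mod_cast hnat 27
      have h6 : (6 : ℂ) ∈ V := by exact_mod_cast hnat 6
      have h9 : (9 : ℂ) ∈ V := by exact_mod_cast hnat 9
      rw [e]
      refine add_lt' (hmul _ _ nf ?_) (hmul _ _ nf' ?_)
      · exact add_mem (mul_mem (mul_mem (neg_mem h18) ha) hx) (mul_mem h27 hb)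
      · exact add_mem (sub_mem (mul_mem (mul_mem h6 ha) (pow_mem hx 2))
          (mul_mem (mul_mem h9 hb) hx)) (mul_mem h4V (pow_mem ha 2))
    rw [hΔ] at hcontr
    exact lt_irrefl _ hcontr

end Pool.Agent.T9h40.Prod
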