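import Pool.Agent.R424.PT.Fam

/-!
Orders at a place with rational values, isogenies near the origin, and relations between points near
the origin (helper file for Pink's conjecture for products of different elliptic schemes).
-/

set_option autoImplicit false

namespace Pool.Agent.T9h40.Prod

open Pool.Agent.R424.PT
open Pool.Agent.Results.MP_28d749_ag.RandomMultisections (curve xCoord EndRing relMod toE xCoord_eq)

/-- The number `z` has the order `r` at the place `V` above `p` (and `p` has the order one). -/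
def Ord (V : ValuationSubring ℂ) (p : ℕ) (z : ℂ) (r : ℚ) : Prop :=
  ∃ n : ℕ, 0 < n ∧ ∃ k : ℤ, r = k / n ∧ V.valuation z ^ n = V.valuation (p : ℂ) ^ k

variable {V : ValuationSubring ℂ} {p : ℕ}

theorem pow_inj_vg {x y : V.ValueGroup} {n : ℕ} (hn : 0 < n) (h : x ^ n = y ^ n) : x = y :=
  (pow_left_inj₀ zero_le zero_le hn.ne').1 h

theorem Ord.exists_of_ne (hrat : RatVal V p) {z : ℂ} (hz : z ≠ 0) : ∃ r, Ord V p z r := by
  obtain ⟨n, hn, k, hk⟩ := hrat z hz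
  exact ⟨k / n, n, hn, k, rfl, hk⟩

theorem Ord.pow_eq (_hp0 : V.valuation (p : ℂ) ≠ 0) {z : ℂ} {r : ℚ} (h : Ord V p z r) {N : ℕ}
    (hN : 0 < N) {K : ℤ} (hr : r = K / N) : V.valuation z ^ N = V.valuation (p : ℂ) ^ K := by
  obtain ⟨n, hn, k, hk, hv⟩ := h
  have hnQ : (n : ℚ) ≠ 0 := by exact_mod_cast hn.ne'
  have hNQ : (N : ℚ) ≠ 0 := by exact_mod_cast hN.ne'
  have h1 : (k : ℚ) * N = K * n := by
    rw [hk, div_eq_div_iff hnQ hNQ] at hr
    exact hr
  have h2 : k * (N : ℤ) = K * (n : ℤ) := by exact_mod_cast h1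
  refine pow_inj_vg hn ?_
  rw [← pow_mul, mul_comm N n, pow_mul, hv, ← zpow_natCast, ← zpow_natCast, ← zpow_mul, ← zpow_mul,
    h2]

theorem Ord.pair (hp0 : V.valuation (p : ℂ) ≠ 0) {z w : ℂ} {r s : ℚ} (h : Ord V p z r)
    (h' : Ord V p w s) : ∃ N : ℕ, 0 < N ∧ ∃ K L : ℤ, r = K / N ∧ s = L / N ∧
      V.valuation z ^ N = V.valuation (p : ℂ) ^ K ∧ V.valuation w ^ N = V.valuation (p : ℂ) ^ L := by
  have hr := r.den_pos
  have hs := s.den_pos
  have hrQ : (r.den : ℚ) ≠ 0 := by exact_mod_cast hr.ne'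
  have hsQ : (s.den : ℚ) ≠ 0 := by exact_mod_cast hs.ne'
  have h1 : r = ((r.num * s.den : ℤ) : ℚ) / ((r.den * s.den : ℕ) : ℚ) := by
    push_cast
    rw [mul_div_mul_right _ _ hsQ, Rat.num_div_den]
  have h2 : s = ((s.num * r.den : ℤ) : ℚ) / ((r.den * s.den : ℕ) : ℚ) := by
    push_cast
    rw [mul_comm (r.den : ℚ), mul_div_mul_right _ _ hrQ, Rat.num_div_den]
  exact ⟨r.den * s.den, Nat.mul_pos hr hs, _, _, h1, h2, h.pow_eq hp0 (Nat.mul_pos hr hs) h1,
    h'.pow_eq hp0 (Nat.mul_pos hr hs) h2⟩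

theorem Ord.lt_iff (hp0 : V.valuation (p : ℂ) ≠ 0) (hp1 : V.valuation (p : ℂ) < 1) {z w : ℂ}
    {r s : ℚ} (h : Ord V p z r) (h' : Ord V p w s) :
    V.valuation z < V.valuation w ↔ s < r := by
  obtain ⟨N, hN, K, L, rfl, rfl, h1, h2⟩ := h.pair hp0 h'
  have hNQ : (0 : ℚ) < N := by exact_mod_cast hN
  rw [div_lt_div_iff_of_pos_right hNQ, Int.cast_lt,
    ← zpow_lt_zpow_iff_right_of_lt_one₀ (zero_lt_iff.2 hp0) hp1, ← h1, ← h2]
  exact (pow_lt_pow_iff_left₀ zero_le zero_le hN.ne').symm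

theorem Ord.le_iff (hp0 : V.valuation (p : ℂ) ≠ 0) (hp1 : V.valuation (p : ℂ) < 1) {z w : ℂ}
    {r s : ℚ} (h : Ord V p z r) (h' : Ord V p w s) :
    V.valuation z ≤ V.valuation w ↔ s ≤ r := by
  rw [← not_lt, ← not_lt, h'.lt_iff hp0 hp1 h]

theorem Ord.unique (hp0 : V.valuation (p : ℂ) ≠ 0) (hp1 : V.valuation (p : ℂ) < 1) {z : ℂ}
    {r s : ℚ} (h : Ord V p z r) (h' : Ord V p z s) : r = s :=
  le_antisymm ((h'.le_iff hp0 hp1 h).1 le_rfl) ((h.le_iff hp0 hp1 h').1 le_rfl)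

theorem Ord.mul (hp0 : V.valuation (p : ℂ) ≠ 0) {z w : ℂ} {r s : ℚ} (h : Ord V p z r)
    (h' : Ord V p w s) : Ord V p (z * w) (r + s) := by
  obtain ⟨N, hN, K, L, rfl, rfl, h1, h2⟩ := h.pair hp0 h'
  refine ⟨N, hN, K + L, ?_, ?_⟩
  · push_cast
    rw [add_div]
  · rw [map_mul, mul_pow, h1, h2, zpow_add₀ hp0]

theorem Ord.ne_zero (hp0 : V.valuation (p : ℂ) ≠ 0) {z : ℂ} {r : ℚ} (h : Ord V p z r) : z ≠ 0 := by
  obtain ⟨n, hn, k, -, hv⟩ := h
  rintro rfl
  rw [map_zero, zero_pow hn.ne'] at hv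
  exact zpow_ne_zero _ hp0 hv.symm

theorem Ord.of_val {z w : ℂ} {r : ℚ} (h : Ord V p z r) (hzw : V.valuation w = V.valuation z) :
    Ord V p w r := by
  obtain ⟨n, hn, k, hk, hv⟩ := h
  exact ⟨n, hn, k, hk, by rw [hzw, hv]⟩

theorem ord_p_pow (M : ℕ) : Ord V p ((p : ℂ) ^ M) M :=
  ⟨1, one_pos, M, by push_cast; rw [div_one], by rw [map_pow, pow_one, zpow_natCast]⟩

theorem ord_one : Ord V p 1 0 := ⟨1, one_pos, 0, by simp, by simp⟩

theorem harch (hp0 : V.valuation (p : ℂ) ≠ 0) (hp1 : V.valuation (p : ℂ) < 1)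
    (hrat : RatVal V p) (x : ℂ) : ∃ M : ℕ, V.valuation x * V.valuation (p : ℂ) ^ M ≤ 1 := by
  by_cases hx : x = 0
  · exact ⟨0, by rw [hx, map_zero, zero_mul]; exact zero_le⟩
  obtain ⟨r, hr⟩ := Ord.exists_of_ne hrat hx
  obtain ⟨M, hM⟩ := exists_nat_ge (-r)
  refine ⟨M, ?_⟩
  have h1 := hr.mul hp0 (ord_p_pow (V := V) (p := p) M)
  have h2 := (h1.le_iff hp0 hp1 ord_one).2 (by linarith)
  rwa [map_mul, map_pow, map_one] at h2

theorem Ord.inv {z : ℂ} {r : ℚ} (h : Ord V p z r) : Ord V p z⁻¹ (-r) := by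
  obtain ⟨n, hn, k, hk, hv⟩ := h
  refine ⟨n, hn, -k, ?_, ?_⟩
  · rw [hk]
    push_cast
    ring
  · rw [map_inv₀, inv_pow, hv, zpow_neg]

/-- The homomorphism `ψ` of the groups of points of the curves `y² = x³ + a x + b` and
`y² = x³ + a' x + b'` is given on the abscissas by a rational function `u / w` in lowest terms with
`u(x) / w(x) ~ x / c²` for `x → ∞`, with a number `c ≠ 0`. (For an isogeny, `c` is the multiplier on the
invariant differentials.) -/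
def HasMultiplier (c : ℂ) {a b a' b' : ℂ} (ψ : (curve a b).Point →+ (curve a' b').Point) : Prop :=
  c ≠ 0 ∧ ∃ u w : Polynomial ℂ, w ≠ 0 ∧ IsCoprime u w ∧ u.natDegree = w.natDegree + 1 ∧
    w.leadingCoeff = c ^ 2 * u.leadingCoeff ∧
    ∀ P : (curve a b).Point, P ≠ 0 → w.eval (xCoord P) ≠ 0 →
      ψ P ≠ 0 ∧ xCoord (ψ P) * w.eval (xCoord P) = u.eval (xCoord P)

/-- The map `ψ` of the points is an isogeny of degree `n`: it is given by a rational function on the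
abscissas, and so is a map `φ` in the opposite direction (the dual isogeny), and the product of the
multipliers of `ψ` and `φ` is `n` (the multiplier of the multiplication by `n`, `φ ∘ ψ = n`). -/
def IsIsogeny (n : ℕ) {a b a' b' : ℂ} (ψ : (curve a b).Point →+ (curve a' b').Point) : Prop :=
  0 < n ∧ ∃ (c c' : ℂ) (φ : (curve a' b').Point →+ (curve a b).Point),
    HasMultiplier c ψ ∧ HasMultiplier c' φ ∧ c * c' = n

/-- An isogeny near the origin: the order of the abscissa of the image is larger by the order of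
`1 / c²`. -/
theorem isog_ord (hp0 : V.valuation (p : ℂ) ≠ 0) (hp1 : V.valuation (p : ℂ) < 1)
    (hrat : RatVal V p) {a b a' b' c : ℂ} {ψ : (curve a b).Point →+ (curve a' b').Point}
    (h : HasMultiplier c ψ) {γ : ℚ} (hγ : Ord V p (c ^ 2)⁻¹ γ) :
    ∃ M : ℚ, ∀ (Q : (curve a b).Point) (r : ℚ),
      Q ≠ 0 → Ord V p (xCoord Q) r → r < M → Ord V p (xCoord (ψ Q)) (r + γ) := by
  obtain ⟨hc, u, w, hw0, -, hdeg, hlc, hact⟩ := h
  have hu0 : u ≠ 0 := by
    rintro rfl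
    rw [Polynomial.natDegree_zero] at hdeg
    omega
  obtain ⟨M1, hM1⟩ := Pool.Agent.TH971.RF.poly_large hp0 hp1 (harch hp0 hp1 hrat) u hu0
  obtain ⟨M2, hM2⟩ := Pool.Agent.TH971.RF.poly_large hp0 hp1 (harch hp0 hp1 hrat) w hw0
  set v := V.valuation with hv
  refine ⟨min (-(M1 : ℚ)) (-(M2 : ℚ)), fun Q r hQ hr hrM => ?_⟩
  have hX0 : v (xCoord Q) ≠ 0 := (Valuation.ne_zero_iff _).2 (hr.ne_zero hp0)
  have hlarge : ∀ M : ℕ, r < -(M : ℚ) → 1 < v (xCoord Q) * v (p : ℂ) ^ M := by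
    intro M hM
    have h1 := hr.mul hp0 (ord_p_pow (V := V) (p := p) M)
    have h2 := (ord_one.lt_iff hp0 hp1 h1).2 (by linarith)
    rwa [map_mul, map_pow, map_one] at h2
  have h1 := hM1 _ (hlarge M1 (hrM.trans_le (min_le_left _ _)))
  have h2 := hM2 _ (hlarge M2 (hrM.trans_le (min_le_right _ _)))
  have hvl : v w.leadingCoeff ≠ 0 :=
    (Valuation.ne_zero_iff _).2 (Polynomial.leadingCoeff_ne_zero.2 hw0)
  have hvu : v u.leadingCoeff ≠ 0 :=
    (Valuation.ne_zero_iff _).2 (Polynomial.leadingCoeff_ne_zero.2 hu0)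
  have hwe : w.eval (xCoord Q) ≠ 0 := by
    intro h0
    rw [h0, map_zero] at h2
    exact mul_ne_zero hvl (pow_ne_zero _ hX0) h2.symm
  obtain ⟨-, h4⟩ := hact Q hQ hwe
  have h5 : v (xCoord (ψ Q)) * v (w.eval (xCoord Q)) = v (u.eval (xCoord Q)) := by
    rw [← map_mul, h4]
  have hwl : v w.leadingCoeff = v (c ^ 2) * v u.leadingCoeff := by rw [hlc, map_mul]
  have h6 : v (xCoord (ψ Q)) * v (c ^ 2) = v (xCoord Q) := by
    have h7 : v u.leadingCoeff * v (xCoord Q) ^ w.natDegree ≠ 0 :=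
      mul_ne_zero hvu (pow_ne_zero _ hX0)
    refine mul_right_cancel₀ h7 ?_
    calc v (xCoord (ψ Q)) * v (c ^ 2) * (v u.leadingCoeff * v (xCoord Q) ^ w.natDegree)
        = v (xCoord (ψ Q)) * (v (c ^ 2) * v u.leadingCoeff * v (xCoord Q) ^ w.natDegree) := by
          simp only [mul_assoc]
      _ = v (xCoord (ψ Q)) * v (w.eval (xCoord Q)) := by rw [h2, hwl]
      _ = v (u.eval (xCoord Q)) := h5
      _ = v u.leadingCoeff * v (xCoord Q) ^ (w.natDegree + 1) := by rw [h1, hdeg]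
      _ = v (xCoord Q) * (v u.leadingCoeff * v (xCoord Q) ^ w.natDegree) := by
          rw [pow_succ, ← mul_assoc, mul_comm (v (xCoord Q))]
  refine (hr.mul hp0 hγ).of_val ?_
  rw [map_mul, map_inv₀, ← hv, ← h6, mul_inv_cancel_right₀]
  exact (Valuation.ne_zero_iff _).2 (pow_ne_zero 2 hc)

end Pool.Agent.T9h40.Prod
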