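import Pool.Agent.R424.PT.Res
import Pool.Agent.T9h40.Prod.Main

/-!
Systems with integral coefficients in a residue class for products of elliptic schemes (helper file).
-/

set_option autoImplicit false

namespace Pool.Agent.T9h40.Prod

open MvPolynomial Pool.Agent.R424.TG
open Pool.Agent.R424.PT (OrdAt ordAt_int)

theorem residue {κ : Type} [Finite κ] {g r q N m M : ℕ} {ty : Fin q → Fin g}
    (𝒞 : Set (Fin g → Fin g)) (supp : κ → Finset ((Coord g r q ⊕ Fin N) →₀ ℕ))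
    (e : Fin M → κ → ((Coord g r q ⊕ Fin N) →₀ ℕ) → ℕ) (hgen : Generic ty 𝒞 m supp e) (Q₀ : ℕ)
    (hQ₀ : 0 < Q₀) :
    ∃ Q : ℕ, 0 < Q ∧ (∀ p : ℕ, p.Prime → p ∣ Q → Q₀ < p) ∧ ∃ c₀ : κ → ((Coord g r q ⊕ Fin N) →₀ ℕ) → ℤ,
      ∀ c : κ → ((Coord g r q ⊕ Fin N) →₀ ℕ) → ℤ,
        (∀ j, ∀ β ∈ supp j, (Q : ℤ) ∣ c j β - c₀ j β) →
        NoAtypical ℚ 𝒞 {n | n.Coprime Q} m (OnX (ty := ty) supp fun j β => ((c j β : ℤ) : ℂ)) := by
  classical
  have := Fintype.ofFinite κ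
  let p : Fin M → ℕ := fun l => Nat.nth Nat.Prime (l + Q₀ + 2)
  have hp : ∀ l, (p l).Prime := fun l => Nat.prime_nth_prime _
  have hpinj : Function.Injective p := fun l l' h => by
    have h1 := Nat.nth_injective Nat.infinite_setOfPred_prime h
    exact Fin.ext (by omega)
  have hpQ : ∀ l, Q₀ < p l ∧ 5 ≤ p l := fun l => by
    have h1 : (l : ℕ) + Q₀ + 2 + 2 ≤ p l := Nat.add_two_le_nth_prime _
    omega
  let E : ℕ := ∑ l, ∑ q, ∑ β ∈ supp q, e l q β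
  have hE : ∀ l q, ∀ β ∈ supp q, e l q β ≤ E := by
    intro l q β hβ
    calc e l q β ≤ ∑ β ∈ supp q, e l q β :=
          Finset.single_le_sum (f := fun β => e l q β) (fun _ _ => Nat.zero_le _) hβ
      _ ≤ ∑ q, ∑ β ∈ supp q, e l q β :=
          Finset.single_le_sum (f := fun q => ∑ β ∈ supp q, e l q β)
            (fun _ _ => Nat.zero_le _) (Finset.mem_univ q)
      _ ≤ E := Finset.single_le_sum (f := fun l => ∑ q, ∑ β ∈ supp q, e l q β)
            (fun _ _ => Nat.zero_le _) (Finset.mem_univ l)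
  refine ⟨∏ l, p l ^ (E + 1), Finset.prod_pos fun l _ => pow_pos (hp l).pos _, ?_,
    fun q β => ∏ l, (p l : ℤ) ^ e l q β, fun c hc => ?_⟩
  · intro p' hp' hdvd
    obtain ⟨l, -, hl⟩ := (Prime.dvd_finsetProd_iff hp'.prime _).1 hdvd
    rw [(Nat.prime_dvd_prime_iff_eq hp' (hp l)).1 (hp'.dvd_of_dvd_pow hl)]
    exact (hpQ l).1
  have key : ∀ l q, ∀ β ∈ supp q, ∃ b : ℤ, ¬ (p l : ℤ) ∣ b ∧ c q β = b * (p l : ℤ) ^ e l q β := by
    intro l q β hβ
    obtain ⟨u, hu⟩ := hc q β hβ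
    have h1 : ((∏ l, p l ^ (E + 1) : ℕ) : ℤ) =
        (p l : ℤ) ^ (E + 1) * ∏ l' ∈ Finset.univ.erase l, (p l' : ℤ) ^ (E + 1) := by
      push_cast
      exact (Finset.mul_prod_erase _ (fun l => (p l : ℤ) ^ (E + 1)) (Finset.mem_univ l)).symm
    have h2 : ∏ l, (p l : ℤ) ^ e l q β =
        (p l : ℤ) ^ e l q β * ∏ l' ∈ Finset.univ.erase l, (p l' : ℤ) ^ e l' q β :=
      (Finset.mul_prod_erase _ (fun l => (p l : ℤ) ^ e l q β) (Finset.mem_univ l)).symm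
    have h3 : (p l : ℤ) ^ (E + 1) = (p l : ℤ) ^ e l q β * (p l * (p l : ℤ) ^ (E - e l q β)) := by
      rw [← pow_succ', ← pow_add]
      congr 1
      have := hE l q β hβ
      omega
    refine ⟨∏ l' ∈ Finset.univ.erase l, (p l' : ℤ) ^ e l' q β + p l * ((p l : ℤ) ^ (E - e l q β) *
      ((∏ l' ∈ Finset.univ.erase l, (p l' : ℤ) ^ (E + 1)) * u)), ?_, ?_⟩
    · intro hdvd
      have h4 : (p l : ℤ) ∣ ∏ l' ∈ Finset.univ.erase l, (p l' : ℤ) ^ e l' q β :=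
        (dvd_add_left (Dvd.intro _ rfl)).1 hdvd
      have hpp : Prime (p l : ℤ) := Nat.prime_iff_prime_int.1 (hp l)
      obtain ⟨l', hl', h5⟩ := (hpp.dvd_finsetProd_iff _).1 h4
      have h6 := hpp.dvd_of_dvd_pow h5
      have h7 : p l ∣ p l' := by exact_mod_cast h6
      have h8 := (Nat.prime_dvd_prime_iff_eq (hp l) (hp l')).1 h7
      exact (Finset.ne_of_mem_erase hl') (hpinj h8).symm
    · have h4 : c q β = ∏ l, (p l : ℤ) ^ e l q β + ((∏ l, p l ^ (E + 1) : ℕ) : ℤ) * u := by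
        rw [← hu]
        ring
      rw [h4, h1, h2, h3]
      ring
  have hsub : {n : ℕ | n.Coprime (∏ l, p l ^ (E + 1))} ⊆ {n : ℕ | ∀ l, ¬ p l ∣ n} := by
    intro n hn l hl
    have h1 : p l ∣ ∏ l, p l ^ (E + 1) :=
      (dvd_pow_self (p l) (Nat.succ_ne_zero E)).trans (Finset.dvd_prod_of_mem _ (Finset.mem_univ l))
    have h2 := Nat.dvd_gcd hl h1
    rw [show Nat.gcd n (∏ l, p l ^ (E + 1)) = 1 from hn] at h2
    exact (hp l).one_lt.ne' (Nat.dvd_one.1 h2)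
  refine NoAtypical.mono hsub (core 𝒞 m supp _ e hgen p hp (fun l => (hpQ l).2)
    fun l j β hβ => ?_)
  obtain ⟨b, hb, hcb⟩ := key l j β hβ
  exact ordAt_int (hp l) hb hcb

end Pool.Agent.T9h40.Prod
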